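import Pool.Agent.P.MP_8a0bcd_co.St

/-! Arrangements of planes parallel to one line. -/

set_option autoImplicit false

namespace Pool.Agent.Cyl

open Set
open scoped Classical

/-- The labels of `x` at the indices of `S`. -/
noncomputable def arrTup {ι : Type} (τ : ι → Fn) (A : ι → Finset ℝ) (S : Finset ι) (x : E) :
    ι → Finset ℝ := fun i => if i ∈ S then lab (τ i) (A i) x else ∅

/-- The label tuples realised on `R`. -/
noncomputable def arrT {ι : Type} [Fintype ι] (τ : ι → Fn) (A : ι → Finset ℝ) (S : Finset ι)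
    (R : Set E) : Finset (ι → Finset ℝ) :=
  (Fintype.piFinset fun i => (A i).powerset).filter fun B => ∃ x ∈ R, arrTup τ A S x = B

theorem arr_mem {ι : Type} [Fintype ι] {τ : ι → Fn} {A : ι → Finset ℝ} {S : Finset ι}
    {R : Set E} {B : ι → Finset ℝ} : B ∈ arrT τ A S R ↔ ∃ x ∈ R, arrTup τ A S x = B := by
  unfold arrT
  rw [Finset.mem_filter]
  refine ⟨fun h => h.2, fun h => ⟨?_, h⟩⟩
  obtain ⟨x, -, rfl⟩ := h
  rw [Fintype.mem_piFinset]
  intro i
  rw [Finset.mem_powerset]
  unfold arrTup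
  split_ifs
  · exact Finset.filter_subset _ _
  · exact Finset.empty_subset _

theorem arr_lab_mono {l : Fn} {Θ : Finset ℝ} {x y : E} (h : l x ≤ l y) :
    lab l Θ x ⊆ lab l Θ y := by
  intro a ha
  unfold lab at ha ⊢
  rw [Finset.mem_filter] at ha ⊢
  exact ⟨ha.1, ha.2.trans h⟩

theorem arr_lab_seg {l : Fn} {Θ : Finset ℝ} {x y : E} (h : lab l Θ x = lab l Θ y) {s t : ℝ}
    (hs : 0 ≤ s) (ht : 0 ≤ t) (hst : s + t = 1) : lab l Θ (s • x + t • y) = lab l Θ y := by
  have e : l (s • x + t • y) = s * l x + t * l y := by simp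
  have hs' : s = 1 - t := by linarith
  rcases le_total (l x) (l y) with hxy | hxy
  · apply Finset.Subset.antisymm
    · exact arr_lab_mono (by rw [e, hs']; nlinarith [mul_nonneg hs (sub_nonneg.2 hxy)])
    · rw [← h]
      exact arr_lab_mono (by rw [e, hs']; nlinarith)
  · apply Finset.Subset.antisymm
    · rw [← h]
      exact arr_lab_mono (by rw [e, hs']; nlinarith)
    · exact arr_lab_mono (by rw [e, hs']; nlinarith [mul_nonneg hs (sub_nonneg.2 hxy)])

theorem arr_upd {ι : Type} (τ : ι → Fn) (A : ι → Finset ℝ) {S : Finset ι} {j : ι} (hj : j ∉ S)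
    (x : E) : Function.update (arrTup τ A (insert j S) x) j ∅ = arrTup τ A S x := by
  funext i
  by_cases h : i = j
  · subst h
    simp [arrTup, hj]
  · simp [arrTup, h]

theorem arr_upd' {ι : Type} (τ : ι → Fn) (A : ι → Finset ℝ) (S : Finset ι) (j : ι)
    (x : E) : Function.update (arrTup τ A S x) j (lab (τ j) (A j) x) =
      arrTup τ A (insert j S) x := by
  funext i
  by_cases h : i = j
  · subst h
    simp [arrTup]
  · simp [arrTup, h]

theorem arr_at {ι : Type} (τ : ι → Fn) (A : ι → Finset ℝ) (S : Finset ι) (j : ι) (x : E) :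
    arrTup τ A (insert j S) x j = lab (τ j) (A j) x := by
  simp [arrTup]

theorem arr_step {ι : Type} [Fintype ι] (τ : ι → Fn) (A : ι → Finset ℝ) {S : Finset ι} {j : ι}
    (hj : j ∉ S) {R : Set E} (hR : Convex ℝ R) :
    (arrT τ A (insert j S) R).card ≤ (arrT τ A S R).card +
      ∑ a ∈ A j, (arrT τ A S (R ∩ {x | τ j x = a})).card := by
  set T := arrT τ A (insert j S) R with hT
  let P : (ι → Finset ℝ) → Prop := fun B =>
    ∃ B' ∈ T, Function.update B' j ∅ = Function.update B j ∅ ∧ B' j ⊂ B j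
  rw [← Finset.card_filter_add_card_filter_not (s := T) P, add_comm]
  refine add_le_add ?_ ?_
  · refine Finset.card_le_card_of_injOn (fun B => Function.update B j ∅) ?_ ?_
    · intro B hB
      obtain ⟨x, hx, rfl⟩ := arr_mem.1 (Finset.mem_filter.1 (Finset.mem_coe.1 hB)).1
      exact Finset.mem_coe.2 (arr_mem.2 ⟨x, hx, (arr_upd τ A hj x).symm⟩)
    · have key : ∀ B ∈ T, ∀ B' ∈ T, ¬ P B' → Function.update B j ∅ = Function.update B' j ∅ →
          B j ⊆ B' j → B = B' := by
        intro B hB B' _ hP e hsub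
        have hjj : B j = B' j := by
          by_contra hne
          exact hP ⟨B, hB, e, Finset.ssubset_iff_subset_ne.2 ⟨hsub, hne⟩⟩
        funext i
        by_cases h : i = j
        · rw [h, hjj]
        · have := congrFun e i
          rwa [Function.update_of_ne h, Function.update_of_ne h] at this
      intro B hB B' hB' e
      obtain ⟨hB1, hB2⟩ := Finset.mem_filter.1 (Finset.mem_coe.1 hB)
      obtain ⟨hB1', hB2'⟩ := Finset.mem_filter.1 (Finset.mem_coe.1 hB')
      obtain ⟨x, -, ex⟩ := arr_mem.1 hB1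
      obtain ⟨y, -, ey⟩ := arr_mem.1 hB1'
      rcases le_total (τ j x) (τ j y) with h | h
      · refine key B hB1 B' hB1' hB2' e ?_
        rw [← ex, ← ey, arr_at, arr_at]
        exact arr_lab_mono h
      · refine (key B' hB1' B hB1 hB2 e.symm ?_).symm
        rw [← ex, ← ey, arr_at, arr_at]
        exact arr_lab_mono h
  · refine le_trans (Finset.card_le_card (t := (A j).biUnion fun a =>
      (arrT τ A S (R ∩ {x | τ j x = a})).image
        fun C => Function.update C j ((A j).filter (· ≤ a))) ?_) ?_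
    · intro B hB
      obtain ⟨hB1, B', hB', e, hlt⟩ := Finset.mem_filter.1 hB
      obtain ⟨x, hx, rfl⟩ := arr_mem.1 hB1
      obtain ⟨y, hy, rfl⟩ := arr_mem.1 hB'
      rw [arr_upd τ A hj, arr_upd τ A hj] at e
      rw [arr_at, arr_at] at hlt
      obtain ⟨b, hb, hb'⟩ := Finset.exists_of_ssubset hlt
      obtain ⟨a, ha, hmax⟩ := Finset.exists_max_image (lab (τ j) (A j) x) id ⟨b, hb⟩
      have ha' := Finset.mem_filter.1 ha
      have hb1 := Finset.mem_filter.1 hb
      have hyb : τ j y < b := by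
        by_contra hcon
        exact hb' (Finset.mem_filter.2 ⟨hb1.1, not_lt.1 hcon⟩)
      have hba : b ≤ a := hmax b hb
      have hax : a ≤ τ j x := ha'.2
      have hpos : 0 < τ j x - τ j y := by linarith
      set t := (a - τ j y) / (τ j x - τ j y) with ht
      have ht0 : 0 ≤ t := div_nonneg (by linarith) hpos.le
      have ht1 : t ≤ 1 := (div_le_one hpos).2 (by linarith)
      have htm : t * (τ j x - τ j y) = a - τ j y := div_mul_cancel₀ _ hpos.ne'
      have hz : τ j ((1 - t) • y + t • x) = a := by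
        rw [map_add, map_smul, map_smul, smul_eq_mul, smul_eq_mul]
        linarith
      have hzS : arrTup τ A S ((1 - t) • y + t • x) = arrTup τ A S x := by
        funext i
        have ei := congrFun e i
        unfold arrTup at ei ⊢
        by_cases hi : i ∈ S
        · rw [if_pos hi, if_pos hi] at ei ⊢
          exact arr_lab_seg ei (by linarith) ht0 (by ring)
        · rw [if_neg hi, if_neg hi]
      refine Finset.mem_biUnion.2 ⟨a, ha'.1, Finset.mem_image.2 ⟨arrTup τ A S x,
        arr_mem.2 ⟨_, ⟨hR hy hx (by linarith) ht0 (by ring), hz⟩, hzS⟩, ?_⟩⟩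
      rw [← arr_upd']
      have : (A j).filter (· ≤ a) = lab (τ j) (A j) x := by
        ext c
        constructor
        · intro hc
          have hc' := Finset.mem_filter.1 hc
          exact Finset.mem_filter.2 ⟨hc'.1, hc'.2.trans hax⟩
        · intro hc
          exact Finset.mem_filter.2 ⟨(Finset.mem_filter.1 hc).1, hmax c hc⟩
      rw [this]
    · exact Finset.card_biUnion_le.trans (Finset.sum_le_sum fun a _ => Finset.card_image_le)

theorem arr_empty {ι : Type} [Fintype ι] (τ : ι → Fn) (A : ι → Finset ℝ) (R : Set E) :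
    (arrT τ A ∅ R).card ≤ 1 := by
  refine Finset.card_le_one.2 fun B hB B' hB' => ?_
  obtain ⟨x, -, rfl⟩ := arr_mem.1 hB
  obtain ⟨y, -, rfl⟩ := arr_mem.1 hB'
  funext i
  simp [arrTup]

theorem arr_const {ι : Type} [Fintype ι] (τ : ι → Fn) (A : ι → Finset ℝ) (S : Finset ι)
    {R : Set E} (h : ∀ x ∈ R, ∀ y ∈ R, ∀ k, τ k x = τ k y) :
    (arrT τ A S R).card ≤ if R.Nonempty then 1 else 0 := by
  split_ifs with hne
  · refine Finset.card_le_one.2 fun B hB B' hB' => ?_
    obtain ⟨x, hx, rfl⟩ := arr_mem.1 hB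
    obtain ⟨y, hy, rfl⟩ := arr_mem.1 hB'
    funext i
    unfold arrTup lab
    rw [h x hx y hy i]
  · rw [Nat.le_zero, Finset.card_eq_zero, Finset.eq_empty_iff_forall_notMem]
    intro B hB
    obtain ⟨x, hx, -⟩ := arr_mem.1 hB
    exact hne ⟨x, hx⟩

theorem arr_conv {R : Set E} (hR : Convex ℝ R) (l : Fn) (a : ℝ) :
    Convex ℝ (R ∩ {x | l x = a}) :=
  hR.inter (convex_hyperplane l.isLinear a)

theorem arr_line {ι : Type} [Fintype ι] (τ : ι → Fn) (A : ι → Finset ℝ)
    (H : ∀ i j z, i ≠ j → τ i z = 0 → τ j z = 0 → ∀ k, τ k z = 0) {R : Set E}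
    (hR : Convex ℝ R) (j : ι) (a : ℝ) (S : Finset ι) (hj : j ∉ S) :
    (arrT τ A S (R ∩ {x | τ j x = a})).card ≤
      1 + ∑ i ∈ S, ((A i).filter fun a' => ∃ x ∈ R, τ j x = a ∧ τ i x = a').card := by
  induction S using Finset.induction_on with
  | empty => simpa using arr_empty τ A _
  | insert i S hi ih =>
    have hij : j ≠ i := fun h => hj (h ▸ Finset.mem_insert_self _ _)
    have h1 := arr_step τ A hi (arr_conv hR (τ j) a)
    have h2 := ih fun h => hj (Finset.mem_insert_of_mem h)
    have h3 : ∑ a' ∈ A i, (arrT τ A S (R ∩ {x | τ j x = a} ∩ {x | τ i x = a'})).card ≤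
        ((A i).filter fun a' => ∃ x ∈ R, τ j x = a ∧ τ i x = a').card := by
      rw [Finset.card_filter]
      refine Finset.sum_le_sum fun a' _ => ?_
      refine (arr_const τ A S ?_).trans ?_
      · rintro x ⟨⟨-, hx1⟩, hx2⟩ y ⟨⟨-, hy1⟩, hy2⟩ k
        have := H j i (x - y) hij (by rw [map_sub, hx1, hy1, sub_self])
          (by rw [map_sub, hx2, hy2, sub_self]) k
        rwa [map_sub, sub_eq_zero] at this
      · split_ifs with p q
        · exact le_rfl
        · obtain ⟨x, ⟨hx, hx1⟩, hx2⟩ := p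
          exact absurd ⟨x, hx, hx1, hx2⟩ q
        · exact Nat.zero_le _
        · exact le_rfl
    rw [Finset.sum_insert hi]
    omega

theorem arr_all {ι : Type} [Fintype ι] (τ : ι → Fn) (A : ι → Finset ℝ)
    (H : ∀ i j z, i ≠ j → τ i z = 0 → τ j z = 0 → ∀ k, τ k z = 0) {R : Set E}
    (hR : Convex ℝ R) (S : Finset ι) :
    (arrT τ A S R).card ≤ 1 + ∑ i ∈ S, (A i).card + ∑ i ∈ S, ∑ j ∈ S.erase i,
        ((A i ×ˢ A j).filter fun p => ∃ x ∈ R, τ i x = p.1 ∧ τ j x = p.2).card := by
  induction S using Finset.induction_on with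
  | empty => simpa using arr_empty τ A _
  | insert j S hj ih =>
    have h1 := arr_step τ A hj hR
    have h2 : ∑ a ∈ A j, (arrT τ A S (R ∩ {x | τ j x = a})).card ≤ (A j).card + ∑ i ∈ S,
        ((A j ×ˢ A i).filter fun p => ∃ x ∈ R, τ j x = p.1 ∧ τ i x = p.2).card := by
      refine (Finset.sum_le_sum fun a _ => arr_line τ A H hR j a S hj).trans (le_of_eq ?_)
      rw [Finset.sum_add_distrib, Finset.sum_comm, ← Finset.card_eq_sum_ones]
      refine congrArg _ (Finset.sum_congr rfl fun i _ => ?_)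
      rw [Finset.card_filter, Finset.sum_product]
      exact Finset.sum_congr rfl fun a _ => Finset.card_filter _ _
    have h3 : ∑ i ∈ S, ∑ k ∈ S.erase i,
        ((A i ×ˢ A k).filter fun p => ∃ x ∈ R, τ i x = p.1 ∧ τ k x = p.2).card ≤
        ∑ i ∈ S, ∑ k ∈ (insert j S).erase i,
        ((A i ×ˢ A k).filter fun p => ∃ x ∈ R, τ i x = p.1 ∧ τ k x = p.2).card :=
      Finset.sum_le_sum fun i _ => Finset.sum_le_sum_of_subset
        (Finset.erase_subset_erase _ (Finset.subset_insert _ _))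
    rw [Finset.sum_insert hj, Finset.sum_insert hj, Finset.erase_insert hj]
    omega

theorem arr_card {ι : Type} [Fintype ι] (τ : ι → Fn) (A : ι → Finset ℝ)
    (H : ∀ i j z, i ≠ j → τ i z = 0 → τ j z = 0 → ∀ k, τ k z = 0) (R : Set E)
    (hR : Convex ℝ R) :
    ∃ B : Finset (ι → Finset ℝ), (∀ x ∈ R, (fun i => lab (τ i) (A i) x) ∈ B) ∧
      B.card ≤ 1 + ∑ i, (A i).card + ∑ i, ∑ j ∈ Finset.univ.erase i,
        ((A i ×ˢ A j).filter fun p => ∃ x ∈ R, τ i x = p.1 ∧ τ j x = p.2).card := by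
  refine ⟨arrT τ A Finset.univ R, fun x hx => arr_mem.2 ⟨x, hx, ?_⟩, arr_all τ A H hR _⟩
  funext i
  simp [arrTup]

end Pool.Agent.Cyl
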