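import Pool.Agent.P.MP_8a0bcd_co.QEB

/-! Closures of sets cut out by boundedly many quadrics have bounded complexity. -/

set_option autoImplicit false

namespace Pool.Agent.Cyl

open Set
open scoped Classical

/-- Polynomial functions. -/
def ClosPF {σ : Type} (f : (σ → ℝ) → ℝ) : Prop :=
  ∃ p : MvPolynomial σ ℝ, ∀ x, f x = MvPolynomial.eval x p

theorem closPF_var {σ : Type} (v : σ) : ClosPF fun x : σ → ℝ => x v :=
  ⟨MvPolynomial.X v, fun x => by simp⟩

theorem closPF_add {σ : Type} {f g : (σ → ℝ) → ℝ} (hf : ClosPF f) (hg : ClosPF g) :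
    ClosPF fun x => f x + g x := by
  obtain ⟨p, hp⟩ := hf
  obtain ⟨q, hq⟩ := hg
  exact ⟨p + q, fun x => by simp [hp, hq]⟩

theorem closPF_sub {σ : Type} {f g : (σ → ℝ) → ℝ} (hf : ClosPF f) (hg : ClosPF g) :
    ClosPF fun x => f x - g x := by
  obtain ⟨p, hp⟩ := hf
  obtain ⟨q, hq⟩ := hg
  exact ⟨p - q, fun x => by simp [hp, hq]⟩

theorem closPF_mul {σ : Type} {f g : (σ → ℝ) → ℝ} (hf : ClosPF f) (hg : ClosPF g) :
    ClosPF fun x => f x * g x := by
  obtain ⟨p, hp⟩ := hf
  obtain ⟨q, hq⟩ := hg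
  exact ⟨p * q, fun x => by simp [hp, hq]⟩

theorem closPF_sum {σ J : Type} [Fintype J] {f : J → (σ → ℝ) → ℝ} (hf : ∀ j, ClosPF (f j)) :
    ClosPF fun x => ∑ j, f j x := by
  choose p hp using hf
  exact ⟨∑ j, p j, fun x => by simp [hp]⟩

theorem clos_pos {σ : Type} {f : (σ → ℝ) → ℝ} (hf : ClosPF f) : SA fun x => 0 < f x := by
  obtain ⟨p, hp⟩ := hf
  refine ⟨{p}, fun x y h hx => ?_⟩
  have h1 := h p (Finset.mem_singleton_self p)
  rw [← hp, ← hp, sign_pos hx] at h1
  exact sign_eq_one_iff.1 h1.symm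

theorem clos_congr {σ : Type} {P Q : (σ → ℝ) → Prop} (h : SA P) (e : ∀ x, P x ↔ Q x) : SA Q := by
  obtain ⟨T, hT⟩ := h
  exact ⟨T, fun x y h hx => (e y).1 (hT x y h ((e x).2 hx))⟩

theorem clos_not {σ : Type} {P : (σ → ℝ) → Prop} (h : SA P) : SA fun x => ¬ P x := by
  obtain ⟨T, hT⟩ := h
  exact ⟨T, fun x y h hx hy => hx (hT y x (fun p hp => (h p hp).symm) hy)⟩

theorem clos_and {σ : Type} {P Q : (σ → ℝ) → Prop} (h : SA P) (h' : SA Q) :
    SA fun x => P x ∧ Q x := by
  obtain ⟨T, hT⟩ := h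
  obtain ⟨T', hT'⟩ := h'
  exact ⟨T ∪ T', fun x y h hx =>
    ⟨hT x y (fun p hp => h p (Finset.mem_union_left _ hp)) hx.1,
      hT' x y (fun p hp => h p (Finset.mem_union_right _ hp)) hx.2⟩⟩

theorem clos_all {σ J : Type} [Fintype J] {P : J → (σ → ℝ) → Prop} (h : ∀ j, SA (P j)) :
    SA fun x => ∀ j, P j x := by
  choose T hT using h
  exact ⟨Finset.univ.biUnion T, fun x y h hx j => hT j x y
    (fun p hp => h p (Finset.mem_biUnion.2 ⟨j, Finset.mem_univ j, hp⟩)) (hx j)⟩

/-- Coefficient variables. -/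
abbrev ClosK (M : ℕ) : Type := Fin M × ((Fin 3 × Fin 3) ⊕ (Fin 3 ⊕ Unit))

/-- The quadric with the coefficients `c`. -/
def closG {M : ℕ} (c : ClosK M → ℝ) (m : Fin M) (y : E) : ℝ :=
  ∑ i, ∑ j, c (m, Sum.inl (i, j)) * y i * y j + ∑ i, c (m, Sum.inr (Sum.inl i)) * y i +
    c (m, Sum.inr (Sum.inr ()))

/-- The positions of the three bound variables. -/
def closY {σ : Type} : Fin 3 → Option (Option (Option σ)) := ![some (some none), some none, none]

theorem clos_inner (M : ℕ) :
    SA fun w : Option (Option (Option (Option (ClosK M ⊕ Fin 3)))) → ℝ =>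
      (∀ i, 0 < w (some (some (some none))) -
          (w (some (some (some (some (Sum.inr i))))) - w (closY i)) ∧
        0 < w (some (some (some none))) +
          (w (some (some (some (some (Sum.inr i))))) - w (closY i))) ∧
      ∀ m, 0 < closG (fun k => w (some (some (some (some (Sum.inl k)))))) m
        fun i => w (closY i) := by
  refine clos_and (clos_all fun i => clos_and (clos_pos ?_) (clos_pos ?_))
    (clos_all fun m => clos_pos ?_)
  · exact closPF_sub (closPF_var _) (closPF_sub (closPF_var _) (closPF_var _))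
  · exact closPF_add (closPF_var _) (closPF_sub (closPF_var _) (closPF_var _))
  · unfold closG
    refine closPF_add (closPF_add (closPF_sum fun i => closPF_sum fun j => ?_)
      (closPF_sum fun i => ?_)) (closPF_var _)
    · exact closPF_mul (closPF_mul (closPF_var _) (closPF_var _)) (closPF_var _)
    · exact closPF_mul (closPF_var _) (closPF_var _)

theorem clos_mid (M : ℕ) :
    SA fun w : Option (ClosK M ⊕ Fin 3) → ℝ =>
      ∃ y : E, (∀ i, |w (some (Sum.inr i)) - y i| < w none) ∧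
        ∀ m, 0 < closG (fun k => w (some (Sum.inl k))) m y := by
  refine clos_congr (clos_inner M).exists_real.exists_real.exists_real fun w => ?_
  constructor
  · rintro ⟨y0, y1, y2, h1, h2⟩
    have e : ∀ i, (closY i : Option (Option (Option (Option (ClosK M ⊕ Fin 3))))).elim y2
        (fun o => o.elim y1 fun o => o.elim y0 w) = ![y0, y1, y2] i := by
      intro i
      fin_cases i <;> rfl
    refine ⟨![y0, y1, y2], fun i => ?_, fun m => ?_⟩
    · have := h1 i
      simp only [e, Option.elim_some] at this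
      rw [abs_lt]
      constructor <;> linarith [this.1, this.2]
    · have := h2 m
      simpa only [e, Option.elim_some] using this
  · rintro ⟨y, h1, h2⟩
    have e : ∀ i, (closY i : Option (Option (Option (Option (ClosK M ⊕ Fin 3))))).elim (y 2)
        (fun o => o.elim (y 1) fun o => o.elim (y 0) w) = y i := by
      intro i
      fin_cases i <;> rfl
    refine ⟨y 0, y 1, y 2, fun i => ?_, fun m => ?_⟩
    · have := h1 i
      rw [abs_lt] at this
      simp only [e, Option.elim_some]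
      constructor <;> linarith [this.1, this.2]
    · simpa only [e, Option.elim_some] using h2 m

theorem clos_outer (M : ℕ) :
    SA fun z : ClosK M ⊕ Fin 3 → ℝ =>
      (fun i => z (Sum.inr i)) ∈ closure {y : E | ∀ m, 0 < closG (fun k => z (Sum.inl k)) m y} := by
  have h0 : SA fun w : Option (ClosK M ⊕ Fin 3) → ℝ => 0 < w none := clos_pos (closPF_var _)
  refine clos_congr (clos_not (clos_and h0 (clos_not (clos_mid M))).exists_real) fun z => ?_
  rw [Metric.mem_closure_iff]
  simp only [Option.elim_some, Option.elim_none, not_exists, not_and, not_forall, not_not,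
    mem_ofPred_eq]
  constructor
  · intro h e he
    by_contra hc
    obtain ⟨y, hy⟩ := h e he
    refine hc ⟨y, hy.2, ?_⟩
    rw [dist_pi_lt_iff he]
    intro i
    rw [Real.dist_eq]
    exact hy.1 i
  · intro h e he
    obtain ⟨y, hy, hd⟩ := h e he
    rw [dist_pi_lt_iff he] at hd
    refine ⟨y, ?_⟩
    exact ⟨fun i => by simpa only [Real.dist_eq] using hd i, hy⟩

theorem clos_deg {K : Type} (p : MvPolynomial (K ⊕ Fin 3) ℝ) : ∃ b : ℕ, ∀ c : K → ℝ,
    ∃ q : MvPolynomial (Fin 3) ℝ, q.totalDegree ≤ b ∧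
      ∀ x, MvPolynomial.eval x q = MvPolynomial.eval (Sum.elim c x) p := by
  induction p using MvPolynomial.induction_on with
  | C a => exact ⟨0, fun _ => ⟨MvPolynomial.C a, by simp, fun x => by simp⟩⟩
  | add p q hp hq =>
    obtain ⟨b, hb⟩ := hp
    obtain ⟨b', hb'⟩ := hq
    refine ⟨max b b', fun c => ?_⟩
    obtain ⟨u, u1, u2⟩ := hb c
    obtain ⟨v, v1, v2⟩ := hb' c
    exact ⟨u + v, (MvPolynomial.totalDegree_add u v).trans (max_le_max u1 v1),
      fun x => by simp [u2, v2]⟩
  | mul_X p v hp =>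
    obtain ⟨b, hb⟩ := hp
    refine ⟨b + 1, fun c => ?_⟩
    obtain ⟨u, u1, u2⟩ := hb c
    rcases v with k | i
    · refine ⟨u * MvPolynomial.C (c k), (MvPolynomial.totalDegree_mul _ _).trans ?_,
        fun x => by simp [u2]⟩
      rw [MvPolynomial.totalDegree_C]
      omega
    · refine ⟨u * MvPolynomial.X i, (MvPolynomial.totalDegree_mul _ _).trans ?_,
        fun x => by simp [u2]⟩
      rw [MvPolynomial.totalDegree_X]
      omega

theorem clos_cx {K : Type} {P : (K ⊕ Fin 3 → ℝ) → Prop} (h : SA P) :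
    ∃ s b : ℕ, ∀ c : K → ℝ, Cx s b {x | P (Sum.elim c x)} := by
  obtain ⟨T, hT⟩ := h
  choose b hb using fun p : MvPolynomial (K ⊕ Fin 3) ℝ => clos_deg p
  refine ⟨T.card, T.sup b, fun c => ?_⟩
  choose q q1 q2 using fun p => hb p c
  refine ⟨fun i => q (T.equivFin.symm i),
    {φ | ∃ x, P (Sum.elim c x) ∧
      φ = fun i => SignType.sign (MvPolynomial.eval x (q (T.equivFin.symm i)))},
    fun i => (q1 _).trans (Finset.le_sup (T.equivFin.symm i).2), ?_⟩
  ext x
  simp only [mem_ofPred_eq]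
  refine ⟨fun hx => ⟨x, hx, rfl⟩, ?_⟩
  rintro ⟨y, hy, e⟩
  refine hT _ _ (fun p hp => ?_) hy
  have := congrFun e (T.equivFin ⟨p, hp⟩)
  simp only [Equiv.symm_apply_apply, q2] at this
  exact this.symm

theorem closure_cx (M : ℕ) : ∃ s b : ℕ, ∀ T : Finset (E → ℝ), T.card ≤ M → (∀ g ∈ T, Quad g) →
    Cx s b (closure {x | ∀ g ∈ T, 0 < g x}) := by
  obtain ⟨s, b, h⟩ := clos_cx (clos_outer M)
  refine ⟨s, b, fun T hT hQ => ?_⟩
  have h1 : Quad fun _ => 1 := ⟨0, 0, 1, fun x => by simp⟩
  let g : Fin M → E → ℝ := fun m =>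
    if hm : (m : ℕ) < T.card then (T.equivFin.symm ⟨m, hm⟩ : E → ℝ) else fun _ => 1
  have hg : ∀ m, Quad (g m) := by
    intro m
    by_cases hm : (m : ℕ) < T.card
    · simp only [g, dif_pos hm]
      exact hQ _ (T.equivFin.symm ⟨m, hm⟩).2
    · simp only [g, dif_neg hm]
      exact h1
  choose q l c0 hq using hg
  let c : ClosK M → ℝ := fun k =>
    Sum.elim (fun ij => q k.1 ij.1 ij.2) (Sum.elim (l k.1) fun _ => c0 k.1) k.2
  have hc : ∀ m y, closG c m y = g m y := fun m y => (hq m y).symm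
  have e : {x : E | ∀ g ∈ T, 0 < g x} = {y : E | ∀ m, 0 < closG c m y} := by
    ext y
    simp only [mem_ofPred_eq, hc]
    constructor
    · intro h m
      by_cases hm : (m : ℕ) < T.card
      · simp only [g, dif_pos hm]
        exact h _ (T.equivFin.symm ⟨m, hm⟩).2
      · simp only [g, dif_neg hm]
        exact one_pos
    · intro h f hf
      have hm := (T.equivFin ⟨f, hf⟩).2
      have := h ⟨T.equivFin ⟨f, hf⟩, hm.trans_le hT⟩
      simpa only [g, dif_pos hm, Fin.eta, Equiv.symm_apply_apply] using this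
  rw [e]
  exact h c

end Pool.Agent.Cyl
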