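import Pool.Agent.P.MP_8a0bcd_co.St
import Pool.Agent.Lib.SignPatterns.Warren

/-! Bounded components of the complement of a hypersurface. -/

set_option autoImplicit false

namespace Pool.Agent.Cyl

open Set
open scoped Classical

lemma comp_mem_of_closure {U : Set E} {x z : E} (hx : x ∈ U)
    (hz : z ∈ closure (connectedComponentIn U x)) (hzU : z ∈ U) :
    z ∈ connectedComponentIn U x := by
  have h1 : IsPreconnected (insert z (connectedComponentIn U x)) :=
    isPreconnected_connectedComponentIn.subset_closure (subset_insert _ _)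
      (insert_subset hz subset_closure)
  exact h1.subset_connectedComponentIn (mem_insert_of_mem _ (mem_connectedComponentIn hx))
    (insert_subset hzU (connectedComponentIn_subset _ _)) (mem_insert _ _)

open MvPolynomial Pool.Agent.Lib.SignPatterns in
lemma comp_critical (f : MvPolynomial (Fin 3) ℝ) (x₀ : E) (h0 : eval x₀ f ≠ 0)
    (hb : Bornology.IsBounded (connectedComponentIn {y : E | eval y f ≠ 0} x₀)) :
    ∃ δ > 0, ∀ y : Fin 3 → ℝ, (∀ s, |y s| < δ) →
      ∃ x ∈ connectedComponentIn {y : E | eval y f ≠ 0} x₀, ∀ s, eval x (pderiv s f) = y s := by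
  set U : Set E := {y : E | eval y f ≠ 0} with hU
  set D : Set E := connectedComponentIn U x₀ with hD
  set w : ℝ := eval x₀ f with hw
  have hUo : IsOpen U := isOpen_ne_fun f.continuous_eval continuous_const
  have hDo : IsOpen D := hUo.connectedComponentIn
  have hK : IsCompact (closure D) := hb.isCompact_closure
  obtain ⟨R, hR0, hR⟩ := hK.isBounded.exists_pos_norm_le
  have hx₀ : x₀ ∈ closure D := subset_closure (mem_connectedComponentIn h0)
  have hw0 : 0 < |w| := abs_pos.2 h0
  refine ⟨|w| / (8 * R), by positivity, fun y hy => ?_⟩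
  let p : MvPolynomial (Fin 3) ℝ := C w * (f - ∑ s, C (y s) * X s)
  have hp : ∀ x : E, eval x p = w * eval x f - w * ∑ s, y s * x s := by
    intro x
    simp only [p, map_mul, map_sub, eval_C, map_sum, eval_X]
    ring
  have hlin : ∀ x ∈ closure D, |w * ∑ s, y s * x s| ≤ 3 / 8 * (w * w) := by
    intro x hx
    have h1 : |∑ s, y s * x s| ≤ 3 / 8 * |w| := by
      refine (Finset.abs_sum_le_sum_abs _ _).trans ?_
      calc ∑ s, |y s * x s| ≤ ∑ _s : Fin 3, |w| / (8 * R) * R := by
            apply Finset.sum_le_sum
            intro s _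
            rw [abs_mul]
            exact mul_le_mul (hy s).le ((norm_le_pi_norm x s).trans (hR x hx)) (abs_nonneg _)
              (by positivity)
        _ = 3 / 8 * |w| := by
            simp only [Finset.sum_const, Finset.card_univ, Fintype.card_fin, nsmul_eq_mul]
            field_simp
            norm_num
    rw [abs_mul, ← abs_mul_abs_self w]
    nlinarith
  obtain ⟨x, hxK, hmax⟩ := hK.exists_isMaxOn ⟨x₀, hx₀⟩ p.continuous_eval.continuousOn
  have hxU : x ∈ U := by
    intro hx
    have h1 : eval x₀ p ≤ eval x p := hmax hx₀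
    rw [hp, hp, hx, ← hw] at h1
    have h2 := abs_le.1 (hlin x hxK)
    have h3 := abs_le.1 (hlin x₀ hx₀)
    have h4 : 0 < w * w := mul_self_pos.2 h0
    linarith [h2.1, h3.2]
  have hxD : x ∈ D := comp_mem_of_closure h0 hxK hxU
  refine ⟨x, hxD, fun s => ?_⟩
  have hloc : IsLocalMax (fun z => eval z p) x :=
    hmax.isLocalMax (Filter.mem_of_superset (hDo.mem_nhds hxD) subset_closure)
  have hloc' : IsLocalMax (fun u => eval (Function.update x s u) p) (x s) := by
    have h1 : IsLocalMax (fun z => eval z p) (Function.update x s (x s)) := by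
      rwa [Function.update_eq_self]
    exact h1.comp_continuous (g := fun u => Function.update x s u)
      (continuous_const.update s continuous_id).continuousAt
  have h1 := hloc'.hasDerivAt_eq_zero (hasDerivAt_update p x s (x s))
  rw [Function.update_eq_self] at h1
  have hd : pderiv s p = C w * (pderiv s f - C (y s)) := by
    simp only [p, pderiv_C_mul, map_sub, map_sum, pderiv_X]
    congr 2
    rw [Finset.sum_eq_single s]
    · simp
    · intro b _ hb
      simp [hb]
    · simp
  rw [hd] at h1
  simp only [map_mul, eval_C, map_sub] at h1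
  have := (mul_eq_zero.1 h1).resolve_left h0
  linarith

theorem card_bounded_components (f : MvPolynomial (Fin 3) ℝ) (D : ℕ) (hf : f.totalDegree ≤ D)
    (T : Finset E) (h0 : ∀ x ∈ T, MvPolynomial.eval x f ≠ 0)
    (hb : ∀ x ∈ T, Bornology.IsBounded
      (connectedComponentIn {y : E | MvPolynomial.eval y f ≠ 0} x))
    (hd : ∀ x ∈ T, ∀ y ∈ T,
      y ∈ connectedComponentIn {y : E | MvPolynomial.eval y f ≠ 0} x → x = y) :
    T.card ≤ (3 * D + 1) ^ 3 := by
  have hcrit := fun x : T => comp_critical f x.1 (h0 x.1 x.2) (hb x.1 x.2)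
  choose δ hδ hδ' using hcrit
  obtain ⟨ε, hε, hεδ⟩ : ∃ ε > 0, ∀ x : T, ε ≤ δ x := by
    rcases isEmpty_or_nonempty T with h | h
    · exact ⟨1, one_pos, fun x => h.elim x⟩
    · obtain ⟨x, hx⟩ := Finite.exists_min δ
      exact ⟨δ x, hδ x, hx⟩
  have key := Pool.Agent.Lib.SignPatterns.card_le_of_fibers
    (fun s => MvPolynomial.pderiv s f) D T.card
    (fun s => (Pool.Agent.Lib.SignPatterns.totalDegree_pderiv_le f s).trans hf) hε ?_
  · simpa only [Fintype.card_fin] using key
  intro y hy
  choose z hz hz' using fun x : T => hδ' x y fun s => (hy s).trans_le (hεδ x)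
  have hzinj : Function.Injective z := by
    intro x x' h
    apply Subtype.ext
    apply hd _ x.2 _ x'.2
    have h1 := connectedComponentIn_eq (hz x)
    have h2 := connectedComponentIn_eq (hz x')
    rw [h1, h, ← h2]
    exact mem_connectedComponentIn (h0 _ x'.2)
  refine ⟨Finset.univ.image z, ?_, ?_⟩
  · rw [Finset.card_image_of_injective _ hzinj]; simp
  · intro x hx s
    obtain ⟨x', -, rfl⟩ := Finset.mem_image.1 hx
    exact hz' x' s

end Pool.Agent.Cyl
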