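import Pool.Agent.P.MP_8a0bcd_co.St

/-! Envelopes of unit circles. -/

set_option autoImplicit false

namespace Pool.Agent.Cyl

open Set
open scoped Classical

theorem env_conc {a b c d : ℝ} (ha : |a| ≤ 1) (hd : |d| ≤ 1) (h1 : a ≤ b) (h2 : b ≤ d)
    (hs : a + d = b + c) :
    √(1 - a ^ 2) + √(1 - d ^ 2) ≤ √(1 - b ^ 2) + √(1 - c ^ 2) := by
  obtain ⟨a1, a2⟩ := abs_le.1 ha
  obtain ⟨d1, d2⟩ := abs_le.1 hd
  have hc : c = a + d - b := by linarith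
  have hp : a * d ≤ b * c := by rw [hc]; nlinarith [mul_nonneg (sub_nonneg.2 h1) (sub_nonneg.2 h2)]
  have A0 : 0 ≤ 1 - a ^ 2 := by nlinarith
  have D0 : 0 ≤ 1 - d ^ 2 := by nlinarith
  have B0 : 0 ≤ 1 - b ^ 2 := by nlinarith
  have C0 : 0 ≤ 1 - c ^ 2 := by rw [hc]; nlinarith
  have hsum : (1 - a ^ 2) + (1 - d ^ 2) ≤ (1 - b ^ 2) + (1 - c ^ 2) := by
    have : (a + d) ^ 2 = (b + c) ^ 2 := by rw [hs]
    nlinarith
  have hprod : (1 - a ^ 2) * (1 - d ^ 2) ≤ (1 - b ^ 2) * (1 - c ^ 2) := by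
    have e1 : (1 - a ^ 2) * (1 - d ^ 2) = (1 - (a + d) + a * d) * (1 + (a + d) + a * d) := by ring
    have e2 : (1 - b ^ 2) * (1 - c ^ 2) = (1 - (b + c) + b * c) * (1 + (b + c) + b * c) := by ring
    have p1 : 0 ≤ 1 - (a + d) + a * d := by nlinarith [mul_nonneg (sub_nonneg.2 a2) (sub_nonneg.2 d2)]
    have p2 : 0 ≤ 1 + (a + d) + a * d := by
      nlinarith [mul_nonneg (show 0 ≤ a + 1 by linarith) (show 0 ≤ d + 1 by linarith)]
    rw [e1, e2, ← hs]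
    exact mul_le_mul (by linarith) (by linarith) p2 (by linarith)
  have hq : √(1 - a ^ 2) * √(1 - d ^ 2) ≤ √(1 - b ^ 2) * √(1 - c ^ 2) := by
    rw [← Real.sqrt_mul A0, ← Real.sqrt_mul B0]
    exact Real.sqrt_le_sqrt hprod
  refine abs_le_of_sq_le_sq' ?_ (by positivity) |>.2
  have s1 := Real.sq_sqrt A0
  have s2 := Real.sq_sqrt B0
  have s3 := Real.sq_sqrt C0
  have s4 := Real.sq_sqrt D0
  nlinarith

theorem env_core {κ : Type} (J : Finset κ) (p c : κ → ℝ) :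
    ∃ Θ : Finset ℝ, Θ.card ≤ 2 * J.card ∧ ∀ t, (∀ k ∈ J, |t - p k| ≤ 1) → t ∉ Θ →
      ∃ J' ⊆ J, J'.card ≤ 1 ∧ ∀ s, (∀ k ∈ J, |s - p k| ≤ 1) →
        (∀ θ ∈ Θ, (θ < t → θ < s) ∧ (t < θ → s < θ)) →
        ∀ k ∈ J, ∃ k' ∈ J', c k + √(1 - (s - p k) ^ 2) ≤ c k' + √(1 - (s - p k') ^ 2) := by
  set f : κ → ℝ → ℝ := fun k t => c k + √(1 - (t - p k) ^ 2) with hf
  set T : κ → Set ℝ := fun k => {t | (∀ j ∈ J, |t - p j| ≤ 1) ∧ ∀ j ∈ J, f j t ≤ f k t} with hT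
  refine ⟨J.image (fun k => sInf (T k)) ∪ J.image (fun k => sSup (T k)), ?_, ?_⟩
  · refine (Finset.card_union_le _ _).trans ?_
    have := Finset.card_image_le (s := J) (f := fun k => sInf (T k))
    have := Finset.card_image_le (s := J) (f := fun k => sSup (T k))
    omega
  intro t ht hΘ
  rcases J.eq_empty_or_nonempty with hJ | hJ
  · exact ⟨∅, Finset.empty_subset _, by simp, fun s _ _ k hk => by simp [hJ] at hk⟩
  obtain ⟨k, hk, hmax⟩ := J.exists_max_image (fun j => f j t) hJ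
  have htT : t ∈ T k := ⟨ht, hmax⟩
  have hb : BddBelow (T k) := ⟨p k - 1, fun u hu => by linarith [(abs_le.1 (hu.1 k hk)).1]⟩
  have ha : BddAbove (T k) := ⟨p k + 1, fun u hu => by linarith [(abs_le.1 (hu.1 k hk)).2]⟩
  have m1 : sInf (T k) ∈ J.image (fun k => sInf (T k)) ∪ J.image (fun k => sSup (T k)) :=
    Finset.mem_union_left _ (Finset.mem_image_of_mem _ hk)
  have m2 : sSup (T k) ∈ J.image (fun k => sInf (T k)) ∪ J.image (fun k => sSup (T k)) :=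
    Finset.mem_union_right _ (Finset.mem_image_of_mem _ hk)
  have l1 : sInf (T k) < t := (csInf_le hb htT).lt_of_ne fun e => hΘ (e ▸ m1)
  have l2 : t < sSup (T k) := (le_csSup ha htT).lt_of_ne fun e => hΘ (e ▸ m2)
  refine ⟨{k}, by simpa using hk, by simp, fun s hs hsl j hj => ⟨k, by simp, ?_⟩⟩
  obtain ⟨u, hu, hus⟩ := exists_lt_of_csInf_lt ⟨t, htT⟩ ((hsl _ m1).1 l1)
  obtain ⟨v, hv, hsv⟩ := exists_lt_of_lt_csSup ⟨t, htT⟩ ((hsl _ m2).2 l2)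
  rcases le_total (p j) (p k) with h | h
  · have h1 : c j + √(1 - (u - p j) ^ 2) ≤ c k + √(1 - (u - p k) ^ 2) := hu.2 j hj
    have h2 := env_conc (a := u - p k) (b := s - p k) (c := u - p j) (d := s - p j)
      (hu.1 k hk) (hs j hj) (by linarith) (by linarith) (by ring)
    linarith
  · have h1 : c j + √(1 - (v - p j) ^ 2) ≤ c k + √(1 - (v - p k) ^ 2) := hv.2 j hj
    have h2 := env_conc (a := s - p j) (b := s - p k) (c := v - p j) (d := v - p k)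
      (hs j hj) (hv.1 k hk) (by linarith) (by linarith) (by ring)
    linarith

theorem env_one {κ : Type} (τ σ : Fn) (J : Finset κ) (a : κ → E) (R : Set E)
    (h : ∀ k ∈ J, (∀ y ∈ R, |τ (y - a k)| ≤ 1) ∧ ∀ y ∈ R, 0 ≤ σ (y - a k)) :
    ∃ Θ : Finset ℝ, Θ.card ≤ 2 * J.card ∧ ∀ x ∈ R, τ x ∉ Θ → ∃ J' ⊆ J, J'.card ≤ 1 ∧
      ∀ y ∈ R, y ∈ slab τ Θ x → ∀ k ∈ J, y ∈ disc τ σ (a k) → ∃ k' ∈ J', y ∈ disc τ σ (a k') := by
  obtain ⟨Θ, hc, H⟩ := env_core J (fun k => τ (a k)) (fun k => σ (a k))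
  refine ⟨Θ, hc, fun x hx hΘ => ?_⟩
  have hI : ∀ y ∈ R, ∀ k ∈ J, |τ y - τ (a k)| ≤ 1 := fun y hy k hk => by
    simpa only [map_sub] using (h k hk).1 y hy
  obtain ⟨J', hJ, h1, H'⟩ := H (τ x) (hI x hx) hΘ
  refine ⟨J', hJ, h1, fun y hy hs k hk hd => ?_⟩
  obtain ⟨k', hk', hle⟩ := H' (τ y) (hI y hy) hs k hk
  refine ⟨k', hk', ?_⟩
  have d1 : (τ y - τ (a k)) ^ 2 + (σ y - σ (a k)) ^ 2 ≤ 1 := by
    simpa only [disc, mem_ofPred_eq, map_sub] using hd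
  have d2 : σ y - σ (a k) ≤ √(1 - (τ y - τ (a k)) ^ 2) := Real.le_sqrt_of_sq_le (by linarith)
  have p1 : 0 ≤ σ y - σ (a k') := by simpa only [map_sub] using (h k' (hJ hk')).2 y hy
  have d3 : σ y - σ (a k') ≤ √(1 - (τ y - τ (a k')) ^ 2) := by linarith
  have n0 : 0 ≤ 1 - (τ y - τ (a k')) ^ 2 := by
    have := abs_le.1 (hI y hy k' (hJ hk'))
    nlinarith
  have d4 := (Real.le_sqrt p1 n0).1 d3
  show τ (y - a k') ^ 2 + σ (y - a k') ^ 2 ≤ 1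
  rw [map_sub, map_sub]
  linarith

theorem env_two {κ : Type} (τ σ : Fn) (J : Finset κ) (a : κ → E) (R : Set E)
    (h : ∀ k ∈ J, (∀ y ∈ R, |τ (y - a k)| ≤ 1) ∧
      ((∀ y ∈ R, 0 ≤ σ (y - a k)) ∨ ∀ y ∈ R, σ (y - a k) ≤ 0)) :
    ∃ Θ : Finset ℝ, Θ.card ≤ 2 * J.card ∧ ∀ x ∈ R, τ x ∉ Θ → ∃ J' ⊆ J, J'.card ≤ 2 ∧
      ∀ y ∈ R, y ∈ slab τ Θ x → ∀ k ∈ J, y ∈ disc τ σ (a k) → ∃ k' ∈ J', y ∈ disc τ σ (a k') := by
  set P : κ → Prop := fun k => ∀ y ∈ R, 0 ≤ σ (y - a k) with hP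
  obtain ⟨Θ1, c1, H1⟩ := env_one τ σ (J.filter P) a R fun k hk =>
    ⟨(h k (Finset.mem_filter.1 hk).1).1, (Finset.mem_filter.1 hk).2⟩
  obtain ⟨Θ2, c2, H2⟩ := env_one τ (-σ) (J.filter fun k => ¬ P k) a R fun k hk =>
    ⟨(h k (Finset.mem_filter.1 hk).1).1, fun y hy => by
      have := ((h k (Finset.mem_filter.1 hk).1).2.resolve_left (Finset.mem_filter.1 hk).2) y hy
      simpa using this⟩
  have hd : ∀ b : E, disc τ (-σ) b = disc τ σ b := fun b => by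
    ext y
    simp only [disc, mem_ofPred_eq, LinearMap.neg_apply, neg_sq]
  refine ⟨Θ1 ∪ Θ2, ?_, fun x hx hΘ => ?_⟩
  · have := Finset.card_union_le Θ1 Θ2
    have := Finset.card_filter_add_card_filter_not (s := J) P
    omega
  obtain ⟨J1, s1, k1, G1⟩ := H1 x hx fun e => hΘ (Finset.mem_union_left _ e)
  obtain ⟨J2, s2, k2, G2⟩ := H2 x hx fun e => hΘ (Finset.mem_union_right _ e)
  refine ⟨J1 ∪ J2, Finset.union_subset (s1.trans (Finset.filter_subset _ _))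
    (s2.trans (Finset.filter_subset _ _)), ?_, fun y hy hs k hk hy' => ?_⟩
  · have := Finset.card_union_le J1 J2
    omega
  by_cases hk' : P k
  · obtain ⟨k', m, e⟩ := G1 y hy (fun θ hθ => hs θ (Finset.mem_union_left _ hθ)) k
      (Finset.mem_filter.2 ⟨hk, hk'⟩) hy'
    exact ⟨k', Finset.mem_union_left _ m, e⟩
  · obtain ⟨k', m, e⟩ := G2 y hy (fun θ hθ => hs θ (Finset.mem_union_right _ hθ)) k
      (Finset.mem_filter.2 ⟨hk, hk'⟩) (hd _ ▸ hy')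
    exact ⟨k', Finset.mem_union_right _ m, hd _ ▸ e⟩

end Pool.Agent.Cyl
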