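import Pool.Agent.P.MP_8a0bcd_co.Mom

/-! Construction of the frames. -/

set_option autoImplicit false

namespace Pool.Agent.Cyl

open Set
open scoped Classical

theorem frame_dot (a b : E) : a ⬝ᵥ b = a 0 * b 0 + a 1 * b 1 + a 2 * b 2 := by
  simp [dotProduct, Fin.sum_univ_three]

/-- The cross product. -/
def frameX (a b : E) : E :=
  ![a 1 * b 2 - a 2 * b 1, a 2 * b 0 - a 0 * b 2, a 0 * b 1 - a 1 * b 0]

theorem frameX_dot (a b z : E) : frameX a b ⬝ᵥ z = (a 1 * b 2 - a 2 * b 1) * z 0 +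
    (a 2 * b 0 - a 0 * b 2) * z 1 + (a 0 * b 1 - a 1 * b 0) * z 2 := by
  rw [frame_dot]; simp [frameX]

/-- The functional `z ↦ v ⬝ᵥ z`. -/
def frameL (v : E) : Fn where
  toFun z := v ⬝ᵥ z
  map_add' := dotProduct_add v
  map_smul' c z := dotProduct_smul c v z

theorem frameL_apply (v z : E) : frameL v z = v ⬝ᵥ z := rfl

theorem frame_nonneg (v : E) : 0 ≤ v ⬝ᵥ v := by
  rw [frame_dot]; nlinarith [sq_nonneg (v 0), sq_nonneg (v 1), sq_nonneg (v 2)]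

theorem frame_pos {v : E} (h : v ≠ 0) : 0 < v ⬝ᵥ v := by
  rcases (frame_nonneg v).lt_or_eq with h1 | h1
  · exact h1
  · exact absurd (dotProduct_self_eq_zero.1 h1.symm) h

theorem frame_norm {v : E} (h : 0 < v ⬝ᵥ v) : ∃ s : ℝ, 0 < s ∧ s ^ 2 * (v ⬝ᵥ v) = 1 := by
  refine ⟨(√(v ⬝ᵥ v))⁻¹, inv_pos.2 (Real.sqrt_pos.2 h), ?_⟩
  rw [inv_pow, Real.sq_sqrt h.le, inv_mul_cancel₀ h.ne']

theorem frame_smul (s : ℝ) (v : E) : (s • v) ⬝ᵥ (s • v) = s ^ 2 * (v ⬝ᵥ v) := by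
  simp only [frame_dot, Pi.smul_apply, smul_eq_mul]; ring

theorem frame_lagrange (a b : E) :
    frameX a b ⬝ᵥ frameX a b = (a ⬝ᵥ a) * (b ⬝ᵥ b) - (a ⬝ᵥ b) ^ 2 := by
  rw [frameX_dot]; simp only [frame_dot, frameX]; simp; ring

theorem frame_cs (a b : E) : (a ⬝ᵥ b) ^ 2 ≤ (a ⬝ᵥ a) * (b ⬝ᵥ b) := by
  have := frame_nonneg (frameX a b)
  rw [frame_lagrange] at this
  linarith

theorem frame_gram (e w z : E) :
    (e ⬝ᵥ e) * (frameX e w ⬝ᵥ z) ^ 2 + ((e ⬝ᵥ e) * (w ⬝ᵥ z) - (e ⬝ᵥ w) * (e ⬝ᵥ z)) ^ 2 =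
      ((e ⬝ᵥ e) * (w ⬝ᵥ w) - (e ⬝ᵥ w) ^ 2) * ((e ⬝ᵥ e) * (z ⬝ᵥ z) - (e ⬝ᵥ z) ^ 2) := by
  rw [frameX_dot]; simp only [frame_dot]; ring

theorem frame_bessel {e m : E} (he : e ⬝ᵥ e = 1) (hm : m ⬝ᵥ m = 1) (h : e ⬝ᵥ m = 0) (z : E) :
    (m ⬝ᵥ z) ^ 2 ≤ z ⬝ᵥ z - (e ⬝ᵥ z) ^ 2 := by
  have h1 := frame_gram e m z
  rw [he, hm, h] at h1
  nlinarith [sq_nonneg (frameX e m ⬝ᵥ z)]

theorem frame_perp (e : E) : ∃ m : E, m ⬝ᵥ m = 1 ∧ e ⬝ᵥ m = 0 := by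
  by_cases h : (![-e 1, e 0, 0] : E) = 0
  · refine ⟨![1, 0, 0], by simp, ?_⟩
    have := congrFun h 1
    simp at this
    rw [frame_dot]
    simp [this]
  · obtain ⟨s, -, hs⟩ := frame_norm (frame_pos h)
    refine ⟨s • ![-e 1, e 0, 0], by rw [frame_smul, hs], ?_⟩
    rw [frame_dot]
    simp
    ring

theorem frame_par {w z : E} (hw : 0 < w ⬝ᵥ w) (h : frameX z w = 0) : ∃ t : ℝ, z = t • w := by
  have h0 := congrFun h 0
  have h1 := congrFun h 1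
  have h2 := congrFun h 2
  simp only [frameX, Matrix.cons_val_zero, Matrix.cons_val_one, Matrix.cons_val, Pi.zero_apply]
    at h0 h1 h2
  refine ⟨(z ⬝ᵥ w) / (w ⬝ᵥ w), ?_⟩
  have key : ∀ i, z i * (w ⬝ᵥ w) = (z ⬝ᵥ w) * w i := by
    intro i
    simp only [frame_dot]
    fin_cases i
    · simp only [Fin.zero_eta]; linear_combination w 1 * h2 - w 2 * h1
    · simp only [Fin.mk_one]; linear_combination w 2 * h0 - w 0 * h2
    · simp only [Fin.reduceFinMk]; linear_combination w 0 * h1 - w 1 * h0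
  funext i
  simp only [Pi.smul_apply, smul_eq_mul]
  field_simp
  linear_combination key i

theorem frame_two {a b w z : E} (hw : 0 < w ⬝ᵥ w) (hD : frameX a b ⬝ᵥ w ≠ 0)
    (ha : frameX a w ⬝ᵥ z = 0) (hb : frameX b w ⬝ᵥ z = 0) : ∃ t : ℝ, z = t • w := by
  refine frame_par hw ?_
  rw [frameX_dot] at hD ha hb
  funext i
  refine mul_left_cancel₀ hD ?_
  fin_cases i
  · simp only [frameX, Fin.zero_eta, Matrix.cons_val_zero, Pi.zero_apply]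
    linear_combination (a 1 * w 2 - a 2 * w 1) * hb - (b 1 * w 2 - b 2 * w 1) * ha
  · simp only [frameX, Fin.mk_one, Matrix.cons_val_one, Matrix.cons_val_zero, Pi.zero_apply]
    linear_combination (a 2 * w 0 - a 0 * w 2) * hb - (b 2 * w 0 - b 0 * w 2) * ha
  · simp only [frameX, Fin.reduceFinMk, Matrix.cons_val, Pi.zero_apply]
    linear_combination (a 0 * w 1 - a 1 * w 0) * hb - (b 0 * w 1 - b 1 * w 0) * ha

/-- The length of the projection of `w` along `e`. -/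
noncomputable def frameR (e w : E) : ℝ := √(w ⬝ᵥ w - (e ⬝ᵥ w) ^ 2)

/-- The unit vector orthogonal to `e` and `w`. -/
noncomputable def frameN (e w : E) : E := (frameR e w)⁻¹ • frameX e w

/-- The unit vector along the projection of `w`. -/
noncomputable def frameM (e w : E) : E := (frameR e w)⁻¹ • (w - (e ⬝ᵥ w) • e)

theorem frameN_dot (e w z : E) : frameN e w ⬝ᵥ z = (frameR e w)⁻¹ * (frameX e w ⬝ᵥ z) := by
  rw [frameN, smul_dotProduct, smul_eq_mul]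

theorem frameM_dot (e w z : E) :
    frameM e w ⬝ᵥ z = (frameR e w)⁻¹ * (w ⬝ᵥ z - (e ⬝ᵥ w) * (e ⬝ᵥ z)) := by
  rw [frameM, smul_dotProduct, smul_eq_mul, sub_dotProduct, smul_dotProduct, smul_eq_mul]

theorem frameR_pos {e w : E} (h : 0 < w ⬝ᵥ w - (e ⬝ᵥ w) ^ 2) : 0 < frameR e w :=
  Real.sqrt_pos.2 h

theorem frameR_sq {e w : E} (h : 0 < w ⬝ᵥ w - (e ⬝ᵥ w) ^ 2) :
    frameR e w ^ 2 = w ⬝ᵥ w - (e ⬝ᵥ w) ^ 2 := Real.sq_sqrt h.le

theorem frame_form {e w : E} (he : e ⬝ᵥ e = 1) (h : 0 < w ⬝ᵥ w - (e ⬝ᵥ w) ^ 2) (z : E) :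
    (frameN e w ⬝ᵥ z) ^ 2 + (frameM e w ⬝ᵥ z) ^ 2 = z ⬝ᵥ z - (e ⬝ᵥ z) ^ 2 := by
  have h1 := frame_gram e w z
  have h2 := frameR_sq h
  have h3 := (frameR_pos h).ne'
  rw [he] at h1
  rw [frameN_dot, frameM_dot]
  field_simp
  rw [h2]
  linear_combination h1

theorem frameN_e (e w : E) : frameN e w ⬝ᵥ e = 0 := by
  rw [frameN_dot, frameX_dot]; ring

theorem frameN_w (e w : E) : frameN e w ⬝ᵥ w = 0 := by
  rw [frameN_dot, frameX_dot]; ring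

theorem frameM_e {e : E} (he : e ⬝ᵥ e = 1) (w : E) : frameM e w ⬝ᵥ e = 0 := by
  rw [frameM_dot, he, dotProduct_comm w e]; ring

theorem frameN_N {e w : E} (he : e ⬝ᵥ e = 1) (h : 0 < w ⬝ᵥ w - (e ⬝ᵥ w) ^ 2) :
    frameN e w ⬝ᵥ frameN e w = 1 := by
  have h2 := frameR_sq h
  have h3 := (frameR_pos h).ne'
  rw [frameN, frame_smul, frame_lagrange, he, one_mul, ← h2]
  field_simp

theorem frameM_N (e w : E) : frameM e w ⬝ᵥ frameN e w = 0 := by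
  rw [frameM_dot, dotProduct_comm w (frameN e w), dotProduct_comm e (frameN e w), frameN_e,
    frameN_w]
  ring

theorem frameM_M {e w : E} (he : e ⬝ᵥ e = 1) (h : 0 < w ⬝ᵥ w - (e ⬝ᵥ w) ^ 2) :
    frameM e w ⬝ᵥ frameM e w = 1 := by
  have h2 := frameR_sq h
  have h3 := (frameR_pos h).ne'
  rw [frameM_dot, dotProduct_comm w (frameM e w), dotProduct_comm e (frameM e w), frameM_e he,
    frameM_dot]
  field_simp
  rw [h2]
  ring

/-- A unit vector sees the projection along `e` only up to its length. -/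
theorem frame_proj {e w : E} (he : e ⬝ᵥ e = 1) (h : 0 < w ⬝ᵥ w - (e ⬝ᵥ w) ^ 2) {v : E}
    (hv : v ⬝ᵥ v = 1) (z : E) :
    |v ⬝ᵥ z - (v ⬝ᵥ e) * (e ⬝ᵥ z)| ≤ |frameN e w ⬝ᵥ z| + |frameM e w ⬝ᵥ z| := by
  have h1 := frame_cs v (z - (e ⬝ᵥ z) • e)
  have h2 : (z - (e ⬝ᵥ z) • e) ⬝ᵥ (z - (e ⬝ᵥ z) • e) = z ⬝ᵥ z - (e ⬝ᵥ z) ^ 2 := by
    simp only [sub_dotProduct, dotProduct_sub, smul_dotProduct, dotProduct_smul, smul_eq_mul, he,
      dotProduct_comm z e]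
    ring
  have h3 : v ⬝ᵥ (z - (e ⬝ᵥ z) • e) = v ⬝ᵥ z - (v ⬝ᵥ e) * (e ⬝ᵥ z) := by
    simp only [dotProduct_sub, dotProduct_smul, smul_eq_mul]
    ring
  rw [h2, h3, hv, one_mul, ← frame_form he h z] at h1
  refine abs_le_of_sq_le_sq' ?_ (by positivity) |> abs_le.2
  have := mul_nonneg (abs_nonneg (frameN e w ⬝ᵥ z)) (abs_nonneg (frameM e w ⬝ᵥ z))
  nlinarith [sq_abs (frameN e w ⬝ᵥ z), sq_abs (frameM e w ⬝ᵥ z)]

theorem frame_cyl {d : E} {s r : ℝ} (hs : s ^ 2 * (d ⬝ᵥ d) = 1) (a x : E) :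
    x ∈ cyl a d r ↔ (x - a) ⬝ᵥ (x - a) - ((s • d) ⬝ᵥ (x - a)) ^ 2 ≤ r ^ 2 := by
  have key : ∀ t : ℝ, ∑ i, (x i - (a i + t * d i)) ^ 2 =
      (x - a) ⬝ᵥ (x - a) - 2 * t * (d ⬝ᵥ (x - a)) + t ^ 2 * (d ⬝ᵥ d) := by
    intro t
    simp only [Fin.sum_univ_three, frame_dot, Pi.sub_apply]
    ring
  simp only [cyl, mem_ofPred_eq, key, smul_dotProduct, smul_eq_mul]
  generalize (x - a) ⬝ᵥ (x - a) = A
  generalize d ⬝ᵥ (x - a) = B
  have hd := frame_nonneg d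
  generalize d ⬝ᵥ d = D at hs hd
  constructor
  · rintro ⟨t, ht⟩
    have h1 : D * (t - s ^ 2 * B) ^ 2 = t ^ 2 * D - 2 * t * B + (s * B) ^ 2 := by
      linear_combination (-2 * t * B + s ^ 2 * B ^ 2) * hs
    nlinarith [mul_nonneg hd (sq_nonneg (t - s ^ 2 * B))]
  · intro h
    refine ⟨s ^ 2 * B, ?_⟩
    have h1 : (s ^ 2 * B) ^ 2 * D = (s * B) ^ 2 := by
      linear_combination (s ^ 2 * B ^ 2) * hs
    nlinarith

/-- The requirements on an auxiliary direction. -/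
def frameOk {m : ℕ} (e : Fin m → E) (θ : ℝ) (w : E) : Prop :=
  (∀ i, θ ^ 2 * (w ⬝ᵥ w) ≤ w ⬝ᵥ w - (e i ⬝ᵥ w) ^ 2) ∧
    ∀ i j, i ≠ j → θ ^ 2 * (w ⬝ᵥ w) * (1 - (e i ⬝ᵥ e j) ^ 2) ≤ (frameX (e i) (e j) ⬝ᵥ w) ^ 2

theorem frame_mom_pos (j : ℕ) : 0 < mom j ⬝ᵥ mom j := by
  refine frame_pos fun h => ?_
  have := congrFun h 0
  simp [mom] at this

theorem frame_choose (c : ℕ) : ∃ (N : ℕ) (θ : ℝ), 0 < θ ∧ θ ≤ 1 ∧
    ∀ (m : ℕ) (e : Fin m → E), m ≤ c → (∀ i, e i ⬝ᵥ e i = 1) →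
      (∀ i j, i ≠ j → 0 < 1 - (e i ⬝ᵥ e j) ^ 2) → ∀ u : Fin m → E, (∀ i, u i ⬝ᵥ u i = 1) →
        ∃ j : Fin N, frameOk e θ (mom j) ∧
          ∀ i, θ ^ 2 * (mom j ⬝ᵥ mom j) ≤ (u i ⬝ᵥ mom j) ^ 2 := by
  obtain ⟨θ, hθ, H⟩ := exists_mom (c + c * c)
  refine ⟨2 * (c + c * c) + 1, min θ 1, lt_min hθ one_pos, min_le_right _ _, ?_⟩
  intro m e hm he hne u hu
  have hv : ∀ p : Fin m × Fin m, ∃ v : E, v ⬝ᵥ v = 1 ∧ (p.1 = p.2 → e p.1 ⬝ᵥ v = 0) ∧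
      (p.1 ≠ p.2 → ∀ w, (1 - (e p.1 ⬝ᵥ e p.2) ^ 2) * (v ⬝ᵥ w) ^ 2 =
        (frameX (e p.1) (e p.2) ⬝ᵥ w) ^ 2) := by
    rintro ⟨i, j⟩
    by_cases hij : i = j
    · obtain ⟨v, h1, h2⟩ := frame_perp (e i)
      exact ⟨v, h1, fun _ => h2, fun h => absurd hij h⟩
    · have h1 : frameX (e i) (e j) ⬝ᵥ frameX (e i) (e j) = 1 - (e i ⬝ᵥ e j) ^ 2 := by
        rw [frame_lagrange, he, he, one_mul]
      obtain ⟨s, -, hs⟩ := frame_norm (h1 ▸ hne i j hij : 0 < frameX (e i) (e j) ⬝ᵥ _)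
      refine ⟨s • frameX (e i) (e j), by rw [frame_smul, hs], fun h => absurd h hij,
        fun _ w => ?_⟩
      rw [h1] at hs
      rw [smul_dotProduct, smul_eq_mul]
      linear_combination (frameX (e i) (e j) ⬝ᵥ w) ^ 2 * hs
  choose v v1 v2 v3 using hv
  obtain ⟨j, hj⟩ := H (Fin m ⊕ Fin m × Fin m) (Sum.elim u v)
    (by simpa using add_le_add hm (Nat.mul_le_mul hm hm)) (by rintro (i | p) <;> simp [hu, v1])
  have hle : min θ 1 ^ 2 * (mom j ⬝ᵥ mom j) ≤ θ ^ 2 * (mom j ⬝ᵥ mom j) :=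
    mul_le_mul_of_nonneg_right
      (pow_le_pow_left₀ (lt_min hθ one_pos).le (min_le_left _ _) 2) (frame_nonneg _)
  refine ⟨j, ⟨fun i => ?_, fun i i' h => ?_⟩, fun i => hle.trans (hj (Sum.inl i))⟩
  · exact (hle.trans (hj (Sum.inr (i, i)))).trans
      (frame_bessel (he i) (v1 (i, i)) (v2 (i, i) rfl) _)
  · have h1 := hle.trans (hj (Sum.inr (i, i')))
    rw [← v3 (i, i') h, mul_comm]
    exact mul_le_mul_of_nonneg_left h1 (hne i i' h).le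

theorem frame_slope {a b w : E} {θ : ℝ} (hθ : 0 < θ) (ha : a ⬝ᵥ a = 1) (hb : b ⬝ᵥ b = 1)
    (hw : 0 < w ⬝ᵥ w - (b ⬝ᵥ w) ^ 2)
    (h : θ ^ 2 * (w ⬝ᵥ w) * (1 - (a ⬝ᵥ b) ^ 2) ≤ (frameX a b ⬝ᵥ w) ^ 2) :
    θ * |frameM b w ⬝ᵥ a| ≤ |frameN b w ⬝ᵥ a| := by
  have h1 := frame_form hb hw a
  have h2 := frameR_sq hw
  have h3 := frameR_pos hw
  have h4 : (frameN b w ⬝ᵥ a) ^ 2 * frameR b w ^ 2 = (frameX a b ⬝ᵥ w) ^ 2 := by
    rw [frameN_dot]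
    field_simp
    rw [frameX_dot, frameX_dot]
    ring
  rw [ha, dotProduct_comm b a] at h1
  have h5 : (frameM b w ⬝ᵥ a) ^ 2 ≤ 1 - (a ⬝ᵥ b) ^ 2 := by
    nlinarith [sq_nonneg (frameN b w ⬝ᵥ a)]
  have h6 : frameR b w ^ 2 ≤ w ⬝ᵥ w := by nlinarith [sq_nonneg (b ⬝ᵥ w)]
  have h7 : (θ * (frameM b w ⬝ᵥ a)) ^ 2 * frameR b w ^ 2 ≤
      (frameN b w ⬝ᵥ a) ^ 2 * frameR b w ^ 2 := by
    rw [h4]
    refine le_trans ?_ h
    have := mul_le_mul h6 h5 (sq_nonneg _) (frame_nonneg w)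
    nlinarith [mul_le_mul_of_nonneg_left this (sq_nonneg θ)]
  have h8 := le_of_mul_le_mul_right h7 (pow_pos h3 2)
  have h9 := sq_le_sq.1 h8
  rwa [abs_mul, abs_of_pos hθ] at h9

/-- The frames attached to unit directions `e` and admissible auxiliary directions `w`. -/
noncomputable def frameGeo {m : ℕ} {W : Type} (e : Fin m → E) (w : W → E) {θ r : ℝ} (hθ : 0 < θ)
    (hr : 0 < r) (he : ∀ i, e i ⬝ᵥ e i = 1) (hne : ∀ i j, i ≠ j → 0 < 1 - (e i ⬝ᵥ e j) ^ 2)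
    (hw : ∀ k, 0 < w k ⬝ᵥ w k) (ok : ∀ k, frameOk e θ (w k))
    (pk : ∀ u : Fin m → E, (∀ i, u i ⬝ᵥ u i = 1) →
      ∃ k, ∀ i, θ ^ 2 * (w k ⬝ᵥ w k) ≤ (u i ⬝ᵥ w k) ^ 2) : Geo (Fin m) W (θ⁻¹ + 1) θ :=
  have hρ : ∀ k i, 0 < w k ⬝ᵥ w k - (e i ⬝ᵥ w k) ^ 2 := fun k i =>
    (mul_pos (pow_pos hθ 2) (hw k)).trans_le ((ok k).1 i)
  have hD : ∀ k i j, i ≠ j → frameX (e i) (e j) ⬝ᵥ w k ≠ 0 := fun k i j h h0 => by
    have h1 := (ok k).2 i j h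
    have h2 := mul_pos (mul_pos (pow_pos hθ 2) (hw k)) (hne i j h)
    rw [h0] at h1
    linarith
  have hz : ∀ k i z, r⁻¹ * (frameN (e i) (w k) ⬝ᵥ z) = 0 → frameX (e i) (w k) ⬝ᵥ z = 0 :=
    fun k i z h => by
      rw [frameN_dot] at h
      simpa [hr.ne', (frameR_pos (hρ k i)).ne'] using h
  have hpr : ∀ k i v z, v ⬝ᵥ v = 1 → |r⁻¹ * (v ⬝ᵥ z) - r⁻¹ * (v ⬝ᵥ e i) * (e i ⬝ᵥ z)| ≤
      |r⁻¹ * (frameN (e i) (w k) ⬝ᵥ z)| + |r⁻¹ * (frameM (e i) (w k) ⬝ᵥ z)| :=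
    fun k i v z hv => by
      rw [mul_assoc, ← mul_sub, abs_mul, abs_mul, abs_mul, ← mul_add]
      exact mul_le_mul_of_nonneg_left (frame_proj (he i) (hρ k i) hv z) (abs_nonneg _)
  { τ := fun k i => r⁻¹ • frameL (frameN (e i) (w k))
    σ := fun k i => r⁻¹ • frameL (frameM (e i) (w k))
    Q := fun i z => (z ⬝ᵥ z - (e i ⬝ᵥ z) ^ 2) / r ^ 2
    form := fun k i z => by
      simp only [LinearMap.smul_apply, frameL_apply, smul_eq_mul]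
      rw [← frame_form (he i) (hρ k i) z]
      field_simp
    onto := fun k i s t => by
      refine ⟨(r * s) • frameN (e i) (w k) + (r * t) • frameM (e i) (w k), ?_, ?_⟩
      · simp only [LinearMap.smul_apply, frameL_apply, smul_eq_mul, dotProduct_add,
          dotProduct_smul, frameN_N (he i) (hρ k i),
          dotProduct_comm (frameN (e i) (w k)) (frameM (e i) (w k)), frameM_N]
        field_simp
        ring
      · simp only [LinearMap.smul_apply, frameL_apply, smul_eq_mul, dotProduct_add,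
          dotProduct_smul, frameM_M (he i) (hρ k i), frameM_N]
        field_simp
        ring
    ker := fun k i j z hij h1 h2 l => by
      simp only [LinearMap.smul_apply, frameL_apply, smul_eq_mul] at h1 h2 ⊢
      obtain ⟨t, rfl⟩ := frame_two (hw k) (hD k i j hij) (hz k i z h1) (hz k j z h2)
      rw [dotProduct_smul, frameN_w]
      simp
    line := fun k i j z hij h1 h2 l => by
      simp only [LinearMap.smul_apply, frameL_apply, smul_eq_mul] at h1 h2 ⊢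
      obtain ⟨t, rfl⟩ := frame_two (hw k) (hD k i j hij) (hz k i z h1) (hz k j z h2)
      rw [← mul_div_assoc]
      refine div_le_div_of_nonneg_right ?_ (sq_nonneg r)
      rw [frame_smul, dotProduct_smul, dotProduct_smul, smul_eq_mul, smul_eq_mul]
      have a1 := (ok k).1 i
      have a2 : 1 ≤ (θ⁻¹ + 1) ^ 2 * θ ^ 2 := by
        have : (θ⁻¹ + 1) * θ = 1 + θ := by field_simp
        rw [← mul_pow, this]
        nlinarith
      have a3 := mul_le_mul_of_nonneg_left a1 (sq_nonneg (θ⁻¹ + 1))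
      have a4 := mul_le_mul_of_nonneg_right a2 (hw k).le
      have a5 : w k ⬝ᵥ w k ≤ (θ⁻¹ + 1) ^ 2 * (w k ⬝ᵥ w k - (e i ⬝ᵥ w k) ^ 2) := by nlinarith
      nlinarith [mul_le_mul_of_nonneg_left a5 (sq_nonneg t), sq_nonneg (t * (e l ⬝ᵥ w k))]
    slope := fun k i j z hij => by
      simp only [LinearMap.smul_apply, frameL_apply, smul_eq_mul]
      have a1 := hpr k i _ z (frameN_N (he j) (hρ k j))
      have a2 := hpr k i _ z (frameM_M (he j) (hρ k j))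
      have a3 := frame_slope hθ (he i) (he j) (hρ k j) ((ok k).2 i j hij)
      have a4 : θ * |r⁻¹ * (frameM (e j) (w k) ⬝ᵥ e i) * (e i ⬝ᵥ z)| ≤
          |r⁻¹ * (frameN (e j) (w k) ⬝ᵥ e i) * (e i ⬝ᵥ z)| := by
        simp only [abs_mul]
        have := mul_le_mul_of_nonneg_left a3 (mul_nonneg (abs_nonneg r⁻¹) (abs_nonneg (e i ⬝ᵥ z)))
        nlinarith
      generalize |r⁻¹ * (frameN (e i) (w k) ⬝ᵥ z)| = A at a1 a2 ⊢
      generalize |r⁻¹ * (frameM (e i) (w k) ⬝ᵥ z)| = B at a1 a2 ⊢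
      generalize r⁻¹ * (frameN (e j) (w k) ⬝ᵥ z) = p at a1 ⊢
      generalize r⁻¹ * (frameM (e j) (w k) ⬝ᵥ z) = q at a2 ⊢
      generalize r⁻¹ * (frameN (e j) (w k) ⬝ᵥ e i) * (e i ⬝ᵥ z) = p' at a1 a4
      generalize r⁻¹ * (frameM (e j) (w k) ⬝ᵥ e i) * (e i ⬝ᵥ z) = q' at a2 a4
      have b1 : |q| ≤ |q'| + (A + B) := by linarith [abs_sub_abs_le_abs_sub q q']
      have b2 : |p'| ≤ |p| + (A + B) := by
        linarith [abs_sub_abs_le_abs_sub p' p, abs_sub_comm p p']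
      have b3 : |q'| ≤ θ⁻¹ * (|p| + A + B) := by
        rw [le_inv_mul_iff₀ hθ]
        linarith
      nlinarith [abs_nonneg p]
    axis := fun k i => by
      refine ⟨frameL (e i), fun j hij => ⟨r⁻¹ * (frameN (e j) (w k) ⬝ᵥ e i), fun h => ?_,
        fun z => hpr k i _ z (frameN_N (he j) (hρ k j))⟩⟩
      have h1 := hz k j _ h
      apply hD k i j hij
      rw [frameX_dot] at h1 ⊢
      linear_combination h1
    pick := fun z hq => by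
      have hq' : ∀ i, z i ⬝ᵥ z i - (e i ⬝ᵥ z i) ^ 2 = r ^ 2 := fun i => by
        have := hq i
        field_simp at this
        exact this
      obtain ⟨k, hk⟩ := pk (fun i => r⁻¹ • (z i - (e i ⬝ᵥ z i) • e i)) fun i => by
        rw [frame_smul]
        simp only [sub_dotProduct, dotProduct_sub, smul_dotProduct, dotProduct_smul, smul_eq_mul,
          he i, dotProduct_comm (z i) (e i)]
        field_simp
        linear_combination hq' i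
      refine ⟨k, fun i => ?_⟩
      have a1 := hk i
      have a2 := frameR_sq (hρ k i)
      have a3 := frameR_pos (hρ k i)
      simp only [LinearMap.smul_apply, frameL_apply, smul_eq_mul, frameM_dot]
      simp only [smul_dotProduct, sub_dotProduct, smul_eq_mul, dotProduct_comm (z i) (w k)] at a1
      refine le_trans (le_abs_self θ) (sq_le_sq.1 ?_)
      refine le_of_mul_le_mul_right ?_ (pow_pos a3 2)
      have a4 : (r⁻¹ * ((frameR (e i) (w k))⁻¹ *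
          (w k ⬝ᵥ z i - (e i ⬝ᵥ w k) * (e i ⬝ᵥ z i)))) ^ 2 * frameR (e i) (w k) ^ 2 =
          (r⁻¹ * (w k ⬝ᵥ z i - (e i ⬝ᵥ z i) * (e i ⬝ᵥ w k))) ^ 2 := by
        field_simp
      rw [a4, a2]
      nlinarith [mul_nonneg (sq_nonneg θ) (sq_nonneg (e i ⬝ᵥ w k))] }

theorem frameGeo_Q {m : ℕ} {W : Type} (e : Fin m → E) (w : W → E) {θ r : ℝ} (hθ : 0 < θ)
    (hr : 0 < r) (he : ∀ i, e i ⬝ᵥ e i = 1) (hne : ∀ i j, i ≠ j → 0 < 1 - (e i ⬝ᵥ e j) ^ 2)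
    (hw : ∀ k, 0 < w k ⬝ᵥ w k) (ok : ∀ k, frameOk e θ (w k))
    (pk : ∀ u : Fin m → E, (∀ i, u i ⬝ᵥ u i = 1) →
      ∃ k, ∀ i, θ ^ 2 * (w k ⬝ᵥ w k) ≤ (u i ⬝ᵥ w k) ^ 2) (i : Fin m) (z : E) :
    (frameGeo e w hθ hr he hne hw ok pk).Q i z = (z ⬝ᵥ z - (e i ⬝ᵥ z) ^ 2) / r ^ 2 := rfl

theorem exists_geo (c : ℕ) : ∃ (N : ℕ) (l θ : ℝ), 0 ≤ l ∧ 0 < θ ∧ θ ≤ 1 ∧
    ∀ (m : ℕ) (dir : Fin m → E) (r : ℝ), m ≤ c → 0 < r → (∀ i, dir i ≠ 0) →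
      (∀ i j, i ≠ j → ∀ t : ℝ, dir i ≠ t • dir j) →
      ∃ (W : Finset (Fin N)) (G : Geo (Fin m) W l θ), W.Nonempty ∧
        ∀ i a x, x ∈ cyl a (dir i) r ↔ G.Q i (x - a) ≤ 1 := by
  obtain ⟨N, θ, hθ, hθ1, H⟩ := frame_choose c
  refine ⟨N, θ⁻¹ + 1, θ, by positivity, hθ, hθ1, fun m dir r hm hr hd hp => ?_⟩
  choose s s0 hs using fun i => frame_norm (frame_pos (hd i))
  have he : ∀ i, (s i • dir i) ⬝ᵥ (s i • dir i) = 1 := fun i => by rw [frame_smul, hs]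
  have hne : ∀ i j, i ≠ j → 0 < 1 - ((s i • dir i) ⬝ᵥ (s j • dir j)) ^ 2 := by
    intro i j hij
    have h1 := frame_lagrange (s i • dir i) (s j • dir j)
    rw [he, he, one_mul] at h1
    rw [← h1]
    refine frame_pos fun h => ?_
    obtain ⟨t, ht⟩ := frame_par (by rw [he]; exact one_pos) h
    refine hp i j hij ((s i)⁻¹ * (t * s j)) ?_
    rw [mul_smul, mul_smul, ← ht, smul_smul, inv_mul_cancel₀ (s0 i).ne', one_smul]
  have hc : ∀ i a x, x ∈ cyl a (dir i) r ↔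
      (x - a) ⬝ᵥ (x - a) - ((s i • dir i) ⬝ᵥ (x - a)) ^ 2 ≤ r ^ 2 := fun i => frame_cyl (hs i)
  obtain ⟨e, hee⟩ : ∃ e : Fin m → E, ∀ i, s i • dir i = e i := ⟨_, fun _ => rfl⟩
  simp only [hee] at he hne hc
  have H' := H m e hm he hne
  obtain ⟨W, hW⟩ : ∃ W : Finset (Fin N), ∀ j, j ∈ W ↔ frameOk e θ (mom j) :=
    ⟨Finset.univ.filter fun j => frameOk e θ (mom j), fun j => by simp⟩
  have pk : ∀ u : Fin m → E, (∀ i, u i ⬝ᵥ u i = 1) → ∃ k : W, ∀ i,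
      θ ^ 2 * (mom k.1 ⬝ᵥ mom k.1) ≤ (u i ⬝ᵥ mom k.1) ^ 2 := fun u hu => by
    obtain ⟨j, h1, h2⟩ := H' u hu
    exact ⟨⟨j, (hW j).2 h1⟩, h2⟩
  refine ⟨W, frameGeo e (fun k : W => mom k.1) hθ hr he hne (fun k => frame_mom_pos _)
    (fun k => (hW k.1).1 k.2) pk, ?_, fun i a x => ?_⟩
  · obtain ⟨j, h1, -⟩ := H' _ he
    exact ⟨j, (hW j).2 h1⟩
  · rw [hc, frameGeo_Q, div_le_one (pow_pos hr 2)]

end Pool.Agent.Cyl
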