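import Pool.Agent.P.MP_8a0bcd_co.St

/-! Cutting a small square until all relevant circles are almost parallel. -/

set_option autoImplicit false

namespace Pool.Agent.Cyl

open Set
open scoped Classical

theorem cut_graph (Z : Set (ℝ × ℝ)) (h : ∀ p ∈ Z, ∀ q ∈ Z, |p.2 - q.2| ≤ |p.1 - q.1| / 2) :
    ∃ φ : ℝ → ℝ, LipschitzWith (1 / 2) φ ∧ ∀ p ∈ Z, φ p.1 = p.2 := by
  have h1 : ∀ s ∈ Prod.fst '' Z, ∃ t, (s, t) ∈ Z := by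
    rintro _ ⟨p, hp, rfl⟩
    exact ⟨p.2, hp⟩
  choose! f hf using h1
  have h2 : LipschitzOnWith (1 / 2) f (Prod.fst '' Z) := by
    refine LipschitzOnWith.of_dist_le_mul fun s hs s' hs' => ?_
    have := h _ (hf s hs) _ (hf s' hs')
    simp only [Real.dist_eq]
    push_cast
    linarith
  obtain ⟨φ, a, b⟩ := h2.extend_real
  refine ⟨φ, a, fun p hp => ?_⟩
  have hp' : p.1 ∈ Prod.fst '' Z := mem_image_of_mem _ hp
  have := h _ (hf _ hp') _ hp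
  simp only [sub_self, abs_zero, zero_div, abs_nonpos_iff, sub_eq_zero] at this
  rw [← b hp', this]

/-- An almost horizontal set and an almost vertical set are separated by two diagonals. -/
theorem sep (Z Z' : Set (ℝ × ℝ)) (h : ∀ p ∈ Z, ∀ q ∈ Z, |p.2 - q.2| ≤ |p.1 - q.1| / 2)
    (h' : ∀ p ∈ Z', ∀ q ∈ Z', |p.1 - q.1| ≤ |p.2 - q.2| / 2) :
    ∃ o : ℝ × ℝ, (∀ p ∈ Z, |p.2 - o.2| ≤ |p.1 - o.1|) ∧ ∀ p ∈ Z', |p.1 - o.1| ≤ |p.2 - o.2| := by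
  obtain ⟨φ, hφ, hφ'⟩ := cut_graph Z h
  obtain ⟨ψ, hψ, hψ'⟩ := cut_graph (Prod.swap '' Z') (by
    rintro _ ⟨p, hp, rfl⟩ _ ⟨q, hq, rfl⟩
    exact h' p hp q hq)
  have hc : ContractingWith (1 / 2 * (1 / 2)) (ψ ∘ φ) := ⟨by norm_num, hψ.comp hφ⟩
  have hfix : ψ (φ hc.fixedPoint) = hc.fixedPoint := hc.fixedPoint_isFixedPt
  refine ⟨(hc.fixedPoint, φ hc.fixedPoint), fun p hp => ?_, fun p hp => ?_⟩
  · have := hφ.dist_le_mul p.1 hc.fixedPoint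
    rw [hφ' p hp, Real.dist_eq, Real.dist_eq] at this
    push_cast at this
    linarith [abs_nonneg (p.1 - hc.fixedPoint)]
  · have := hψ.dist_le_mul p.2 (φ hc.fixedPoint)
    have e : ψ p.2 = p.1 := hψ' _ (mem_image_of_mem _ hp)
    rw [hfix, e, Real.dist_eq, Real.dist_eq] at this
    push_cast at this
    linarith [abs_nonneg (p.2 - φ hc.fixedPoint)]

theorem cut_sign {R : Set E} (hR : Convex ℝ R) (l : Fn) {t : ℝ} (h : ∀ y ∈ R, l y ≠ t) {y y' : E}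
    (hy : y ∈ R) (hy' : y' ∈ R) : 0 < (l y - t) * (l y' - t) := by
  have hc := (hR.linear_image l).ordConnected
  have key : ∀ u ∈ R, ∀ v ∈ R, l u < t → ¬ t < l v := fun u hu v hv a b => by
    obtain ⟨w, hw, e⟩ := hc.out (mem_image_of_mem _ hu) (mem_image_of_mem _ hv) ⟨a.le, b.le⟩
    exact h w hw e
  rcases (h y hy).lt_or_gt with a | a <;> rcases (h y' hy').lt_or_gt with b | b
  · exact mul_pos_of_neg_of_neg (by linarith) (by linarith)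
  · exact absurd b (key y hy y' hy' a)
  · exact absurd a (key y' hy' y hy b)
  · exact mul_pos (by linarith) (by linarith)

theorem cut_cramer {n₁ n₂ m₁ m₂ x y δ : ℝ} (h1 : |n₁| ≤ 2) (h2 : |n₂| ≤ 2)
    (h3 : |m₁| ≤ 2) (h4 : |m₂| ≤ 2) (hd : 24 * δ ≤ |n₁ * m₂ - n₂ * m₁|)
    (h : |n₁ * x + n₂ * y| ≤ 2 * δ * (|x| + |y|)) :
    |n₁ * x + n₂ * y| ≤ |m₁ * x + m₂ * y| / 2 := by
  obtain ⟨B, hB⟩ : ∃ B, B = n₁ * x + n₂ * y := ⟨_, rfl⟩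
  obtain ⟨A, hA⟩ : ∃ A, A = m₁ * x + m₂ * y := ⟨_, rfl⟩
  have e1 : (n₁ * m₂ - n₂ * m₁) * x = m₂ * B - n₂ * A := by rw [hA, hB]; ring
  have e2 : (n₁ * m₂ - n₂ * m₁) * y = n₁ * A - m₁ * B := by rw [hA, hB]; ring
  rw [← hB] at h ⊢
  rw [← hA]
  have a1 : 24 * δ * |x| ≤ 2 * |B| + 2 * |A| := by
    refine (mul_le_mul_of_nonneg_right hd (abs_nonneg x)).trans ?_
    rw [← abs_mul, e1]
    refine (abs_sub _ _).trans ?_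
    rw [abs_mul, abs_mul]
    exact add_le_add (mul_le_mul_of_nonneg_right h4 (abs_nonneg _))
      (mul_le_mul_of_nonneg_right h2 (abs_nonneg _))
  have a2 : 24 * δ * |y| ≤ 2 * |A| + 2 * |B| := by
    refine (mul_le_mul_of_nonneg_right hd (abs_nonneg y)).trans ?_
    rw [← abs_mul, e2]
    refine (abs_sub _ _).trans ?_
    rw [abs_mul, abs_mul]
    exact add_le_add (mul_le_mul_of_nonneg_right h1 (abs_nonneg _))
      (mul_le_mul_of_nonneg_right h3 (abs_nonneg _))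
  linarith

theorem cut_onto_ne {α β : Fn} (h : Onto α β) : α ≠ 0 := by
  obtain ⟨z, hz, -⟩ := h 1 0
  intro e
  rw [e] at hz
  exact zero_ne_one hz

/-- Two almost straight sets with different normals are separated by two cuts. -/
theorem cut_pair {α β : Fn} (ho : Onto α β) {δ : ℝ} (hδ : 0 < δ) (Z Z' : Set E) (n₁ n₂ m₁ m₂ : ℝ)
    (h : ∀ y ∈ Z, ∀ y' ∈ Z,
      |n₁ * α (y - y') + n₂ * β (y - y')| ≤ 2 * δ * (|α (y - y')| + |β (y - y')|))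
    (h' : ∀ y ∈ Z', ∀ y' ∈ Z',
      |m₁ * α (y - y') + m₂ * β (y - y')| ≤ 2 * δ * (|α (y - y')| + |β (y - y')|)) :
    ∃ (l : Bool → Fn) (t : Bool → ℝ), (∀ j, l j ≠ 0) ∧ ∀ R : Set E, Convex ℝ R →
      (∀ j, ∀ y ∈ R, l j y ≠ t j) → (Z ∩ R).Nonempty → (Z' ∩ R).Nonempty → |n₁| ≤ 2 → |n₂| ≤ 2 →
        |m₁| ≤ 2 → |m₂| ≤ 2 → |n₁ * m₂ - n₂ * m₁| < 24 * δ := by
  by_cases hc : |n₁| ≤ 2 ∧ |n₂| ≤ 2 ∧ |m₁| ≤ 2 ∧ |m₂| ≤ 2 ∧ 24 * δ ≤ |n₁ * m₂ - n₂ * m₁|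
  swap
  · refine ⟨fun _ => α, fun _ => 0, fun _ => cut_onto_ne ho, fun R _ _ _ _ h1 h2 h3 h4 => ?_⟩
    exact not_le.1 fun h5 => hc ⟨h1, h2, h3, h4, h5⟩
  obtain ⟨h1, h2, h3, h4, h5⟩ := hc
  obtain ⟨A, hA⟩ : ∃ A : Fn, ∀ y, A y = m₁ * α y + m₂ * β y :=
    ⟨m₁ • α + m₂ • β, fun y => by simp⟩
  obtain ⟨B, hB⟩ : ∃ B : Fn, ∀ y, B y = n₁ * α y + n₂ * β y :=
    ⟨n₁ • α + n₂ • β, fun y => by simp⟩
  obtain ⟨o, ho1, ho2⟩ := sep ((fun y => (A y, B y)) '' Z) ((fun y => (A y, B y)) '' Z') (by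
    rintro _ ⟨y, hy, rfl⟩ _ ⟨y', hy', rfl⟩
    simp only [← map_sub]
    rw [hA, hB]
    exact cut_cramer h1 h2 h3 h4 h5 (h y hy y' hy')) (by
    rintro _ ⟨y, hy, rfl⟩ _ ⟨y', hy', rfl⟩
    simp only [← map_sub]
    rw [hA, hB]
    refine cut_cramer h3 h4 h1 h2 ?_ (h' y hy y' hy')
    rwa [abs_sub_comm, mul_comm m₂, mul_comm m₁])
  obtain ⟨z, hz1, hz2⟩ := ho m₂ (-m₁)
  have hAz : A z = 0 := by rw [hA, hz1, hz2]; ring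
  have hBz : B z ≠ 0 := by
    rw [hB, hz1, hz2]
    intro e
    rw [show n₁ * m₂ - n₂ * m₁ = 0 by linarith, abs_zero] at h5
    linarith
  refine ⟨fun b => if b then A - B else A + B, fun b => if b then o.1 - o.2 else o.1 + o.2, ?_, ?_⟩
  · intro b e
    have := congrArg (fun l : Fn => l z) e
    cases b
    · simp [hAz, hBz] at this
    · simp [hAz, hBz] at this
  · rintro R hR hl ⟨y, hy, hyR⟩ ⟨y', hy', hyR'⟩ - - - -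
    exfalso
    have a1 := cut_sign hR _ (hl true) hyR hyR'
    have a2 := cut_sign hR _ (hl false) hyR hyR'
    simp only [if_true, LinearMap.sub_apply, LinearMap.add_apply, Bool.false_eq_true,
      if_false] at a1 a2
    have b1 := sq_le_sq.2 (ho1 _ (mem_image_of_mem _ hy))
    have b2 := sq_le_sq.2 (ho2 _ (mem_image_of_mem _ hy'))
    simp only at b1 b2
    have c := mul_pos a1 a2
    have d := mul_nonneg (sub_nonneg.2 b1) (sub_nonneg.2 b2)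
    nlinarith

theorem cut_one {p₁ p₂ q₁ q₂ n₁ n₂ δ : ℝ} (a1 : |p₁ - n₁| ≤ 2 * δ) (a2 : |p₂ - n₂| ≤ 2 * δ)
    (b1 : |q₁ - n₁| ≤ 2 * δ) (b2 : |q₂ - n₂| ≤ 2 * δ) (h : p₁ ^ 2 + p₂ ^ 2 ≤ q₁ ^ 2 + q₂ ^ 2) :
    n₁ * (p₁ - q₁) + n₂ * (p₂ - q₂) ≤ 2 * δ * (|p₁ - q₁| + |p₂ - q₂|) := by
  have key : ∀ p q n : ℝ, |p - n| ≤ 2 * δ → |q - n| ≤ 2 * δ →
      -((p - q) * ((p - n) + (q - n))) ≤ |p - q| * (4 * δ) := fun p q n a b => by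
    refine (neg_le_abs _).trans ?_
    rw [abs_mul]
    exact mul_le_mul_of_nonneg_left ((abs_add_le _ _).trans (by linarith)) (abs_nonneg _)
  have c1 := key _ _ _ a1 b1
  have c2 := key _ _ _ a2 b2
  nlinarith

theorem cut_dir {u₁ u₂ v₁ v₂ ν : ℝ} (hu : u₁ ^ 2 + u₂ ^ 2 = 1) (hv : v₁ ^ 2 + v₂ ^ 2 = 1)
    (hD : |v₁ * u₂ - v₂ * u₁| ≤ ν) :
    ∃ s : ℝ, (s = 1 ∨ s = -1) ∧ |v₁ - s * u₁| ≤ 2 * ν ∧ |v₂ - s * u₂| ≤ 2 * ν := by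
  obtain ⟨c, hc⟩ : ∃ c, c = u₁ * v₁ + u₂ * v₂ := ⟨_, rfl⟩
  obtain ⟨D, hD'⟩ : ∃ D, D = v₁ * u₂ - v₂ * u₁ := ⟨_, rfl⟩
  have e : c ^ 2 + D ^ 2 = 1 := by
    rw [hc, hD']
    linear_combination (v₁ ^ 2 + v₂ ^ 2) * hu + hv
  have e1 : v₁ = c * u₁ + D * u₂ := by rw [hc, hD']; linear_combination (-v₁) * hu
  have e2 : v₂ = c * u₂ - D * u₁ := by rw [hc, hD']; linear_combination (-v₂) * hu
  rw [← hD'] at hD
  have u1 : |u₁| ≤ 1 := abs_le_one_iff_mul_self_le_one.2 (by nlinarith)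
  have u2 : |u₂| ≤ 1 := abs_le_one_iff_mul_self_le_one.2 (by nlinarith)
  have c1 : |c| ≤ 1 := abs_le_one_iff_mul_self_le_one.2 (by nlinarith)
  have d1 : |D| ≤ 1 := abs_le_one_iff_mul_self_le_one.2 (by nlinarith)
  have hcD : 1 - |c| ≤ |D| := by
    rw [← sq_abs c, ← sq_abs D] at e
    nlinarith [abs_nonneg c, abs_nonneg D]
  obtain ⟨s, hs, hs'⟩ : ∃ s : ℝ, (s = 1 ∨ s = -1) ∧ |c - s| ≤ |D| := by
    rcases le_total 0 c with h | h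
    · rw [abs_of_nonneg h] at c1 hcD
      exact ⟨1, Or.inl rfl, by rw [abs_of_nonpos (by linarith)]; linarith⟩
    · rw [abs_of_nonpos h] at c1 hcD
      exact ⟨-1, Or.inr rfl, by rw [abs_of_nonneg (by linarith)]; linarith⟩
  have key : ∀ x y : ℝ, |x| ≤ 1 → |y| ≤ 1 → |(c - s) * x + D * y| ≤ 2 * ν := fun x y a b => by
    refine (abs_add_le _ _).trans ?_
    rw [abs_mul, abs_mul]
    have := mul_le_of_le_one_right (abs_nonneg (c - s)) a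
    have := mul_le_of_le_one_right (abs_nonneg D) b
    linarith
  refine ⟨s, hs, ?_, ?_⟩
  · rw [show v₁ - s * u₁ = (c - s) * u₁ + D * u₂ by linarith]
    exact key _ _ u1 u2
  · rw [show v₂ - s * u₂ = (c - s) * u₂ + D * -u₁ by linarith]
    exact key _ _ u2 (by rwa [abs_neg])

theorem cut_det {u₁ u₂ v₁ v₂ n₁ n₂ m₁ m₂ δ : ℝ} (u1 : |u₁| ≤ 1) (u2 : |u₂| ≤ 1) (h1 : |n₁| ≤ 2)
    (h2 : |n₂| ≤ 2) (a1 : |v₁ - n₁| ≤ 2 * δ) (a2 : |v₂ - n₂| ≤ 2 * δ) (b1 : |u₁ - m₁| ≤ 2 * δ)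
    (b2 : |u₂ - m₂| ≤ 2 * δ) (h : |n₁ * m₂ - n₂ * m₁| < 24 * δ) :
    |v₁ * u₂ - v₂ * u₁| ≤ 36 * δ := by
  have key : ∀ x y a b : ℝ, |x| ≤ a → |y| ≤ b → |x * y| ≤ a * b := fun x y a b p q => by
    rw [abs_mul]
    exact mul_le_mul p q (abs_nonneg _) ((abs_nonneg _).trans p)
  have c1 := abs_le.1 (key _ _ _ _ a1 u2)
  have c2 := abs_le.1 (key _ _ _ _ h1 b2)
  have c3 := abs_le.1 (key _ _ _ _ a2 u1)
  have c4 := abs_le.1 (key _ _ _ _ h2 b1)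
  have c5 := abs_lt.1 h
  rw [abs_le]
  constructor <;> nlinarith

theorem cut_floor {δ : ℝ} (hδ : 0 < δ) {s t : ℝ} (h : |s| ≤ δ) :
    |s + t - δ * ⌊t / δ⌋| ≤ 2 * δ := by
  have a := Int.floor_le (t / δ)
  have b := Int.lt_floor_add_one (t / δ)
  rw [le_div_iff₀ hδ] at a
  rw [div_lt_iff₀ hδ] at b
  have c := abs_le.1 h
  rw [abs_le]
  constructor <;> nlinarith

theorem cut_box {δ : ℝ} (hδ : 0 < δ) {g : ℤ} (h : |δ * g| ≤ 2) :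
    g ∈ Finset.Icc (-⌈2 / δ⌉) ⌈2 / δ⌉ := by
  rw [abs_mul, abs_of_pos hδ, mul_comm, ← le_div_iff₀ hδ] at h
  have h1 := h.trans (Int.le_ceil _)
  rw [← Int.cast_abs, Int.cast_le] at h1
  exact Finset.mem_Icc.2 (abs_le.1 h1)

theorem exists_cut (ε : ℝ) (hε : 0 < ε) : ∃ (δ : ℝ) (N : ℕ), 0 < δ ∧ δ ≤ 1 ∧
    ∀ (κ : Type) (α β : Fn) (K : Finset κ) (a : κ → E) (Q : Set E), Onto α β → Convex ℝ Q →
      Small α β δ Q → ∃ (l : Fin N → Fn) (t : Fin N → ℝ), (∀ j, l j ≠ 0) ∧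
        ∀ R ⊆ Q, Convex ℝ R → (∀ j, ∀ y ∈ R, l j y ≠ t j) →
          ∃ J ⊆ K, ∃ z, α z ^ 2 + β z ^ 2 = 1 ∧ Nice α β K a ε R J z := by
  obtain ⟨δ, hδ, hδ1, hδε⟩ : ∃ δ : ℝ, 0 < δ ∧ δ ≤ 1 / 2 ∧ δ ≤ ε / 100 :=
    ⟨min (1 / 2) (ε / 100), by positivity, min_le_left _ _, min_le_right _ _⟩
  obtain ⟨B, hB⟩ : ∃ B : Finset (ℤ × ℤ), ∀ g : ℤ × ℤ, |δ * g.1| ≤ 2 → |δ * g.2| ≤ 2 → g ∈ B :=
    ⟨_ ×ˢ _, fun g a b => Finset.mem_product.2 ⟨cut_box hδ a, cut_box hδ b⟩⟩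
  refine ⟨δ, Fintype.card (B × B × Bool), hδ, by linarith, fun κ α β K a Q ho _ hQ => ?_⟩
  obtain ⟨z₀, hz₀, hz₀'⟩ := ho 1 0
  have hz : α z₀ ^ 2 + β z₀ ^ 2 = 1 := by rw [hz₀, hz₀']; norm_num
  rcases Q.eq_empty_or_nonempty with rfl | ⟨x₀, hx₀⟩
  · refine ⟨fun _ => α, fun _ => 0, fun _ => cut_onto_ne ho, fun R hR _ _ =>
      ⟨∅, Finset.empty_subset _, z₀, hz, fun k hk => absurd hk (Finset.notMem_empty k),
        Or.inl fun y hy => (hR hy).elim⟩⟩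
  obtain ⟨g, hg⟩ : ∃ g : κ → ℤ × ℤ, ∀ k, ∀ y ∈ Q,
      |α (y - a k) - δ * (g k).1| ≤ 2 * δ ∧ |β (y - a k) - δ * (g k).2| ≤ 2 * δ := by
    refine ⟨fun k => (⌊α (x₀ - a k) / δ⌋, ⌊β (x₀ - a k) / δ⌋), fun k y hy => ?_⟩
    obtain ⟨h1, h2⟩ := hQ y hy x₀ hx₀
    rw [show y - a k = (y - x₀) + (x₀ - a k) by abel, map_add, map_add]
    exact ⟨cut_floor hδ h1, cut_floor hδ h2⟩
  obtain ⟨Z, hZ⟩ : ∃ Z : ℤ × ℤ → Set E, ∀ G y, y ∈ Z G ↔ y ∈ Q ∧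
      (∃ k ∈ K, g k = G ∧ α (y - a k) ^ 2 + β (y - a k) ^ 2 = 1) ∧
      ∀ k ∈ K, g k = G → 1 ≤ α (y - a k) ^ 2 + β (y - a k) ^ 2 :=
    ⟨fun G => {y | y ∈ Q ∧ (∃ k ∈ K, g k = G ∧ α (y - a k) ^ 2 + β (y - a k) ^ 2 = 1) ∧
      ∀ k ∈ K, g k = G → 1 ≤ α (y - a k) ^ 2 + β (y - a k) ^ 2}, fun _ _ => Iff.rfl⟩
  have flat₀ : ∀ G, ∀ y ∈ Z G, ∀ y' ∈ Z G, δ * G.1 * α (y - y') + δ * G.2 * β (y - y') ≤
      2 * δ * (|α (y - y')| + |β (y - y')|) := by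
    intro G y hy y' hy'
    obtain ⟨h1, ⟨k, hk, rfl, h2⟩, -⟩ := (hZ G y).1 hy
    obtain ⟨h3, -, h4⟩ := (hZ _ y').1 hy'
    have := cut_one (hg k y h1).1 (hg k y h1).2 (hg k y' h3).1 (hg k y' h3).2
      (h2.le.trans (h4 k hk rfl))
    simpa only [← map_sub, sub_sub_sub_cancel_right] using this
  have flat : ∀ G, ∀ y ∈ Z G, ∀ y' ∈ Z G, |δ * G.1 * α (y - y') + δ * G.2 * β (y - y')| ≤
      2 * δ * (|α (y - y')| + |β (y - y')|) := by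
    intro G y hy y' hy'
    have h1 := flat₀ G y' hy' y hy
    rw [← neg_sub y y', map_neg, map_neg, abs_neg, abs_neg] at h1
    exact abs_le.2 ⟨by linarith, flat₀ G y hy y' hy'⟩
  choose l t hl hlt using fun G G' : ℤ × ℤ =>
    cut_pair ho hδ (Z G) (Z G') _ _ _ _ (flat G) (flat G')
  obtain ⟨e⟩ : Nonempty (Fin (Fintype.card (B × B × Bool)) ≃ B × B × Bool) :=
    ⟨(Fintype.equivFin _).symm⟩
  refine ⟨fun j => l (e j).1 (e j).2.1 (e j).2.2, fun j => t (e j).1 (e j).2.1 (e j).2.2,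
    fun j => hl _ _ _, fun R hRQ hR hcut => ?_⟩
  have unit : ∀ G, ∀ y ∈ Z G, |δ * G.1| ≤ 2 ∧ |δ * G.2| ≤ 2 := by
    intro G y hy
    obtain ⟨h1, ⟨k, -, rfl, h2⟩, -⟩ := (hZ G y).1 hy
    have u1 : |α (y - a k)| ≤ 1 := abs_le_one_iff_mul_self_le_one.2 (by nlinarith)
    have u2 : |β (y - a k)| ≤ 1 := abs_le_one_iff_mul_self_le_one.2 (by nlinarith)
    obtain ⟨c1, c2⟩ := hg k y h1
    rw [abs_le] at u1 u2 c1 c2
    exact ⟨abs_le.2 ⟨by linarith, by linarith⟩, abs_le.2 ⟨by linarith, by linarith⟩⟩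
  have par : ∀ G G', (Z G ∩ R).Nonempty → (Z G' ∩ R).Nonempty →
      |δ * G.1 * (δ * G'.2) - δ * G.2 * (δ * G'.1)| < 24 * δ := by
    intro G G' h h'
    obtain ⟨a1, a2⟩ := unit G _ h.some_mem.1
    obtain ⟨b1, b2⟩ := unit G' _ h'.some_mem.1
    refine hlt G G' R hR (fun b => ?_) h h' a1 a2 b1 b2
    have := hcut (e.symm (⟨G, hB G a1 a2⟩, ⟨G', hB G' b1 b2⟩, b))
    simpa only [Equiv.apply_symm_apply] using this
  have decide' : (∀ y ∈ R, ∃ k ∈ K, y ∈ disc α β (a k)) ∨ ∀ y ∈ R, ∀ k ∈ K, y ∈ disc α β (a k) →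
      ∃ k' ∈ K.filter fun k => (Z (g k) ∩ R).Nonempty, y ∈ disc α β (a k') := by
    refine or_iff_not_imp_left.2 fun hn y hy k hk hyk => ⟨k, Finset.mem_filter.2 ⟨hk, ?_⟩, hyk⟩
    push Not at hn
    obtain ⟨y₁, hy₁, hn⟩ := hn
    have hk0 : k ∈ K.filter fun k' => g k' = g k := Finset.mem_filter.2 ⟨hk, rfl⟩
    have hne : (K.filter fun k' => g k' = g k).Nonempty := ⟨k, hk0⟩
    have hc : Continuous fun x : E => (K.filter fun k' => g k' = g k).inf' hne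
        fun k' => α (x - a k') ^ 2 + β (x - a k') ^ 2 := by
      refine Continuous.finset_inf'_apply hne fun k' _ => ?_
      have := Fn.cont α
      have := Fn.cont β
      fun_prop
    obtain ⟨x, hx, hx1⟩ := hR.isPreconnected.intermediate_value hy hy₁ hc.continuousOn
      (show (1 : ℝ) ∈ _ from ⟨(Finset.inf'_le _ hk0).trans hyk,
        Finset.le_inf' _ _ fun k' hk' => (not_le.1 (hn k' (Finset.mem_filter.1 hk').1)).le⟩)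
    refine ⟨x, (hZ _ x).2 ⟨hRQ hx, ?_, fun k' hk' h => ?_⟩, hx⟩
    · obtain ⟨k', hk', h⟩ := Finset.exists_mem_eq_inf' hne
        fun k' => α (x - a k') ^ 2 + β (x - a k') ^ 2
      exact ⟨k', (Finset.mem_filter.1 hk').1, (Finset.mem_filter.1 hk').2, h.symm.trans hx1⟩
    · exact hx1.symm.le.trans (Finset.inf'_le _ (Finset.mem_filter.2 ⟨hk', h⟩))
  refine ⟨K.filter fun k => (Z (g k) ∩ R).Nonempty, Finset.filter_subset _ _, ?_⟩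
  by_cases hJ : ∃ G, (Z G ∩ R).Nonempty
  swap
  · exact ⟨z₀, hz, fun k hk => absurd ⟨_, (Finset.mem_filter.1 hk).2⟩ hJ, decide'⟩
  obtain ⟨G₀, y₀, hy₀, hy₀R⟩ := hJ
  obtain ⟨-, ⟨k₀, -, rfl, hu⟩, -⟩ := (hZ _ y₀).1 hy₀
  refine ⟨y₀ - a k₀, hu, fun k hk => ?_, decide'⟩
  obtain ⟨y₁, hy₁, hy₁R⟩ := (Finset.mem_filter.1 hk).2
  obtain ⟨-, ⟨k₁, -, hk₁, hv⟩, -⟩ := (hZ _ y₁).1 hy₁
  obtain ⟨a1, a2⟩ := hg k₁ y₁ (hRQ hy₁R)
  rw [hk₁] at a1 a2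
  obtain ⟨s, hs, s1, s2⟩ := cut_dir hu hv (cut_det
    (abs_le_one_iff_mul_self_le_one.2 (by nlinarith))
    (abs_le_one_iff_mul_self_le_one.2 (by nlinarith)) (unit _ _ hy₁).1 (unit _ _ hy₁).2 a1 a2
    (hg k₀ y₀ (hRQ hy₀R)).1 (hg k₀ y₀ (hRQ hy₀R)).2 (par _ _ ⟨y₁, hy₁, hy₁R⟩ ⟨y₀, hy₀, hy₀R⟩))
  refine ⟨s, hs, fun y hy => ?_⟩
  obtain ⟨b1, b2⟩ := hg k y (hRQ hy)
  rw [map_sub α (y - a k), map_sub β (y - a k), map_smul, map_smul, smul_eq_mul, smul_eq_mul]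
  rw [abs_le] at a1 a2 b1 b2 s1 s2
  exact ⟨abs_le.2 ⟨by linarith, by linarith⟩, abs_le.2 ⟨by linarith, by linarith⟩⟩

end Pool.Agent.Cyl
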