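import Pool.Agent.P.MP_8a0bcd_co.Grid2
import Pool.Agent.P.MP_8a0bcd_co.Cut

/-! The partition adapted to one family of parallel cylinders. -/

set_option autoImplicit false

namespace Pool.Agent.Cyl

open Set
open scoped Classical

theorem exists_pl (ε l : ℝ) (hε : 0 < ε) : ∃ m C : ℕ, ∀ (κ : Type) (α β : Fn)
    (K : Finset κ) (a : κ → E), Onto α β → Nonempty (Pl α β K a ε l m C) := by
  obtain ⟨δ, N, hδ, hδ1, hcut⟩ := exists_cut ε hε
  obtain ⟨C, hcol⟩ := exists_col δ l hδ hδ1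
  refine ⟨4 + Fintype.card (Fin N) * 2, C * 2 ^ N, fun κ α β K a hon => ?_⟩
  obtain ⟨P, hP⟩ := hcol κ α β K a hon
  obtain ⟨z₀, hz₀, hz₁⟩ := hon 1 0
  have hα : α ≠ 0 := fun h => by simp [h] at hz₀
  -- cuts in every set
  have key : ∀ Q : Set E, ∃ (l : Fin N → Fn) (Θ : Fin N → Finset ℝ), (∀ j, l j ≠ 0) ∧
      (∀ j, (Θ j).card ≤ 1) ∧ (∀ j, (Θ j).Nonempty → ∃ k ∈ K, Q ⊆ tube α β (a k) 3) ∧
      (Convex ℝ Q → Small α β δ Q → (∃ k ∈ K, Q ⊆ tube α β (a k) 3) →
        ∀ R ⊆ Q, Convex ℝ R → (∀ j, ∀ y ∈ R, l j y ∉ Θ j) →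
          ∃ J ⊆ K, ∃ z, α z ^ 2 + β z ^ 2 = 1 ∧ Nice α β K a ε R J z) := by
    intro Q
    by_cases h : Convex ℝ Q ∧ Small α β δ Q ∧ ∃ k ∈ K, Q ⊆ tube α β (a k) 3
    · obtain ⟨l, t, h1, h2⟩ := hcut κ α β K a Q hon h.1 h.2.1
      refine ⟨l, fun j => {t j}, h1, fun j => by simp, fun _ _ => h.2.2,
        fun _ _ _ R hR hc hy => h2 R hR hc fun j y b e => hy j y b ?_⟩
      exact Finset.mem_singleton.2 e
    · exact ⟨fun _ => α, fun _ => ∅, fun _ => hα, fun _ => by simp, fun _ b => by simp at b,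
        fun h1 h2 h3 => absurd ⟨h1, h2, h3⟩ h⟩
  choose l' Θ' k1 k2 k3 k4 using key
  let L : Lab := P.L.refine l' Θ' fun R j _ => k1 R j
  have pick : ∀ R : Set E, ∃ J ⊆ K, ∃ z, α z ^ 2 + β z ^ 2 = 1 ∧
      (R ∈ L.cl univ → Nice α β K a ε R J z) := by
    intro R
    by_cases hR : R ∈ L.cl univ
    swap
    · exact ⟨∅, Finset.empty_subset _, z₀, by simp [hz₀, hz₁], fun h => absurd h hR⟩
    obtain ⟨x, -, hx, rfl⟩ := Lab.mem_cl.1 hR
    have hsub : L.cls x ⊆ P.L.cls x := inter_subset_left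
    rcases hP x hx.1 with h | h
    · obtain ⟨J, h1, z, h2, h3⟩ := k4 _ (P.L.convex hx.1) h.1 h.2 (L.cls x) hsub (L.convex hx)
        fun j y hy => by
          have := (L.sub x hx hy).2 j
          rwa [P.L.eq x hx.1 y (hsub hy)] at this
      exact ⟨J, h1, z, h2, fun _ => h3⟩
    · exact ⟨∅, Finset.empty_subset _, z₀, by simp [hz₀, hz₁], fun _ =>
        ⟨by simp, Or.inr fun y hy k hk hd => absurd hd (h y (hsub hy) k hk)⟩⟩
  choose J j1 z j2 j3 using pick
  refine ⟨{ L := L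
            Θ := P.Θ
            poly := Lab.refine_poly _ _ _ _ P.poly
            card := P.card.trans (Nat.mul_le_mul_right _ (Nat.le_mul_of_pos_right _ (by positivity)))
            near := P.near
            off := fun x hx => P.off x hx.1
            bad := fun x hx => ?_
            loc := fun S hS => ?_
            J := J
            z := z
            sub := j1
            unit := j2
            nice := fun x hx => j3 _ (Lab.cls_mem_cl (mem_univ x) hx) }⟩
  · by_cases h : x ∈ P.L.G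
    · obtain ⟨j, hj⟩ : ∃ j, l' (P.L.cls x) j x ∈ Θ' (P.L.cls x) j := by
        by_contra c
        exact hx ⟨h, fun j d => c ⟨j, d⟩⟩
      obtain ⟨k, h1, h2⟩ := k3 _ j ⟨_, hj⟩
      exact Or.inr ⟨k, h1, h2 (P.L.mem x h)⟩
    · exact P.bad x h
  · refine (Lab.refine_card_sum _ _ _ _ S).trans ?_
    refine (Finset.sum_le_card_nsmul _ _ (2 ^ N) fun R hR => ?_).trans
      (Nat.mul_le_mul_right _ (P.loc S hS))
    refine (Lab.refine_card _ _ _ _ (P.L.cl_mono (subset_univ S) hR)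
      (Fintype.piFinset fun j => (Θ' R j).powerset) fun x _ => Fintype.mem_piFinset.2 fun j =>
        Finset.mem_powerset.2 (Finset.filter_subset _ _)).trans ?_
    rw [Fintype.card_piFinset]
    refine (Finset.prod_le_pow_card _ _ 2 fun j _ => ?_).trans (by simp)
    rw [Finset.card_powerset]
    exact (Nat.pow_le_pow_right two_pos (k2 R j)).trans (by simp)


end Pool.Agent.Cyl
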