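import Pool.Agent.P.MP_8a0bcd_co.Arr

/-! Counting the classes after the last refinement. -/

set_option autoImplicit false

namespace Pool.Agent.Cyl

open Set
open scoped Classical

theorem refC_swap {κ : Type} (M : Lab) (K : Finset κ) (J : Set E → Finset κ) (T : κ → Set E)
    (b : ℕ) (hJ : ∀ x ∈ M.G, ∀ k ∈ J (M.cls x), k ∈ K ∧ x ∈ T k)
    (hb : ∀ k, (M.cl (T k)).card ≤ b) : ∑ R ∈ M.cl univ, (J R).card ≤ K.card * b := by
  calc ∑ R ∈ M.cl univ, (J R).card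
      ≤ ∑ R ∈ M.cl univ, ∑ k ∈ K, if R ∈ M.cl (T k) then 1 else 0 := by
        refine Finset.sum_le_sum fun R hR => ?_
        obtain ⟨x, -, hx, rfl⟩ := Lab.mem_cl.1 hR
        rw [← Finset.card_filter]
        exact Finset.card_le_card fun k hk =>
          Finset.mem_filter.2 ⟨(hJ x hx k hk).1, Lab.cls_mem_cl (hJ x hx k hk).2 hx⟩
    _ = ∑ k ∈ K, ∑ R ∈ M.cl univ, if R ∈ M.cl (T k) then 1 else 0 := Finset.sum_comm
    _ ≤ ∑ _k ∈ K, b := by
        refine Finset.sum_le_sum fun k _ => le_trans ?_ (hb k)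
        rw [← Finset.card_filter]
        exact Finset.card_le_card fun R hR => (Finset.mem_filter.1 hR).2
    _ = K.card * b := by simp

theorem refC_tube {κ : Type} {α β : Fn} {K : Finset κ} {a : κ → E} {ε l : ℝ} {m C : ℕ}
    (hε : ε ≤ 1) (P : Pl α β K a ε l m C) {x y : E} (hx : x ∈ P.L.G) {k : κ}
    (hk : k ∈ P.J (P.L.cls x)) (hy : y ∈ P.L.cls x) : y ∈ tube α β (a k) 2 := by
  obtain ⟨s, hs, h⟩ := (P.nice x hx).1 k hk
  obtain ⟨h1, h2⟩ := h y hy
  have hu := P.unit (P.L.cls x)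
  have a1 : |α (P.z (P.L.cls x))| ≤ 1 := by
    rw [← sq_le_one_iff_abs_le_one]
    nlinarith [sq_nonneg (β (P.z (P.L.cls x)))]
  have a2 : |β (P.z (P.L.cls x))| ≤ 1 := by
    rw [← sq_le_one_iff_abs_le_one]
    nlinarith [sq_nonneg (α (P.z (P.L.cls x)))]
  rw [map_sub, map_smul, smul_eq_mul] at h1 h2
  rw [abs_le] at h1 h2 a1 a2
  constructor <;> rw [abs_le] <;> rcases hs with rfl | rfl <;> constructor <;>
    linarith [h1.1, h1.2, h2.1, h2.2, a1.1, a1.2, a2.1, a2.2]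

theorem refC_tube_mono {α β : Fn} {o y : E} (h : y ∈ tube α β o 2) : y ∈ tube α β o 4 :=
  ⟨h.1.trans (by norm_num), h.2.trans (by norm_num)⟩

theorem refC_diff {α β : Fn} {o y y' : E} (h : y ∈ tube α β o 2) (h' : y' ∈ tube α β o 2) :
    |α (y - y')| ≤ 4 ∧ |β (y - y')| ≤ 4 := by
  obtain ⟨h1, h2⟩ := h
  obtain ⟨h3, h4⟩ := h'
  rw [map_sub, abs_le] at h1 h2 h3 h4
  constructor <;> rw [map_sub, abs_le] <;> constructor <;>
    linarith [h1.1, h1.2, h2.1, h2.2, h3.1, h3.2, h4.1, h4.2]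

theorem refC_loc {κ : Type} {α β : Fn} {K : Finset κ} {a : κ → E} {ε l : ℝ} {m C : ℕ}
    (hl : 0 ≤ l) (hε : ε ≤ 1) (P : Pl α β K a ε (100 * (l + 1)) m C) :
    ∑ R ∈ P.L.cl univ, (P.J R).card ≤ K.card * C := by
  refine refC_swap P.L K P.J (fun k => tube α β (a k) 2) C
    (fun x hx k hk => ⟨P.sub _ hk, refC_tube hε P hx hk (P.L.mem x hx)⟩) fun k => P.loc _ ?_
  intro y hy y' hy'
  obtain ⟨h1, h2⟩ := refC_diff hy hy'
  constructor <;> linarith

theorem refC_small {ι W κ : Type} {l θ ε : ℝ} (hl : 0 ≤ l)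
    (hε : ε ≤ 1) (G : Geo ι W l θ) (w₀ : W) {K : Finset κ} {a : κ → E} {m C : ℕ} {i j : ι}
    (hij : i ≠ j) (P : Pl (G.τ w₀ i) (G.σ w₀ i) K a ε (100 * (l + 1)) m C) {x : E}
    (hx : x ∈ P.L.G) (hJ : (P.J (P.L.cls x)).Nonempty) (w' : W) (s t : ℝ) (k : ι) :
    Small (G.τ w₀ k) (G.σ w₀ k) (100 * (l + 1))
      {y | y ∈ P.L.cls x ∧ G.τ w' i y = s ∧ G.τ w' j y = t} := by
  obtain ⟨k0, hk0⟩ := hJ
  intro y hy y' hy'
  obtain ⟨h1, h2⟩ := refC_diff (refC_tube hε P hx hk0 hy.1) (refC_tube hε P hx hk0 hy'.1)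
  have e1 : G.τ w' i (y - y') = 0 := by rw [map_sub, hy.2.1, hy'.2.1, sub_self]
  have e2 : G.τ w' j (y - y') = 0 := by rw [map_sub, hy.2.2, hy'.2.2, sub_self]
  have h3 := G.line w' i j _ hij e1 e2 k
  rw [← G.form w₀ k, ← G.form w₀ i] at h3
  have h4 : G.τ w₀ i (y - y') ^ 2 ≤ 4 ^ 2 := sq_le_sq' (abs_le.1 h1).1 (abs_le.1 h1).2
  have h5 : G.σ w₀ i (y - y') ^ 2 ≤ 4 ^ 2 := sq_le_sq' (abs_le.1 h2).1 (abs_le.1 h2).2
  have h6 : l ^ 2 * (G.τ w₀ i (y - y') ^ 2 + G.σ w₀ i (y - y') ^ 2) ≤ l ^ 2 * 32 :=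
    mul_le_mul_of_nonneg_left (by linarith) (sq_nonneg l)
  have h7 : l ^ 2 * 32 ≤ (100 * (l + 1)) ^ 2 := by nlinarith
  constructor
  · exact abs_le_of_sq_le_sq (by linarith [sq_nonneg (G.σ w₀ k (y - y'))]) (by linarith)
  · exact abs_le_of_sq_le_sq (by linarith [sq_nonneg (G.τ w₀ k (y - y'))]) (by linarith)

theorem refC_pairs {ι W κ : Type} [Fintype ι] [Fintype W] {l θ ε : ℝ} (hl : 0 ≤ l)
    (hε : ε ≤ 1) (G : Geo ι W l θ) (w₀ : W) (K : ι → Finset κ) (a : κ → E) {m C : ℕ}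
    (P : ∀ i, Pl (G.τ w₀ i) (G.σ w₀ i) (K i) a ε (100 * (l + 1)) m C)
    (A : ι → Set E → W → Finset ℝ) (hA : ∀ i R w, (A i R w).card ≤ 2 * ((P i).J R).card)
    (w : Set E → W) (comp : ι → Set E → Set E)
    (hcomp : ∀ x ∈ (Lab.prod fun j => (P j).L).G, ∀ i,
      comp i ((Lab.prod fun j => (P j).L).cls x) = (P i).L.cls x) {i j : ι} (hij : i ≠ j) :
    ∑ R ∈ (Lab.prod fun j => (P j).L).cl univ,
      ((A i (comp i R) (w R) ×ˢ A j (comp j R) (w R)).filter fun p =>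
        ∃ x ∈ R, G.τ (w R) i x = p.1 ∧ G.τ (w R) j x = p.2).card ≤
      C ^ Fintype.card ι * (Fintype.card W * ((2 * C * (K i).card) * (2 * C * (K j).card))) := by
  have hX : ∀ (i : ι) (w' : W),
      (((P i).L.cl univ).sigma fun R => A i R w').card ≤ 2 * C * (K i).card := by
    intro i w'
    rw [Finset.card_sigma]
    refine (Finset.sum_le_sum fun R _ => hA i R w').trans ?_
    rw [← Finset.mul_sum, mul_assoc, mul_comm C]
    exact Nat.mul_le_mul_left 2 (refC_loc hl hε (P i))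
  rw [← Finset.card_sigma]
  refine (Finset.card_le_mul_card_image_of_maps_to
    (f := fun q => (⟨w q.1, (⟨comp i q.1, q.2.1⟩, ⟨comp j q.1, q.2.2⟩)⟩ :
      Σ _ : W, (Σ _ : Set E, ℝ) × Σ _ : Set E, ℝ))
    (t := Finset.univ.sigma fun w' => (((P i).L.cl univ).sigma fun R => A i R w') ×ˢ
      ((P j).L.cl univ).sigma fun R => A j R w') ?_ (C ^ Fintype.card ι) ?_).trans ?_
  · rintro ⟨R, s, t⟩ hq
    obtain ⟨hR, hq⟩ := Finset.mem_sigma.1 hq
    obtain ⟨x, -, hx, rfl⟩ := Lab.mem_cl.1 hR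
    obtain ⟨h1, h2⟩ := Finset.mem_product.1 (Finset.mem_filter.1 hq).1
    refine Finset.mem_sigma.2 ⟨Finset.mem_univ _, Finset.mem_product.2
      ⟨Finset.mem_sigma.2 ⟨?_, h1⟩, Finset.mem_sigma.2 ⟨?_, h2⟩⟩⟩
    · show comp i _ ∈ _
      rw [hcomp x hx i]
      exact Lab.cls_mem_cl (mem_univ x) ((Lab.mem_prod _).1 hx i)
    · show comp j _ ∈ _
      rw [hcomp x hx j]
      exact Lab.cls_mem_cl (mem_univ x) ((Lab.mem_prod _).1 hx j)
  · rintro ⟨w', ⟨Ri, s⟩, ⟨Rj, t⟩⟩ hb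
    obtain ⟨h1, -⟩ := Finset.mem_product.1 (Finset.mem_sigma.1 hb).2
    obtain ⟨h1, h2⟩ := Finset.mem_sigma.1 h1
    obtain ⟨x, -, hx, rfl⟩ := Lab.mem_cl.1 h1
    have hJ : ((P i).J ((P i).L.cls x)).Nonempty := by
      have h3 := hA i ((P i).L.cls x) w'
      have h4 : 0 < (A i ((P i).L.cls x) w').card := Finset.card_pos.2 ⟨s, h2⟩
      exact Finset.card_pos.1 (by omega)
    have hS := (Lab.prod_card (fun j => (P j).L)
      {y | y ∈ (P i).L.cls x ∧ G.τ w' i y = s ∧ G.τ w' j y = t}).trans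
      (Finset.prod_le_pow_card _ _ C fun k _ =>
        (P k).loc _ (refC_small hl hε G w₀ hij (P i) hx hJ w' s t k))
    rw [Finset.card_univ] at hS
    refine le_trans (Finset.card_le_card_of_injOn (fun q => q.1) ?_ ?_) hS
    · rintro ⟨R, s', t'⟩ hq
      obtain ⟨hq, e⟩ := Finset.mem_filter.1 (Finset.mem_coe.1 hq)
      obtain ⟨hR, hq⟩ := Finset.mem_sigma.1 hq
      obtain ⟨x', -, hx', rfl⟩ := Lab.mem_cl.1 hR
      obtain ⟨y, hy, e1, e2⟩ := (Finset.mem_filter.1 hq).2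
      simp only [Sigma.mk.injEq, heq_eq_eq, Prod.mk.injEq] at e
      obtain ⟨f1, ⟨f2, f3⟩, -, f4⟩ := e
      refine Finset.mem_coe.2 (Lab.mem_cl.2 ⟨y, ⟨?_, ?_, ?_⟩, Lab.sub _ x' hx' hy,
        Lab.eq _ x' hx' y hy⟩)
      · rw [← f2, hcomp x' hx' i]
        exact mem_iInter.1 hy i
      · rw [← f1, ← f3]
        exact e1
      · rw [← f1, ← f4]
        exact e2
    · rintro ⟨R, s', t'⟩ hq ⟨R', s'', t''⟩ hq' e
      have e1 := (Finset.mem_filter.1 (Finset.mem_coe.1 hq)).2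
      have e2 := (Finset.mem_filter.1 (Finset.mem_coe.1 hq')).2
      simp only [Sigma.mk.injEq, heq_eq_eq, Prod.mk.injEq] at e1 e2
      obtain rfl : R = R' := e
      rw [e1.2.1.2, e1.2.2.2, e2.2.1.2, e2.2.2.2]
  · refine Nat.mul_le_mul_left _ ?_
    rw [Finset.card_sigma]
    refine (Finset.sum_le_card_nsmul _ _ ((2 * C * (K i).card) * (2 * C * (K j).card))
      fun w' _ => ?_).trans (by simp)
    rw [Finset.card_product]
    exact Nat.mul_le_mul (hX i w') (hX j w')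

theorem refine_count {ι W κ : Type} [Fintype ι] [Fintype W] {l θ ε : ℝ} (hl : 0 ≤ l)
    (hε : ε ≤ 1) (G : Geo ι W l θ) (w₀ : W) (K : ι → Finset κ) (a : κ → E) {m C : ℕ}
    (P : ∀ i, Pl (G.τ w₀ i) (G.σ w₀ i) (K i) a ε (100 * (l + 1)) m C) (B : ℕ)
    (hB : ∀ i o, ((Lab.prod fun j => (P j).L).cl (tube (G.τ w₀ i) (G.σ w₀ i) o 4)).card ≤ B)
    (A : ι → Set E → W → Finset ℝ) (hA : ∀ i R w, (A i R w).card ≤ 2 * ((P i).J R).card)
    (w : Set E → W) (comp : ι → Set E → Set E)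
    (hcomp : ∀ x ∈ (Lab.prod fun j => (P j).L).G, ∀ i,
      comp i ((Lab.prod fun j => (P j).L).cls x) = (P i).L.cls x)
    (h : ∀ R i, (A i (comp i R) (w R)).Nonempty → G.τ (w R) i ≠ 0) :
    (((Lab.prod fun j => (P j).L).refine (fun R i => G.τ (w R) i)
        (fun R i => A i (comp i R) (w R)) h).cl univ).card ≤
      ((Lab.prod fun j => (P j).L).cl univ).card + 2 * (∑ j, (K j).card) * B +
        Fintype.card W * C ^ Fintype.card ι * (2 * C * ∑ j, (K j).card) ^ 2 := by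
  refine (Lab.refine_card_sum _ _ _ h univ).trans ?_
  refine (Finset.sum_le_sum (g := fun R => 1 + ∑ i, (A i (comp i R) (w R)).card +
    ∑ i, ∑ j ∈ Finset.univ.erase i,
      ((A i (comp i R) (w R) ×ˢ A j (comp j R) (w R)).filter fun p =>
        ∃ x ∈ R, G.τ (w R) i x = p.1 ∧ G.τ (w R) j x = p.2).card) fun R hR => ?_).trans ?_
  · have hc : Convex ℝ R := by
      obtain ⟨x, -, hx, rfl⟩ := Lab.mem_cl.1 hR
      exact Lab.convex _ hx
    obtain ⟨B', h1, h2⟩ := arr_card (G.τ (w R)) (fun i => A i (comp i R) (w R)) (G.ker (w R)) R hc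
    exact (Lab.refine_card _ _ _ h hR B' h1).trans h2
  rw [Finset.sum_add_distrib, Finset.sum_add_distrib]
  refine add_le_add (add_le_add (by simp) ?_) ?_
  · rw [Finset.sum_comm, Finset.mul_sum, Finset.sum_mul]
    refine Finset.sum_le_sum fun i _ => ?_
    refine (Finset.sum_le_sum fun R _ => hA i (comp i R) (w R)).trans ?_
    rw [← Finset.mul_sum, mul_assoc]
    refine Nat.mul_le_mul_left 2 (refC_swap _ (K i) (fun R => (P i).J (comp i R))
      (fun k => tube (G.τ w₀ i) (G.σ w₀ i) (a k) 4) B (fun x hx k hk => ?_) fun k => hB i _)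
    rw [hcomp x hx i] at hk
    have hx' := (Lab.mem_prod _).1 hx i
    exact ⟨(P i).sub _ hk, refC_tube_mono (refC_tube hε (P i) hx' hk ((P i).L.mem x hx'))⟩
  · rw [Finset.sum_comm]
    calc _ ≤ ∑ i, ∑ j, C ^ Fintype.card ι *
            (Fintype.card W * ((2 * C * (K i).card) * (2 * C * (K j).card))) := by
          refine Finset.sum_le_sum fun i _ => ?_
          rw [Finset.sum_comm]
          refine (Finset.sum_le_sum fun j hj => refC_pairs hl hε G w₀ K a P A hA w comp hcomp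
            (Finset.ne_of_mem_erase hj).symm).trans ?_
          exact Finset.sum_le_sum_of_subset (Finset.erase_subset _ _)
      _ = _ := by
          rw [sq, Finset.mul_sum, Finset.sum_mul_sum, Finset.mul_sum]
          refine Finset.sum_congr rfl fun i _ => ?_
          rw [Finset.mul_sum]
          exact Finset.sum_congr rfl fun j _ => by ring

end Pool.Agent.Cyl
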