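import Pool.Agent.P.MP_8a0bcd_co.Arr

/-! All classes of the common refinement. -/

set_option autoImplicit false

namespace Pool.Agent.Cyl

open Set
open scoped Classical

theorem total_card {ι W κ : Type} [Fintype ι] {l θ l' : ℝ} (G : Geo ι W l θ) (w : W)
    (K : ι → Finset κ) (a : κ → E) {m C : ℕ}
    (P : ∀ i, Col (G.τ w i) (G.σ w i) (K i) a l' m C) (B : ℕ)
    (hB : ∀ i o, ((Lab.prod fun j => (P j).L).cl (tube (G.τ w i) (G.σ w i) o 4)).card ≤ B) :
    ((Lab.prod fun j => (P j).L).cl univ).card ≤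
      (∑ j, (K j).card) * B + (C * ∑ j, (K j).card + 1) ^ 2 := by
  set L := Lab.prod fun j => (P j).L with hL
  let S : Set E := {x | ∀ i, ∀ k ∈ K i, ∀ y ∈ L.cls x, y ∉ tube (G.τ w i) (G.σ w i) (a k) 4}
  obtain ⟨A, hA, cA⟩ := arr_card (G.τ w) (fun i => (P i).Θ) (G.ker w) univ convex_univ
  have hG : ∀ {x : E}, x ∈ L.G ↔ ∀ i, x ∈ (P i).L.G := Lab.mem_prod _
  have h1 : (L.cl S).card ≤ A.card := by
    refine L.card_cl_le S (fun x i => lab (G.τ w i) (P i).Θ x) A (fun x _ _ => hA x trivial)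
      fun x hx gx y _ gy e => ?_
    have hD : Convex ℝ (⋂ i, slab (G.τ w i) (P i).Θ x) :=
      convex_iInter fun i => (poly_slab _ _ _).convex
    have h2 : (⋂ i, slab (G.τ w i) (P i).Θ x) ⊆ L.cls x := by
      refine hD.isPreconnected.subset_of_closure_inter_subset (L.isOpen gx)
        ⟨x, mem_iInter.2 fun i => mem_slab_self _ _ _, L.mem x gx⟩ fun z hz => ?_
      by_cases gz : z ∈ L.G
      · exact L.mem_of_closure gx gz hz.1
      exfalso
      obtain ⟨i, hi⟩ : ∃ i, z ∉ (P i).L.G := by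
        by_contra h
        exact gz (hG.2 fun i => by_contra fun h' => h ⟨i, h'⟩)
      rcases (P i).bad z hi with h | ⟨k, hk, h⟩
      · exact slab_notMem ((P i).off x (hG.1 gx i)) (mem_iInter.1 hz.2 i) h
      · have ho : IsOpen {y : E | |G.τ w i (y - a k)| < 4 ∧ |G.σ w i (y - a k)| < 4} := by
          have c : ∀ f : Fn, Continuous fun y : E => |f (y - a k)| := fun f =>
            ((Fn.cont f).comp (continuous_id.sub continuous_const)).abs
          exact (isOpen_lt (c _) continuous_const).inter (isOpen_lt (c _) continuous_const)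
        obtain ⟨u, hu, hu'⟩ := mem_closure_iff.1 hz.1 _ ho ⟨by linarith [h.1], by linarith [h.2]⟩
        exact hx i k hk u hu' ⟨hu.1.le, hu.2.le⟩
    exact (L.eq x gx y (h2 (mem_iInter.2 fun i =>
      mem_slab_of_lab ((P i).off y (hG.1 gy i)) (congrFun e i).symm))).symm
  have h2 : L.cl univ ⊆ (Finset.univ.biUnion fun i => (K i).biUnion fun k =>
      L.cl (tube (G.τ w i) (G.σ w i) (a k) 4)) ∪ L.cl S := by
    intro R hR
    obtain ⟨x, -, gx, rfl⟩ := Lab.mem_cl.1 hR
    by_cases hx : x ∈ S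
    · exact Finset.mem_union_right _ (Lab.cls_mem_cl hx gx)
    · refine Finset.mem_union_left _ ?_
      simp only [S, mem_ofPred_eq, not_forall, not_not] at hx
      obtain ⟨i, k, hk, y, hy, ht⟩ := hx
      refine Finset.mem_biUnion.2 ⟨i, Finset.mem_univ _, Finset.mem_biUnion.2 ⟨k, hk, ?_⟩⟩
      rw [← L.eq x gx y hy]
      exact Lab.cls_mem_cl ht (L.sub x gx hy)
  have h3 : (Finset.univ.biUnion fun i => (K i).biUnion fun k =>
      L.cl (tube (G.τ w i) (G.σ w i) (a k) 4)).card ≤ (∑ j, (K j).card) * B := by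
    refine Finset.card_biUnion_le.trans ?_
    rw [Finset.sum_mul]
    exact Finset.sum_le_sum fun i _ => Finset.card_biUnion_le_card_mul _ _ _ fun k _ => hB i _
  have h4 : ∑ i, (P i).Θ.card ≤ C * ∑ j, (K j).card := by
    rw [Finset.mul_sum]
    exact Finset.sum_le_sum fun i _ => (P i).card
  have h5 : ∑ i, ∑ j ∈ Finset.univ.erase i, (((P i).Θ ×ˢ (P j).Θ).filter
      fun p => ∃ x ∈ (univ : Set E), G.τ w i x = p.1 ∧ G.τ w j x = p.2).card ≤
      (∑ i, (P i).Θ.card) ^ 2 := by
    rw [sq, Finset.sum_mul_sum]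
    refine Finset.sum_le_sum fun i _ => ?_
    refine le_trans (Finset.sum_le_sum fun j _ => ?_)
      (Finset.sum_le_sum_of_subset (Finset.erase_subset i Finset.univ))
    exact (Finset.card_filter_le _ _).trans (Finset.card_product _ _).le
  have h6 : A.card ≤ (C * ∑ j, (K j).card + 1) ^ 2 := by
    refine le_trans ?_ (Nat.pow_le_pow_left (Nat.add_le_add_right h4 1) 2)
    refine (cA.trans (Nat.add_le_add_left h5 _)).trans ?_
    generalize ∑ i, (P i).Θ.card = t
    nlinarith
  exact (Finset.card_le_card h2).trans ((Finset.card_union_le _ _).trans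
    (add_le_add h3 (h1.trans h6)))

end Pool.Agent.Cyl
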