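import Pool.Agent.P.MP_8a0bcd_co.St

/-! Classes of the common refinement along one tube. -/

set_option autoImplicit false

namespace Pool.Agent.Cyl

open Set
open scoped Classical

theorem tube_convex (α β : Fn) (o : E) (ρ : ℝ) : Convex ℝ (tube α β o ρ) := by
  have key : ∀ f : Fn, Convex ℝ {y : E | |f (y - o)| ≤ ρ} := by
    intro f
    have : {y : E | |f (y - o)| ≤ ρ} = f ⁻¹' Icc (f o - ρ) (f o + ρ) := by
      ext y
      simp only [mem_ofPred_eq, map_sub, abs_le, mem_preimage, mem_Icc]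
      constructor
      · rintro ⟨h1, h2⟩
        constructor <;> linarith
      · rintro ⟨h1, h2⟩
        constructor <;> linarith
    rw [this]
    exact (convex_Icc _ _).linear_preimage f
  exact (key α).inter (key β)

theorem tube_lab_mono (Γ : Finset ℝ) {s t : ℝ} (h : s ≤ t) :
    Γ.filter (· ≤ s) ⊆ Γ.filter (· ≤ t) :=
  Finset.monotone_filter_right _ fun _ _ a => a.trans h

theorem tube_lab_convex (γ : Fn) (Γ : Finset ℝ) (n : ℕ) :
    Convex ℝ {x : E | (lab γ Γ x).card = n} := by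
  have h : OrdConnected {t : ℝ | (Γ.filter (· ≤ t)).card = n} := by
    refine ⟨fun s hs t ht u hu => ?_⟩
    have a := Finset.card_le_card (tube_lab_mono Γ hu.1)
    have b := Finset.card_le_card (tube_lab_mono Γ hu.2)
    simp only [mem_ofPred_eq] at hs ht ⊢
    omega
  exact h.convex.linear_preimage γ

theorem tube_lab_iff {γ : Fn} {Γ : Finset ℝ} {x y : E}
    (h : (lab γ Γ x).card = (lab γ Γ y).card) {t : ℝ} (ht : t ∈ Γ) : t ≤ γ x ↔ t ≤ γ y := by
  have e : lab γ Γ x = lab γ Γ y := by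
    rcases le_total (γ x) (γ y) with c | c
    · exact Finset.eq_of_subset_of_card_le (tube_lab_mono Γ c) h.ge
    · exact (Finset.eq_of_subset_of_card_le (tube_lab_mono Γ c) h.le).symm
  have := Finset.ext_iff.1 e t
  simpa [lab, ht] using this

theorem tube_card {ι W κ : Type} [Fintype ι] {l θ : ℝ} (hl : 0 ≤ l) (G : Geo ι W l θ) (w : W)
    (K : ι → Finset κ) (a : κ → E) {m C : ℕ}
    (P : ∀ i, Col (G.τ w i) (G.σ w i) (K i) a (100 * (l + 1)) m C) (i : ι) (o : E) :
    ((Lab.prod fun j => (P j).L).cl (tube (G.τ w i) (G.σ w i) o 4)).card ≤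
      (2 * ∑ j, (K j).card + 1) * (C + 1) ^ Fintype.card ι := by
  obtain ⟨γ, hγ⟩ := G.axis w i
  choose! q hq0 hq using hγ
  -- the centre and the half width of the window of the disc `k` of the family `j`
  set c : ι → κ → ℝ := fun j k => γ o + G.τ w j (a k - o) / q j with hc
  set ρ : ι → ℝ := fun j => 12 / |q j| with hρ
  set Γ : Finset ℝ := Finset.univ.biUnion fun j => (K j).biUnion fun k =>
    {c j k - ρ j, c j k + ρ j} with hΓ
  have hΓc : Γ.card ≤ 2 * ∑ j, (K j).card := by
    rw [Finset.mul_sum]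
    refine Finset.card_biUnion_le.trans (Finset.sum_le_sum fun j _ => ?_)
    rw [mul_comm]
    exact Finset.card_biUnion_le_card_mul _ _ _ fun k _ => Finset.card_le_two
  have hΓm : ∀ j, ∀ k ∈ K j, c j k - ρ j ∈ Γ ∧ c j k + ρ j ∈ Γ := fun j k hk =>
    ⟨Finset.mem_biUnion.2 ⟨j, Finset.mem_univ _, Finset.mem_biUnion.2 ⟨k, hk, by simp⟩⟩,
      Finset.mem_biUnion.2 ⟨j, Finset.mem_univ _, Finset.mem_biUnion.2 ⟨k, hk, by simp⟩⟩⟩
  set T := tube (G.τ w i) (G.σ w i) o 4 with hT
  set S : ℕ → Set E := fun n => T ∩ {x : E | (lab γ Γ x).card = n} with hS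
  have hTs : ∀ x ∈ T, ∀ y ∈ T, |G.τ w i (x - y)| ≤ 8 ∧ |G.σ w i (x - y)| ≤ 8 := by
    intro x hx y hy
    obtain ⟨h1, h2⟩ := hx
    obtain ⟨h3, h4⟩ := hy
    simp only [map_sub, abs_le] at h1 h2 h3 h4 ⊢
    refine ⟨⟨?_, ?_⟩, ?_, ?_⟩ <;> linarith [h1.1, h1.2, h2.1, h2.2, h3.1, h3.2, h4.1, h4.2]
  have hTq : ∀ j, i ≠ j → ∀ k, ∀ x ∈ T,
      |G.τ w j (x - a k) - q j * (γ x - c j k)| ≤ 8 := by
    intro j hj k x hx
    have h1 := hq j hj (x - o)
    have h0 := hq0 j hj
    have e : G.τ w j (x - a k) - q j * (γ x - c j k) = G.τ w j (x - o) - q j * γ (x - o) := by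
      simp only [hc, map_sub]
      field_simp
      ring
    rw [e]
    linarith [hx.1, hx.2]
  have hone : ∀ n j, ((P j).L.cl (S n)).card ≤ C + 1 := by
    intro n j
    by_cases hj : i = j
    · subst hj
      refine ((P i).loc _ fun x hx y hy => ?_).trans (Nat.le_succ _)
      obtain ⟨h1, h2⟩ := hTs x hx.1 y hy.1
      constructor <;> nlinarith
    have h0 : 0 < |q j| := abs_pos.2 (hq0 j hj)
    have hρq : |q j| * ρ j = 12 := by
      simp only [hρ]
      field_simp
    by_cases hA : ∃ k ∈ K j, ∃ x0 ∈ S n, |γ x0 - c j k| < ρ j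
    · obtain ⟨k, hk, x0, hx0, hlt⟩ := hA
      rw [abs_lt] at hlt
      have hall : ∀ x ∈ S n, |G.τ w j (x - a k)| ≤ 20 := by
        intro x hx
        have e : (lab γ Γ x).card = (lab γ Γ x0).card := hx.2.trans hx0.2.symm
        have a1 := (tube_lab_iff e (hΓm j k hk).1).2 (by linarith [hlt.1])
        have a2 : ¬ c j k + ρ j ≤ γ x := fun h =>
          absurd ((tube_lab_iff e (hΓm j k hk).2).1 h) (by linarith [hlt.2])
        have a3 : |γ x - c j k| ≤ ρ j := abs_le.2 ⟨by linarith, by linarith [not_le.1 a2]⟩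
        have a4 : |q j * (γ x - c j k)| ≤ 12 := by
          rw [abs_mul, ← hρq]
          exact mul_le_mul_of_nonneg_left a3 h0.le
        have a5 := hTq j hj k x hx.1
        rw [abs_le] at a4 a5 ⊢
        constructor <;> linarith [a4.1, a4.2, a5.1, a5.2]
      refine ((P j).loc _ fun x hx y hy => ?_).trans (Nat.le_succ _)
      have b1 : |G.τ w j (x - y)| ≤ 40 := by
        have h1 := hall x hx
        have h2 := hall y hy
        simp only [map_sub, abs_le] at h1 h2 ⊢
        constructor <;> linarith [h1.1, h1.2, h2.1, h2.2]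
      obtain ⟨b2, b3⟩ := hTs x hx.1 y hy.1
      have b4 := G.slope w i j (x - y) hj
      have b5 : l * (|G.τ w j (x - y)| + |G.τ w i (x - y)| + |G.σ w i (x - y)|) ≤ l * 56 :=
        mul_le_mul_of_nonneg_left (by linarith) hl
      constructor <;> nlinarith
    · have hfar : ∀ x ∈ S n, ∀ k ∈ K j, ¬ |G.τ w j (x - a k)| ≤ 3 := by
        intro x hx k hk h3
        have a3 : ρ j ≤ |γ x - c j k| := not_lt.1 fun h => hA ⟨k, hk, x, hx, h⟩
        have a4 : 12 ≤ |q j * (γ x - c j k)| := by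
          rw [abs_mul, ← hρq]
          exact mul_le_mul_of_nonneg_left a3 h0.le
        have a5 := hTq j hj k x hx.1
        have a6 := abs_sub_abs_le_abs_sub (q j * (γ x - c j k)) (G.τ w j (x - a k))
        rw [abs_sub_comm] at a6
        linarith
      have hsub : S n ⊆ (P j).L.G := by
        intro x hx
        by_contra hb
        rcases (P j).bad x hb with h | ⟨k, hk, h⟩
        · obtain ⟨k, hk, h'⟩ := (P j).near _ h
          exact hfar x hx k hk (by rwa [map_sub])
        · exact hfar x hx k hk h.1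
      have hconv : Convex ℝ (S n) := (tube_convex _ _ _ _).inter (tube_lab_convex γ Γ n)
      refine le_trans (Finset.card_le_one.2 fun R hR R' hR' => ?_) (Nat.le_add_left 1 C)
      obtain ⟨x, hx, -, rfl⟩ := Lab.mem_cl.1 hR
      obtain ⟨y, hy, -, rfl⟩ := Lab.mem_cl.1 hR'
      exact (P j).L.conn hconv.isPreconnected hsub hy hx
  have hcov := Lab.card_cl_le_sum (Lab.prod fun j => (P j).L) T (Finset.range (Γ.card + 1)) S
    fun x hx _ => ⟨(lab γ Γ x).card,
      Finset.mem_range.2 (Nat.lt_succ_of_le (Finset.card_filter_le _ _)), hx, rfl⟩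
  refine hcov.trans ((Finset.sum_le_card_nsmul _ _ ((C + 1) ^ Fintype.card ι) fun n _ => ?_).trans ?_)
  · refine (Lab.prod_card _ _).trans ?_
    rw [← Finset.card_univ, ← Finset.prod_const]
    exact Finset.prod_le_prod' fun j _ => hone n j
  · rw [Finset.card_range, smul_eq_mul]
    exact Nat.mul_le_mul_right _ (Nat.succ_le_succ hΓc)

end Pool.Agent.Cyl
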