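import Pool.Agent.P.MP_8a0bcd_co.Fin
import Pool.Agent.P.MP_8a0bcd_co.Env
import Pool.Agent.P.MP_8a0bcd_co.Plane
import Pool.Agent.P.MP_8a0bcd_co.Frame
import Pool.Agent.P.MP_8a0bcd_co.Tube
import Pool.Agent.P.MP_8a0bcd_co.Total
import Pool.Agent.P.MP_8a0bcd_co.RefC

/-! The partition of space. -/

set_option autoImplicit false

namespace Pool.Agent.Cyl

open Set
open scoped Classical

/-- Discs seen almost in a direction transversal to `w` are floors or ceilings. -/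
theorem core_side {ι W : Type} {l θ : ℝ} (h0 : 0 < θ) (h1 : θ ≤ 1) (G : Geo ι W l θ) (w₀ w : W)
    (i : ι) (R : Set E) (a z : E) (s : ℝ) (hs : s = 1 ∨ s = -1) (hz : G.Q i z = 1)
    (hw : θ ≤ |G.σ w i z|)
    (h : ∀ y ∈ R, |G.τ w₀ i (y - a - s • z)| ≤ θ ^ 2 / 4 ∧ |G.σ w₀ i (y - a - s • z)| ≤ θ ^ 2 / 4) :
    (∀ y ∈ R, |G.τ w i (y - a)| ≤ 1) ∧
      ((∀ y ∈ R, 0 ≤ G.σ w i (y - a)) ∨ ∀ y ∈ R, G.σ w i (y - a) ≤ 0) := by
  have e : ∀ y ∈ R, |G.τ w i (y - a) - s * G.τ w i z| ≤ θ ^ 2 / 2 ∧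
      |G.σ w i (y - a) - s * G.σ w i z| ≤ θ ^ 2 / 2 := by
    intro y hy
    have a1 := G.form w₀ i (y - a - s • z)
    have a2 := G.form w i (y - a - s • z)
    have a3 := sq_le_sq' (abs_le.1 (h y hy).1).1 (abs_le.1 (h y hy).1).2
    have a4 := sq_le_sq' (abs_le.1 (h y hy).2).1 (abs_le.1 (h y hy).2).2
    rw [map_sub (G.τ w i) (y - a), map_sub (G.σ w i) (y - a), map_smul, map_smul, smul_eq_mul,
      smul_eq_mul] at a2
    have p : 0 ≤ θ ^ 2 / 2 := by positivity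
    constructor
    · refine abs_le_of_sq_le_sq' ?_ p |> abs_le.2
      nlinarith [sq_nonneg (G.σ w i (y - a) - s * G.σ w i z), sq_nonneg (θ ^ 2)]
    · refine abs_le_of_sq_le_sq' ?_ p |> abs_le.2
      nlinarith [sq_nonneg (G.τ w i (y - a) - s * G.τ w i z), sq_nonneg (θ ^ 2)]
  have a1 := G.form w i z
  have a2 : θ ^ 2 ≤ G.σ w i z ^ 2 := by
    rw [← sq_abs (G.σ w i z)]
    exact pow_le_pow_left₀ h0.le hw 2
  have a3 : |G.τ w i z| ≤ 1 - θ ^ 2 / 2 := by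
    refine abs_le.2 (abs_le_of_sq_le_sq' ?_ (by nlinarith))
    nlinarith [sq_nonneg (θ ^ 2)]
  have a4 : θ ^ 2 / 2 ≤ θ := by nlinarith
  rw [abs_le] at a3
  refine ⟨fun y hy => ?_, ?_⟩
  · have := abs_le.1 (e y hy).1
    rcases hs with rfl | rfl <;> exact abs_le.2 ⟨by linarith, by linarith⟩
  · rcases le_abs.1 hw with b | b <;> rcases hs with rfl | rfl
    · exact Or.inl fun y hy => by linarith [(abs_le.1 (e y hy).2).1]
    · exact Or.inr fun y hy => by linarith [(abs_le.1 (e y hy).2).2]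
    · exact Or.inr fun y hy => by linarith [(abs_le.1 (e y hy).2).2]
    · exact Or.inl fun y hy => by linarith [(abs_le.1 (e y hy).2).1]

theorem core_arith (c m N w C n : ℕ) (hm : m ≤ c) (hw : w ≤ N) :
    n * ((2 * n + 1) * (C + 1) ^ m) + (C * n + 1) ^ 2 + 2 * n * ((2 * n + 1) * (C + 1) ^ m) +
      w * C ^ m * (2 * C * n) ^ 2 ≤
      (6 * (C + 1) ^ c + (C + 1) ^ 2 + N * (C + 1) ^ c * (2 * C) ^ 2) * (n + 1) ^ 2 := by
  have a1 : (C + 1) ^ m ≤ (C + 1) ^ c := Nat.pow_le_pow_right (Nat.succ_pos _) hm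
  have a2 : C ^ m ≤ (C + 1) ^ c := (Nat.pow_le_pow_left (Nat.le_succ _) _).trans a1
  have a3 : 3 * (n * (2 * n + 1)) * (C + 1) ^ m ≤ 6 * (n + 1) ^ 2 * (C + 1) ^ c :=
    Nat.mul_le_mul (by nlinarith) a1
  have a4 : (C * n + 1) ^ 2 ≤ ((C + 1) * (n + 1)) ^ 2 := Nat.pow_le_pow_left (by nlinarith) _
  have a5 : w * C ^ m * (2 * C * n) ^ 2 ≤ N * (C + 1) ^ c * (2 * C * (n + 1)) ^ 2 :=
    Nat.mul_le_mul (Nat.mul_le_mul hw a2)
      (Nat.pow_le_pow_left (Nat.mul_le_mul_left _ (Nat.le_succ _)) _)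
  calc _ = 3 * (n * (2 * n + 1)) * (C + 1) ^ m + (C * n + 1) ^ 2 +
        w * C ^ m * (2 * C * n) ^ 2 := by ring
    _ ≤ 6 * (n + 1) ^ 2 * (C + 1) ^ c + ((C + 1) * (n + 1)) ^ 2 +
        N * (C + 1) ^ c * (2 * C * (n + 1)) ^ 2 := add_le_add (add_le_add a3 a4) a5
    _ = _ := by ring

theorem core (c : ℕ) : ∃ m C : ℕ, ∀ (n : ℕ) (F : Family c n), IsOpen F.free ∧ ∃ L : Lab,
    L.PolyB m ∧ (L.cl univ).card ≤ C * (n + 1) ^ 2 ∧
      ∀ x ∈ L.G, ∃ T : Finset (E → ℝ), T.card ≤ 2 * c + 1 ∧ (∀ g ∈ T, Quad g) ∧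
        ∀ y ∈ L.cls x, (y ∈ F.free ↔ ∀ g ∈ T, 0 < g y) := by
  obtain ⟨N, l, θ, hl, h0, h1, hgeo⟩ := exists_geo c
  obtain ⟨m₁, C, hpl⟩ := exists_pl (θ ^ 2 / 4) (100 * (l + 1)) (by positivity)
  refine ⟨c * m₁ + c * 2, 6 * (C + 1) ^ c + (C + 1) ^ 2 + N * (C + 1) ^ c * (2 * C) ^ 2,
    fun n F => ?_⟩
  obtain ⟨m, dir, f, hm, hd0, hd1, hcyl⟩ := norm_dirs F
  obtain ⟨W, G, ⟨w₁, hw₁⟩, hQ⟩ := hgeo m dir F.r hm F.r_pos hd0 hd1
  let w₀ : W := ⟨w₁, hw₁⟩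
  let K : Fin m → Finset (Fin n) := fun i => Finset.univ.filter fun k => f k = i
  have hK : ∑ j, (K j).card = n := by
    rw [← Finset.card_eq_sum_card_fiberwise (fun k _ => Finset.mem_univ (f k))]
    simp
  have hdisc : ∀ w i k y, y ∈ disc (G.τ w i) (G.σ w i) (F.a k) ↔ G.Q i (y - F.a k) ≤ 1 :=
    fun w i k y => by rw [← G.form w]; rfl
  have hfree : ∀ y, y ∈ F.free ↔ ∀ k, 1 < G.Q (f k) (y - F.a k) := by
    intro y
    simp only [Family.free, mem_compl_iff, mem_iUnion, not_exists, hcyl, hQ, not_le]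
  refine ⟨?_, ?_⟩
  · have : F.free = ⋂ k, {y | 1 < G.τ w₀ (f k) (y - F.a k) ^ 2 + G.σ w₀ (f k) (y - F.a k) ^ 2} := by
      ext y
      simp only [hfree, mem_iInter, mem_ofPred_eq, G.form]
    rw [this]
    refine isOpen_iInter_of_finite fun k => isOpen_lt continuous_const ?_
    have a := Fn.cont (G.τ w₀ (f k))
    have b := Fn.cont (G.σ w₀ (f k))
    fun_prop
  have P : ∀ i, Pl (G.τ w₀ i) (G.σ w₀ i) (K i) F.a (θ ^ 2 / 4) (100 * (l + 1)) m₁ C :=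
    fun i => (hpl _ _ _ (K i) F.a (G.onto w₀ i)).some
  let L₀ : Lab := Lab.prod fun j => (P j).L
  let comp : Fin m → Set E → Set E := fun i R => (P i).L.cls (Classical.epsilon (· ∈ R))
  have hcomp : ∀ x ∈ L₀.G, ∀ i, comp i (L₀.cls x) = (P i).L.cls x := by
    intro x hx i
    have a := Classical.epsilon_spec (p := (· ∈ L₀.cls x)) ⟨x, L₀.mem x hx⟩
    exact (P i).L.eq x ((Lab.mem_prod _).1 hx i) _ (mem_iInter.1 a i)
  have hz : ∀ i R, G.Q i ((P i).z R) = 1 := fun i R => by rw [← G.form w₀]; exact (P i).unit R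
  choose w hw using fun R : Set E => G.pick (fun i => (P i).z (comp i R)) fun i => hz i _
  have env : ∀ (i : Fin m) (R : Set E) (w : W), ∃ Θ : Finset ℝ,
      Θ.card ≤ 2 * ((P i).J R).card ∧ (R ∈ (P i).L.cl univ → θ ≤ |G.σ w i ((P i).z R)| →
        ∀ x ∈ R, G.τ w i x ∉ Θ → ∃ J' ⊆ (P i).J R, J'.card ≤ 2 ∧
          ∀ y ∈ R, y ∈ slab (G.τ w i) Θ x → ∀ k ∈ (P i).J R,
            y ∈ disc (G.τ w i) (G.σ w i) (F.a k) →
              ∃ k' ∈ J', y ∈ disc (G.τ w i) (G.σ w i) (F.a k')) := by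
    intro i R w
    by_cases h : R ∈ (P i).L.cl univ ∧ θ ≤ |G.σ w i ((P i).z R)|
    swap
    · exact ⟨∅, by simp, fun a b => absurd ⟨a, b⟩ h⟩
    obtain ⟨hR, hw⟩ := h
    obtain ⟨x, -, hx, rfl⟩ := Lab.mem_cl.1 hR
    obtain ⟨Θ, a, b⟩ := env_two (G.τ w i) (G.σ w i) ((P i).J ((P i).L.cls x)) F.a ((P i).L.cls x)
      fun k hk => by
        obtain ⟨s, hs, c⟩ := ((P i).nice x hx).1 k hk
        exact core_side h0 h1 G w₀ w i _ _ _ s hs (hz i _) hw c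
    exact ⟨Θ, a, fun _ _ => b⟩
  choose A hA hA' using env
  have hne : ∀ R i, (A i (comp i R) (w R)).Nonempty → G.τ (w R) i ≠ 0 := by
    intro R i _ h
    obtain ⟨z, a, -⟩ := G.onto (w R) i 1 0
    simp [h] at a
  refine ⟨L₀.refine (fun R i => G.τ (w R) i) (fun R i => A i (comp i R) (w R)) hne, ?_, ?_, ?_⟩
  · intro x hx
    refine (Lab.refine_poly _ _ _ hne (Lab.prod_poly _ fun i => (P i).poly) x hx).mono ?_
    rw [Fintype.card_fin]
    exact add_le_add (Nat.mul_le_mul_right _ hm) (Nat.mul_le_mul_right _ hm)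
  · have hB := tube_card hl G w₀ K F.a fun i => (P i).toCol
    have t1 := total_card G w₀ K F.a (fun i => (P i).toCol) _ hB
    have t2 := refine_count hl (by nlinarith) G w₀ K F.a P _ hB A hA w comp hcomp hne
    rw [hK, Fintype.card_fin] at t1 t2
    refine (t2.trans ?_).trans (core_arith c m N (Fintype.card W) C n hm ?_)
    · exact add_le_add (add_le_add t1 le_rfl) le_rfl
    · simpa using W.card_le_univ
  · intro x hx
    have hx' := (Lab.mem_prod _).1 hx.1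
    have hsub : ∀ y ∈ (L₀.refine (fun R i => G.τ (w R) i) (fun R i => A i (comp i R) (w R))
        hne).cls x, ∀ i, y ∈ (P i).L.cls x ∧
          y ∈ slab (G.τ (w (L₀.cls x)) i) (A i ((P i).L.cls x) (w (L₀.cls x))) x := by
      intro y hy i
      refine ⟨mem_iInter.1 hy.1 i, ?_⟩
      rw [← hcomp x hx.1 i]
      exact mem_iInter.1 hy.2 i
    by_cases hfull : ∃ i, ∀ y ∈ (P i).L.cls x, ∃ k ∈ K i, y ∈ disc (G.τ w₀ i) (G.σ w₀ i) (F.a k)
    · obtain ⟨i, hi⟩ := hfull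
      refine ⟨{fun _ => -1}, by simp, by simpa using quad_const (-1), fun y hy => ?_⟩
      obtain ⟨k, a, b⟩ := hi y (hsub y hy i).1
      refine iff_of_false (fun c => ?_) (by simp)
      have d := (hfree y).1 c k
      rw [(Finset.mem_filter.1 a).2] at d
      exact d.not_ge ((hdisc _ _ _ _).1 b)
    have dec : ∀ i, ∀ y ∈ (P i).L.cls x, ∀ k ∈ K i, y ∈ disc (G.τ w₀ i) (G.σ w₀ i) (F.a k) →
        ∃ k' ∈ (P i).J ((P i).L.cls x), y ∈ disc (G.τ w₀ i) (G.σ w₀ i) (F.a k') :=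
      fun i => ((P i).nice x (hx' i)).2.resolve_left fun h => hfull ⟨i, h⟩
    choose J' j1 j2 j3 using fun i => hA' i ((P i).L.cls x) (w (L₀.cls x))
      (Lab.cls_mem_cl (mem_univ x) (hx' i)) (by rw [← hcomp x hx.1 i]; exact hw _ i) x
      ((P i).L.mem x (hx' i)) (by rw [← hcomp x hx.1 i]; exact hx.2 i)
    refine ⟨Finset.univ.biUnion fun i => (J' i).image fun k y =>
      G.τ w₀ i (y - F.a k) ^ 2 + G.σ w₀ i (y - F.a k) ^ 2 - 1, ?_, ?_, fun y hy => ?_⟩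
    · refine (Finset.card_biUnion_le_card_mul _ _ 2 fun i _ =>
        Finset.card_image_le.trans (j2 i)).trans ?_
      rw [Finset.card_univ, Fintype.card_fin]
      omega
    · intro g hg
      obtain ⟨i, -, a⟩ := Finset.mem_biUnion.1 hg
      obtain ⟨k, -, rfl⟩ := Finset.mem_image.1 a
      exact quad_disc _ _ _
    · rw [hfree]
      constructor
      · intro h g hg
        obtain ⟨i, -, a⟩ := Finset.mem_biUnion.1 hg
        obtain ⟨k, b, rfl⟩ := Finset.mem_image.1 a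
        have d := h k
        rw [(Finset.mem_filter.1 ((P i).sub _ (j1 i b))).2, ← G.form w₀] at d
        exact sub_pos.2 d
      · intro h k
        by_contra d
        obtain ⟨k₁, a, b⟩ := dec (f k) y (hsub y hy _).1 k
          (Finset.mem_filter.2 ⟨Finset.mem_univ _, rfl⟩) ((hdisc _ _ _ _).2 (not_lt.1 d))
        obtain ⟨k₂, a', b'⟩ := j3 (f k) y (hsub y hy _).1 (hsub y hy _).2 k₁ a
          ((hdisc _ _ _ _).2 ((hdisc _ _ _ _).1 b))
        have e := h _ (Finset.mem_biUnion.2 ⟨f k, Finset.mem_univ _, Finset.mem_image_of_mem _ a'⟩)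
        have e' := (hdisc _ _ _ _).1 b'
        rw [← G.form w₀] at e'
        exact (sub_pos.1 e).not_ge e'


end Pool.Agent.Cyl
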