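import Mathlib

/-! Statement layer: cylinders, cells of constant description complexity, decompositions. -/

set_option autoImplicit false

namespace Pool.Agent.Cyl

/-- The solid cylinder of radius `r` around the line through `a` with direction `d`: the points
at Euclidean distance at most `r` from some point `a + t d` of the line. -/
def cyl (a d : Fin 3 → ℝ) (r : ℝ) : Set (Fin 3 → ℝ) :=
  {x | ∃ t : ℝ, ∑ i, (x i - (a i + t * d i)) ^ 2 ≤ r ^ 2}

/-- Membership in `S` is decided by the signs of `s` real polynomials of degree at most `b`. -/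
def Cx (s b : ℕ) (S : Set (Fin 3 → ℝ)) : Prop :=
  ∃ (p : Fin s → MvPolynomial (Fin 3) ℝ) (Φ : Set (Fin s → SignType)),
    (∀ i, (p i).totalDegree ≤ b) ∧
      S = {x | (fun i => SignType.sign (MvPolynomial.eval x (p i))) ∈ Φ}

/-- `X` has a decomposition into `N` cells of description complexity `(s, b)`. -/
def Decomp (s b N : ℕ) (X : Set (Fin 3 → ℝ)) : Prop :=
  ∃ cell : Fin N → Set (Fin 3 → ℝ), (∀ j, Cx s b (cell j)) ∧
    (Pairwise fun j j' => Disjoint (interior (cell j)) (interior (cell j'))) ∧
    (∀ j, cell j ⊆ closure X) ∧ ⋃ j, cell j = closure X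

/-- The least number of cells of a decomposition of `X` (`⊤` if there is none). -/
noncomputable def minCells (s b : ℕ) (X : Set (Fin 3 → ℝ)) : ℕ∞ :=
  ⨅ (N : ℕ) (_ : Decomp s b N X), (N : ℕ∞)

/-- `n` distinct congruent cylinders whose axes have at most `c` directions. -/
structure Family (c n : ℕ) where
  /-- the common radius -/
  r : ℝ
  /-- a point of the axis -/
  a : Fin n → Fin 3 → ℝ
  /-- the direction of the axis -/
  d : Fin n → Fin 3 → ℝ
  r_pos : 0 < r
  d_ne : ∀ k, d k ≠ 0
  few : (Set.range d).ncard ≤ c
  inj : Function.Injective fun k => cyl (a k) (d k) r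

/-- The complement of the union of the cylinders. -/
def Family.free {c n : ℕ} (F : Family c n) : Set (Fin 3 → ℝ) := (⋃ k, cyl (F.a k) (F.d k) F.r)ᶜ

/-- The function `f` of the problem, for families with at most `c` directions. -/
noncomputable def fc (c s b n : ℕ) : ℕ∞ := ⨆ F : Family c n, minCells s b F.free

end Pool.Agent.Cyl
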