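import Pool.Agent.P.MP_8a0bcd_co.Clos

/-! From a polyhedral partition to a decomposition. -/

set_option autoImplicit false

namespace Pool.Agent.Cyl

open Set
open scoped Classical

theorem Cx.mono {s s' b b' : ℕ} {S : Set E} (h : Cx s b S) (hs : s ≤ s') (hb : b ≤ b') :
    Cx s' b' S := by
  obtain ⟨p, Φ, hp, rfl⟩ := h
  refine ⟨fun i => if h : i.1 < s then p ⟨i.1, h⟩ else 0,
    {v | (fun i : Fin s => v (Fin.castLE hs i)) ∈ Φ}, fun i => ?_, ?_⟩
  · by_cases h : i.1 < s
    · simp only [dif_pos h]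
      exact (hp _).trans hb
    · simp [dif_neg h]
  · ext x
    simp

theorem quad_const (c : ℝ) : Quad fun _ => c := by
  exact ⟨0, 0, c, fun x => by simp⟩

theorem fin_lin (l : Fn) : ∃ u : Fin 3 → ℝ, ∀ x, l x = ∑ i, u i * x i :=
  ⟨fun i => l fun j => if i = j then 1 else 0, fun x => by
    rw [LinearMap.pi_apply_eq_sum_univ l x]
    exact Finset.sum_congr rfl fun i _ => by rw [smul_eq_mul, mul_comm]⟩

theorem quad_half (l : Fn) (c : ℝ) : Quad fun x => l x - c := by
  obtain ⟨u, hu⟩ := fin_lin l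
  exact ⟨0, u, -c, fun x => by simp [hu, sub_eq_add_neg]⟩

theorem quad_disc (α β : Fn) (a : E) : Quad fun x => α (x - a) ^ 2 + β (x - a) ^ 2 - 1 := by
  obtain ⟨u, hu⟩ := fin_lin α
  obtain ⟨v, hv⟩ := fin_lin β
  refine ⟨fun i j => u i * u j + v i * v j, fun i => -2 * α a * u i - 2 * β a * v i,
    α a ^ 2 + β a ^ 2 - 1, fun x => ?_⟩
  simp only [map_sub]
  rw [hu x, hv x]
  simp only [Fin.sum_univ_three]
  ring

/-- If on every class the open set `X` is cut out by few quadrics, the closures of the traces of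
the classes on `X` form a decomposition. -/
theorem decomp_of_lab (m c : ℕ) : ∃ s₀ b₀ : ℕ, ∀ s, s₀ ≤ s → ∀ b, b₀ ≤ b →
    ∀ (X : Set E) (L : Lab), IsOpen X → L.PolyB m →
      (∀ x ∈ L.G, ∃ T : Finset (E → ℝ), T.card ≤ c ∧ (∀ g ∈ T, Quad g) ∧
        ∀ y ∈ L.cls x, (y ∈ X ↔ ∀ g ∈ T, 0 < g y)) →
      Decomp s b (L.cl univ).card X := by
  obtain ⟨s₀, b₀, H⟩ := closure_cx (m + c)
  refine ⟨s₀, b₀, fun s hs b hb X L hX hm hc => ?_⟩
  let e := (L.cl univ).equivFin
  have rep : ∀ j, ∃ x ∈ L.G, L.cls x = (e.symm j).1 := fun j => by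
    obtain ⟨x, -, h⟩ := Lab.mem_cl.1 (e.symm j).2
    exact ⟨x, h⟩
  have op : ∀ j, IsOpen ((e.symm j).1 ∩ X) := fun j => by
    obtain ⟨x, h1, h2⟩ := rep j
    exact (h2 ▸ L.isOpen h1).inter hX
  refine ⟨fun j => closure ((e.symm j).1 ∩ X), fun j => ?_, fun j j' hne => ?_,
    fun j => closure_mono inter_subset_right, ?_⟩
  · obtain ⟨x, h1, h2⟩ := rep j
    obtain ⟨T, hT, hq, hy⟩ := hc x h1
    obtain ⟨P, hP, hcl⟩ := hm x h1
    have := H ((P.image fun h => fun y => h.1 y - h.2) ∪ T)
      ((Finset.card_union_le _ _).trans (add_le_add (Finset.card_image_le.trans hP) hT)) (by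
        intro g hg
        rcases Finset.mem_union.1 hg with hg | hg
        · obtain ⟨h, -, rfl⟩ := Finset.mem_image.1 hg
          exact quad_half _ _
        · exact hq g hg)
    refine Cx.mono ?_ hs hb
    have heq : (e.symm j).1 ∩ X =
        {y | ∀ g ∈ (P.image fun h => fun y => h.1 y - h.2) ∪ T, 0 < g y} := by
      rw [← h2]
      ext y
      have h3 : y ∈ L.cls x ↔ ∀ g ∈ (P.image fun h => fun y => h.1 y - h.2), 0 < g y := by
        rw [hcl]
        simp only [mem_ofPred_eq, Finset.forall_mem_image, sub_pos]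
      simp only [mem_inter_iff, mem_ofPred_eq, Finset.mem_union, or_imp, forall_and]
      rw [← h3]
      exact and_congr_right fun h => hy y h
    simp only [heq]
    exact this
  · obtain ⟨x, h1, h2⟩ := rep j
    obtain ⟨x', h1', h2'⟩ := rep j'
    have hd : Disjoint ((e.symm j).1 ∩ X) ((e.symm j').1 ∩ X) := by
      refine Disjoint.mono inter_subset_left inter_subset_left ?_
      rw [← h2, ← h2']
      refine L.disjoint h1 h1' fun h => hne (e.symm.injective (Subtype.ext ?_))
      rw [← h2, ← h2', h]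
    have h3 := (hd.closure_left (op j')).mono_left interior_subset
    exact (h3.closure_right isOpen_interior).mono_right interior_subset
  · rw [← closure_iUnion_of_finite]
    refine Subset.antisymm (closure_mono (iUnion_subset fun j => inter_subset_right)) ?_
    refine closure_minimal ?_ isClosed_closure
    have hd : Dense L.G := by simpa using L.thin.dense
    refine (hd.open_subset_closure_inter hX).trans (closure_mono fun y hy => ?_)
    refine mem_iUnion.2 ⟨e ⟨L.cls y, Lab.cls_mem_cl (mem_univ _) hy.2⟩, ?_, hy.1⟩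
    rw [Equiv.symm_apply_apply]
    exact L.mem y hy.2

theorem fin_cyl_sub {a u v : E} {r : ℝ} (h : u ∈ Submodule.span ℝ {v}) :
    cyl a u r ⊆ cyl a v r := by
  obtain ⟨s, rfl⟩ := Submodule.mem_span_singleton.1 h
  rintro x ⟨t, ht⟩
  refine ⟨t * s, ?_⟩
  simpa only [Pi.smul_apply, smul_eq_mul, mul_assoc] using ht

/-- Parallel directions are replaced by one representative. -/
theorem norm_dirs {c n : ℕ} (F : Family c n) : ∃ (m : ℕ) (dir : Fin m → E) (f : Fin n → Fin m),
    m ≤ c ∧ (∀ i, dir i ≠ 0) ∧ (∀ i j, i ≠ j → ∀ t : ℝ, dir i ≠ t • dir j) ∧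
      ∀ k, cyl (F.a k) (F.d k) F.r = cyl (F.a k) (dir (f k)) F.r := by
  let D : Finset (Submodule ℝ E) := (Finset.univ.image F.d).image fun v => Submodule.span ℝ {v}
  have mem : ∀ k, Submodule.span ℝ {F.d k} ∈ D := fun k =>
    Finset.mem_image_of_mem _ (Finset.mem_image_of_mem _ (Finset.mem_univ k))
  let e := D.equivFin
  have rep : ∀ i, ∃ k, Submodule.span ℝ {F.d k} = (e.symm i).1 := fun i => by
    obtain ⟨v, hv, h⟩ := Finset.mem_image.1 (e.symm i).2
    obtain ⟨k, -, rfl⟩ := Finset.mem_image.1 hv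
    exact ⟨k, h⟩
  choose g hg using rep
  refine ⟨D.card, fun i => F.d (g i), fun k => e ⟨_, mem k⟩, ?_, fun i => F.d_ne _,
    fun i j hne t ht => ?_, fun k => ?_⟩
  · refine Finset.card_image_le.trans (le_trans (le_of_eq ?_) F.few)
    rw [← Set.ncard_coe_finset, Finset.coe_image, Finset.coe_univ, image_univ]
  · have ht0 : t ≠ 0 := by
      rintro rfl
      exact F.d_ne _ (by simpa using ht)
    refine hne (e.symm.injective (Subtype.ext ?_))
    have ht' : F.d (g i) = t • F.d (g j) := ht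
    rw [← hg, ← hg, ht', Submodule.span_singleton_smul_eq (IsUnit.mk0 t ht0)]
  · have h := hg (e ⟨_, mem k⟩)
    rw [Equiv.symm_apply_apply] at h
    have h' : Submodule.span ℝ {F.d (g (e ⟨_, mem k⟩))} = Submodule.span ℝ {F.d k} := h
    refine Subset.antisymm (fin_cyl_sub ?_) (fin_cyl_sub ?_)
    · rw [h']; exact Submodule.mem_span_singleton_self _
    · rw [← h']; exact Submodule.mem_span_singleton_self _

end Pool.Agent.Cyl
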