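import Pool.Agent.P.MP_8a0bcd_co.St

/-! Two layers of cylinders with quadratically many pockets. -/

set_option autoImplicit false

namespace Pool.Agent.Cyl

open Set
open scoped Classical

/-- squared distance to the axis number `k` -/
noncomputable def gridG (k : ℕ) (x : E) : ℝ :=
  if k % 2 = 0 then (x 1 - 19 / 10 * (k / 2 : ℕ)) ^ 2 + (x 2 + 9 / 20) ^ 2
  else (x 0 - 19 / 10 * (k / 2 : ℕ)) ^ 2 + (x 2 - 9 / 20) ^ 2

/-- a point of the axis number `k` -/
noncomputable def gridA (k : ℕ) : E :=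
  if k % 2 = 0 then ![0, 19 / 10 * (k / 2 : ℕ), -(9 / 20)] else ![19 / 10 * (k / 2 : ℕ), 0, 9 / 20]

/-- the direction of the axis number `k` -/
def gridD (k : ℕ) : E := if k % 2 = 0 then ![1, 0, 0] else ![0, 1, 0]

lemma grid_mem (k : ℕ) (x : E) : x ∈ cyl (gridA k) (gridD k) 1 ↔ gridG k x ≤ 1 := by
  unfold cyl gridA gridD gridG
  split_ifs with h
  · simp only [mem_setOf_eq, Fin.sum_univ_three, Matrix.cons_val_zero, Matrix.cons_val_one,
      Matrix.cons_val_two, Matrix.head_cons, Matrix.tail_cons]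
    constructor
    · rintro ⟨t, ht⟩
      nlinarith [sq_nonneg (x 0 - (0 + t * 1))]
    · intro ht
      exact ⟨x 0, by nlinarith⟩
  · simp only [mem_setOf_eq, Fin.sum_univ_three, Matrix.cons_val_zero, Matrix.cons_val_one,
      Matrix.cons_val_two, Matrix.head_cons, Matrix.tail_cons]
    constructor
    · rintro ⟨t, ht⟩
      nlinarith [sq_nonneg (x 1 - (0 + t * 1))]
    · intro ht
      exact ⟨x 1, by nlinarith⟩

lemma grid_cont (k : ℕ) : Continuous (gridG k) := by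
  unfold gridG
  split_ifs <;> fun_prop

lemma grid_even (m : ℕ) (x : E) :
    gridG (2 * m) x = (x 1 - 19 / 10 * m) ^ 2 + (x 2 + 9 / 20) ^ 2 := by
  rw [gridG, if_pos (by omega), show 2 * m / 2 = m by omega]

lemma grid_odd (m : ℕ) (x : E) :
    gridG (2 * m + 1) x = (x 0 - 19 / 10 * m) ^ 2 + (x 2 - 9 / 20) ^ 2 := by
  rw [gridG, if_neg (by omega), show (2 * m + 1) / 2 = m by omega]

lemma grid_nat {m m' : ℕ} (h : (19 / 10 * (m : ℝ) - 19 / 10 * m') ^ 2 ≤ 1) : m = m' := by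
  rcases lt_trichotomy m m' with hl | he | hl
  · have : (m : ℝ) + 1 ≤ m' := by exact_mod_cast hl
    nlinarith
  · exact he
  · have : (m' : ℝ) + 1 ≤ m := by exact_mod_cast hl
    nlinarith

lemma grid_inj {k k' : ℕ} (h : ∀ x, gridG k x ≤ 1 ↔ gridG k' x ≤ 1) : k = k' := by
  obtain ⟨m, rfl | rfl⟩ := Nat.even_or_odd' k <;> obtain ⟨m', rfl | rfl⟩ := Nat.even_or_odd' k' <;>
    simp only [grid_even, grid_odd] at h
  · have := (h ![0, 19 / 10 * m, -(9 / 20)]).1 (by simp)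
    simp only [Matrix.cons_val_one, Matrix.cons_val_two, Matrix.head_cons, Matrix.tail_cons,
      Matrix.cons_val_zero] at this
    rw [grid_nat (m := m) (m' := m') (by nlinarith)]
  · have := (h ![19 / 10 * m' + 2, 19 / 10 * m, -(9 / 20)]).1 (by simp)
    simp only [Matrix.cons_val_one, Matrix.cons_val_two, Matrix.head_cons, Matrix.tail_cons,
      Matrix.cons_val_zero] at this
    nlinarith
  · have := (h ![19 / 10 * m + 2, 19 / 10 * m', -(9 / 20)]).2 (by simp)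
    simp only [Matrix.cons_val_one, Matrix.cons_val_two, Matrix.head_cons, Matrix.tail_cons,
      Matrix.cons_val_zero] at this
    nlinarith
  · have := (h ![19 / 10 * m, 0, 9 / 20]).1 (by simp)
    simp only [Matrix.cons_val_one, Matrix.cons_val_two, Matrix.head_cons, Matrix.tail_cons,
      Matrix.cons_val_zero] at this
    rw [grid_nat (m := m) (m' := m') (by nlinarith)]

/-- the family of two layers -/
noncomputable def gridF {c : ℕ} (hc : 2 ≤ c) (n : ℕ) : Family c n where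
  r := 1
  a k := gridA k
  d k := gridD k
  r_pos := one_pos
  d_ne k := by
    unfold gridD
    split_ifs
    · intro h; simpa using congrFun h 0
    · intro h; simpa using congrFun h 1
  few := by
    have h : (Set.range fun k : Fin n => gridD k) ⊆ {![1, 0, 0], ![0, 1, 0]} := by
      rintro _ ⟨k, rfl⟩
      simp only [gridD]
      split_ifs <;> simp
    refine (Set.ncard_le_ncard h (Set.toFinite _)).trans (le_trans ?_ hc)
    exact (Set.ncard_insert_le _ _).trans (by simp)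
  inj k k' h := Fin.ext (grid_inj fun x => by
    rw [← grid_mem, ← grid_mem]
    exact Set.ext_iff.1 h x)

lemma grid_free {c n : ℕ} (hc : 2 ≤ c) :
    (gridF hc n).free = ⋂ k : Fin n, {x | 1 < gridG k x} := by
  ext x
  simp only [Family.free, gridF, mem_compl_iff, mem_iUnion, not_exists, grid_mem, not_le,
    mem_iInter, mem_setOf_eq]

lemma grid_closure {c n : ℕ} (hc : 2 ≤ c) {x : E} (hx : x ∈ closure (gridF hc n).free) {k : ℕ}
    (hk : k < n) : 1 ≤ gridG k x := by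
  have h : closure (gridF hc n).free ⊆ {x | 1 ≤ gridG k x} := by
    refine closure_minimal ?_ (isClosed_le continuous_const (grid_cont k))
    rw [grid_free]
    intro y hy
    have h1 : 1 < gridG k y := mem_iInter.1 hy ⟨k, hk⟩
    exact h1.le
  exact h hx

/-- open box -/
def gridB (i : ℕ × ℕ) : Set E :=
  {x | (19 / 10 * (i.1 : ℝ) < x 0 ∧ x 0 < 19 / 10 * (i.1 + 1)) ∧
    (19 / 10 * (i.2 : ℝ) < x 1 ∧ x 1 < 19 / 10 * (i.2 + 1)) ∧ -(9 / 20) < x 2 ∧ x 2 < 9 / 20}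

/-- closed box -/
def gridC (i : ℕ × ℕ) : Set E :=
  {x | (19 / 10 * (i.1 : ℝ) ≤ x 0 ∧ x 0 ≤ 19 / 10 * (i.1 + 1)) ∧
    (19 / 10 * (i.2 : ℝ) ≤ x 1 ∧ x 1 ≤ 19 / 10 * (i.2 + 1)) ∧ -(9 / 20) ≤ x 2 ∧ x 2 ≤ 9 / 20}

lemma grid_open (i : ℕ × ℕ) : IsOpen (gridB i) := by
  have o1 : ∀ (j : Fin 3) (a : ℝ), IsOpen {x : E | a < x j} := fun j a =>
    isOpen_lt continuous_const (by fun_prop)
  have o2 : ∀ (j : Fin 3) (a : ℝ), IsOpen {x : E | x j < a} := fun j a =>
    isOpen_lt (by fun_prop) continuous_const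
  exact ((o1 _ _).inter (o2 _ _)).inter (((o1 _ _).inter (o2 _ _)).inter ((o1 _ _).inter (o2 _ _)))

lemma grid_closed (i : ℕ × ℕ) : IsClosed (gridC i) := by
  have o1 : ∀ (j : Fin 3) (a : ℝ), IsClosed {x : E | a ≤ x j} := fun j a =>
    isClosed_le continuous_const (by fun_prop)
  have o2 : ∀ (j : Fin 3) (a : ℝ), IsClosed {x : E | x j ≤ a} := fun j a =>
    isClosed_le (by fun_prop) continuous_const
  exact ((o1 _ _).inter (o2 _ _)).inter (((o1 _ _).inter (o2 _ _)).inter ((o1 _ _).inter (o2 _ _)))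

lemma grid_bdd (i : ℕ × ℕ) : Bornology.IsBounded (gridB i) := by
  refine (Metric.isBounded_Icc (![19 / 10 * (i.1 : ℝ), 19 / 10 * (i.2 : ℝ), -(9 / 20)] : E)
    ![19 / 10 * (i.1 + 1), 19 / 10 * (i.2 + 1), 9 / 20]).subset ?_
  rintro x ⟨⟨h1, h2⟩, ⟨h3, h4⟩, h5, h6⟩
  constructor <;> intro j <;> fin_cases j
  exacts [h1.le, h3.le, h5.le, h2.le, h4.le, h6.le]

lemma grid_eq {m m' : ℕ} {y : ℝ} (h1 : 19 / 10 * (m : ℝ) < y) (h2 : y < 19 / 10 * (m + 1))
    (h3 : 19 / 10 * (m' : ℝ) < y) (h4 : y < 19 / 10 * (m' + 1)) : m = m' := by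
  have a : (m : ℝ) < m' + 1 := by linarith
  have b : (m' : ℝ) < m + 1 := by linarith
  have a' : m < m' + 1 := by exact_mod_cast a
  have b' : m' < m + 1 := by exact_mod_cast b
  omega

lemma grid_wall {n : ℕ} {i : ℕ × ℕ} (h1 : 2 * (i.1 + 1) + 1 < n) (h2 : 2 * (i.2 + 1) + 1 < n)
    {x : E} (hx : ∀ k < n, 1 ≤ gridG k x) (hC : x ∈ gridC i) : x ∈ gridB i := by
  obtain ⟨⟨c1, c2⟩, ⟨c3, c4⟩, c5, c6⟩ := hC
  have e1 := hx (2 * i.1 + 1) (by omega)
  have e2 := hx (2 * (i.1 + 1) + 1) (by omega)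
  have e3 := hx (2 * i.2) (by omega)
  have e4 := hx (2 * (i.2 + 1)) (by omega)
  rw [grid_odd] at e1 e2
  rw [grid_even] at e3 e4
  push_cast at e2 e4
  have s1 : (x 2 - 9 / 20) ^ 2 ≤ 81 / 100 := by nlinarith
  have s2 : (x 2 + 9 / 20) ^ 2 ≤ 81 / 100 := by nlinarith
  refine ⟨⟨lt_of_le_of_ne c1 fun h => ?_, lt_of_le_of_ne c2 fun h => ?_⟩,
    ⟨lt_of_le_of_ne c3 fun h => ?_, lt_of_le_of_ne c4 fun h => ?_⟩,
    lt_of_le_of_ne c5 fun h => ?_, lt_of_le_of_ne c6 fun h => ?_⟩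
  · rw [← h] at e1; nlinarith
  · rw [h] at e2; nlinarith
  · rw [← h] at e3; nlinarith
  · rw [h] at e4; nlinarith
  · rw [← h] at e3 e4
    rcases le_total (x 1) (19 / 10 * i.2 + 19 / 20) with h' | h'
    · nlinarith
    · nlinarith
  · rw [h] at e1 e2
    rcases le_total (x 0) (19 / 10 * i.1 + 19 / 20) with h' | h'
    · nlinarith
    · nlinarith

lemma grid_half (m m' : ℕ) :
    (361 / 400 : ℝ) ≤ (19 / 10 * (m : ℝ) + 19 / 20 - 19 / 10 * m') ^ 2 := by
  rcases le_or_gt m' m with h | h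
  · have : (m' : ℝ) ≤ m := by exact_mod_cast h
    nlinarith
  · have : (m : ℝ) + 1 ≤ m' := by exact_mod_cast h
    nlinarith

lemma grid_centre (i : ℕ × ℕ) (k : ℕ) :
    1 < gridG k ![19 / 10 * (i.1 : ℝ) + 19 / 20, 19 / 10 * (i.2 : ℝ) + 19 / 20, 0] := by
  obtain ⟨m, rfl | rfl⟩ := Nat.even_or_odd' k
  · rw [grid_even]
    simp only [Matrix.cons_val_one, Matrix.cons_val_two, Matrix.head_cons, Matrix.tail_cons,
      Matrix.cons_val_zero]
    linarith [grid_half i.2 m]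
  · rw [grid_odd]
    simp only [Matrix.cons_val_one, Matrix.cons_val_two, Matrix.head_cons, Matrix.tail_cons,
      Matrix.cons_val_zero]
    linarith [grid_half i.1 m]

theorem exists_pockets {c n : ℕ} (hc : 2 ≤ c) (hn : 6 ≤ n) :
    ∃ (F : Family c n) (I : Finset (ℕ × ℕ)) (O : ℕ × ℕ → Set E), n ^ 2 ≤ 16 * I.card ∧
      (∀ i ∈ I, IsOpen (O i) ∧ (O i).Nonempty ∧ O i ⊆ F.free) ∧
      ∀ S : Set E, IsPreconnected S → S ⊆ closure F.free → ∀ i ∈ I, (S ∩ O i).Nonempty →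
        Bornology.IsBounded S ∧ ∀ j ∈ I, (S ∩ O j).Nonempty → i = j := by
  refine ⟨gridF hc n, Finset.range (n / 2 - 1) ×ˢ Finset.range (n / 2 - 1),
    fun i => gridB i ∩ (gridF hc n).free, ?_, fun i _ => ⟨?_, ?_, inter_subset_right⟩, ?_⟩
  · rw [Finset.card_product, Finset.card_range]
    have h : n ≤ 4 * (n / 2 - 1) := by omega
    nlinarith
  · refine (grid_open i).inter ?_
    rw [grid_free]
    exact isOpen_iInter_of_finite fun k => isOpen_lt continuous_const (grid_cont k)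
  · refine ⟨![19 / 10 * (i.1 : ℝ) + 19 / 20, 19 / 10 * (i.2 : ℝ) + 19 / 20, 0], ?_, ?_⟩
    · simp only [gridB, mem_setOf_eq, Matrix.cons_val_one, Matrix.cons_val_two, Matrix.head_cons,
        Matrix.tail_cons, Matrix.cons_val_zero]
      refine ⟨⟨?_, ?_⟩, ⟨?_, ?_⟩, ?_, ?_⟩ <;> linarith
    · rw [grid_free]
      exact mem_iInter.2 fun k => grid_centre i k
  · intro S hS hsub i hi hne
    obtain ⟨hi1, hi2⟩ := Finset.mem_product.1 hi
    rw [Finset.mem_range] at hi1 hi2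
    have hB : S ⊆ gridB i := by
      refine hS.subset_left_of_subset_union (grid_open i) (grid_closed i).isOpen_compl ?_ ?_ ?_
      · refine Set.disjoint_left.2 fun x hx hx' => hx' ?_
        obtain ⟨⟨h1, h2⟩, ⟨h3, h4⟩, h5, h6⟩ := hx
        exact ⟨⟨h1.le, h2.le⟩, ⟨h3.le, h4.le⟩, h5.le, h6.le⟩
      · intro x hx
        by_cases hC : x ∈ gridC i
        · exact Or.inl (grid_wall (n := n) (by omega) (by omega)
            (fun k hk => grid_closure hc (hsub hx) hk) hC)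
        · exact Or.inr hC
      · obtain ⟨x, hx, hx'⟩ := hne
        exact ⟨x, hx, hx'.1⟩
    refine ⟨(grid_bdd i).subset hB, fun j _ hj => ?_⟩
    obtain ⟨x, hx, hx', _⟩ := hj
    obtain ⟨⟨h1, h2⟩, ⟨h3, h4⟩, _⟩ := hB hx
    obtain ⟨⟨g1, g2⟩, ⟨g3, g4⟩, _⟩ := hx'
    exact Prod.ext (grid_eq h1 h2 g1 g2) (grid_eq h3 h4 g3 g4)

end Pool.Agent.Cyl
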