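import Pool.Agent.P.MP_8a0bcd_co.St

/-! The grid partition of the plane. -/

set_option autoImplicit false

namespace Pool.Agent.Cyl

open Set
open scoped Classical

/-- The multiples of `δ` within distance two of `c`. -/
noncomputable def grid2_grid (δ c : ℝ) : Finset ℝ :=
  (Finset.Icc ⌈(c - 2) / δ⌉ ⌊(c + 2) / δ⌋).image fun m : ℤ => δ * m

theorem grid2_mem {δ c θ : ℝ} (hδ : 0 < δ) :
    θ ∈ grid2_grid δ c ↔ (∃ m : ℤ, θ = δ * m) ∧ |θ - c| ≤ 2 := by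
  simp only [grid2_grid, Finset.mem_image, Finset.mem_Icc, Int.ceil_le, Int.le_floor,
    div_le_iff₀ hδ, le_div_iff₀ hδ, abs_le]
  constructor
  · rintro ⟨m, ⟨h1, h2⟩, rfl⟩
    exact ⟨⟨m, rfl⟩, by linarith, by linarith⟩
  · rintro ⟨⟨m, rfl⟩, h1, h2⟩
    exact ⟨m, ⟨by linarith, by linarith⟩, rfl⟩

theorem grid2_card {δ : ℝ} (c : ℝ) : (grid2_grid δ c).card ≤ ⌈4 / δ⌉₊ + 1 := by
  refine Finset.card_image_le.trans ?_
  rw [Int.card_Icc, Int.toNat_le]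
  have h1 := Int.le_ceil ((c - 2) / δ)
  have h2 := Int.floor_le ((c + 2) / δ)
  have h3 := Nat.le_ceil (4 / δ)
  have h4 : (c + 2) / δ = (c - 2) / δ + 4 / δ := by ring
  have : ((⌊(c + 2) / δ⌋ + 1 - ⌈(c - 2) / δ⌉ : ℤ) : ℝ) ≤ ((⌈4 / δ⌉₊ + 1 : ℕ) : ℤ) := by
    push_cast; linarith
  exact_mod_cast this

theorem grid2_fact {δ c : ℝ} (hδ : 0 < δ) (hδ1 : δ ≤ 1) {l : Fn} {Θ : Finset ℝ} {y0 : E}
    (hΘ : grid2_grid δ c ⊆ Θ) (h0 : l y0 ∉ Θ) (h1 : |l y0 - c| ≤ 1) :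
    (∀ y ∈ slab l Θ y0, |l y - c| ≤ 3) ∧
      ∀ y ∈ slab l Θ y0, ∀ y' ∈ slab l Θ y0, |l (y - y')| ≤ δ := by
  have a1 : δ * ⌊l y0 / δ⌋ ≤ l y0 := by
    rw [mul_comm, ← le_div_iff₀ hδ]; exact Int.floor_le _
  have a2 : l y0 < δ * (⌊l y0 / δ⌋ + 1 : ℤ) := by
    rw [mul_comm, ← div_lt_iff₀ hδ]; push_cast; exact Int.lt_floor_add_one _
  generalize ⌊l y0 / δ⌋ = m at a1 a2
  have a3 : δ * (m + 1 : ℤ) = δ * m + δ := by push_cast; ring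
  rw [abs_le] at h1
  have m1 : δ * m ∈ Θ := hΘ ((grid2_mem hδ).2 ⟨⟨m, rfl⟩, abs_le.2 ⟨by linarith, by linarith⟩⟩)
  have m2 : δ * (m + 1 : ℤ) ∈ Θ :=
    hΘ ((grid2_mem hδ).2 ⟨⟨m + 1, rfl⟩, abs_le.2 ⟨by linarith, by linarith⟩⟩)
  have a4 : δ * m < l y0 := a1.lt_of_ne fun e => h0 (e ▸ m1)
  have key : ∀ y ∈ slab l Θ y0, δ * m < l y ∧ l y < δ * m + δ := fun y hy =>
    ⟨(hy _ m1).1 a4, a3 ▸ (hy _ m2).2 a2⟩
  refine ⟨fun y hy => ?_, fun y hy y' hy' => ?_⟩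
  · have := key y hy
    exact abs_le.2 ⟨by linarith, by linarith⟩
  · have := key y hy
    have := key y' hy'
    rw [map_sub]
    exact abs_le.2 ⟨by linarith, by linarith⟩

theorem grid2_lab {δ : ℝ} (hδ : 0 < δ) {l : Fn} {Θ : Finset ℝ}
    (hΘ : ∀ θ ∈ Θ, ∃ m : ℤ, θ = δ * m) {x y : E} (h : ⌊l x / δ⌋ = ⌊l y / δ⌋) :
    lab l Θ x = lab l Θ y := by
  refine Finset.filter_congr fun θ hθ => ?_
  obtain ⟨m, rfl⟩ := hΘ θ hθ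
  rw [mul_comm, ← le_div_iff₀ hδ, ← le_div_iff₀ hδ, ← Int.le_floor, ← Int.le_floor, h]

theorem grid2_floor {δ l s t : ℝ} (hδ : 0 < δ) (h : |s - t| ≤ l) :
    ⌊s / δ⌋ ∈ Finset.Icc (⌊t / δ⌋ - (⌈l / δ⌉₊ : ℕ)) (⌊t / δ⌋ + (⌈l / δ⌉₊ : ℕ)) := by
  have h3 := Nat.le_ceil (l / δ)
  rw [abs_le] at h
  have h1 : s / δ ≤ t / δ + l / δ := by rw [← add_div]; gcongr; linarith
  have h2 : t / δ - l / δ ≤ s / δ := by rw [← sub_div]; gcongr; linarith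
  rw [Finset.mem_Icc, ← Int.floor_sub_natCast, ← Int.floor_add_natCast]
  exact ⟨Int.floor_mono (by linarith), Int.floor_mono (by linarith)⟩

theorem grid2_disc {α β : Fn} {a y : E} (h : y ∈ disc α β a) :
    |α y - α a| ≤ 1 ∧ |β y - β a| ≤ 1 := by
  have h' : α (y - a) ^ 2 + β (y - a) ^ 2 ≤ 1 := h
  rw [map_sub, map_sub] at h'
  constructor <;> rw [← sq_le_one_iff_abs_le_one] <;> nlinarith [sq_nonneg (α y - α a), sq_nonneg (β y - β a)]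

theorem exists_col (δ l : ℝ) (hδ : 0 < δ) (hδ1 : δ ≤ 1) : ∃ C : ℕ, ∀ (κ : Type) (α β : Fn)
    (K : Finset κ) (a : κ → E), Onto α β → ∃ P : Col α β K a l 4 C, ∀ x ∈ P.L.G,
      (Small α β δ (P.L.cls x) ∧ ∃ k ∈ K, P.L.cls x ⊆ tube α β (a k) 3) ∨
        ∀ y ∈ P.L.cls x, ∀ k ∈ K, y ∉ disc α β (a k) := by
  refine ⟨⌈4 / δ⌉₊ + 1 + (2 * ⌈l / δ⌉₊ + 1) ^ 2, fun κ α β K a hO => ?_⟩
  obtain ⟨z, hz1, hz2⟩ := hO 1 1
  have hα : α ≠ 0 := fun e => by simp [e] at hz1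
  have hβ : β ≠ 0 := fun e => by simp [e] at hz2
  let Θ : Finset ℝ := K.biUnion fun k => grid2_grid δ (α (a k))
  let L0 : Lab := Lab.triv.refine (J := Unit) (fun _ _ => α) (fun _ _ => Θ) fun _ _ _ => hα
  let Θ' : Set E → Finset ℝ := fun R =>
    (K.filter fun k => ∃ y ∈ R, |α y - α (a k)| ≤ 1).biUnion fun k => grid2_grid δ (β (a k))
  let L : Lab := L0.refine (J := Unit) (fun _ _ => β) (fun R _ => Θ' R) fun _ _ _ => hβ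
  have g0 : ∀ x, x ∈ L0.G ↔ α x ∉ Θ := fun x => by
    simp [L0, Lab.mem_refine, Lab.triv]
  have c0 : ∀ x, L0.cls x = slab α Θ x := fun x => by
    simp [L0, Lab.refine_cls, Lab.triv, iInter_const]
  have g1 : ∀ x, x ∈ L.G ↔ x ∈ L0.G ∧ β x ∉ Θ' (L0.cls x) := fun x => by
    simp [L, Lab.mem_refine]
  have c1 : ∀ x, L.cls x = L0.cls x ∩ slab β (Θ' (L0.cls x)) x := fun x => by
    simp [L, Lab.refine_cls, iInter_const]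
  have sub0 : ∀ k ∈ K, grid2_grid δ (α (a k)) ⊆ Θ := fun k hk =>
    Finset.subset_biUnion_of_mem (fun k => grid2_grid δ (α (a k))) hk
  have z0 : ∀ θ ∈ Θ, ∃ m : ℤ, θ = δ * m := fun θ hθ =>
    let ⟨_, _, h⟩ := Finset.mem_biUnion.1 hθ
    ((grid2_mem hδ).1 h).1
  have z1 : ∀ R, ∀ θ ∈ Θ' R, ∃ m : ℤ, θ = δ * m := fun R θ hθ =>
    let ⟨_, _, h⟩ := Finset.mem_biUnion.1 hθ
    ((grid2_mem hδ).1 h).1
  refine ⟨⟨L, Θ, ?_, ?_, ?_, fun x hx => (g0 x).1 ((g1 x).1 hx).1, ?_, ?_⟩, ?_⟩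
  · exact Lab.refine_poly _ _ _ _ (Lab.refine_poly _ _ _ _ Lab.triv_poly)
  · refine (Finset.card_biUnion_le_card_mul _ _ _ fun k _ => grid2_card _).trans ?_
    rw [mul_comm]
    exact Nat.mul_le_mul_right _ (Nat.le_add_right _ _)
  · intro θ hθ
    obtain ⟨k, hk, h⟩ := Finset.mem_biUnion.1 hθ
    exact ⟨k, hk, ((grid2_mem hδ).1 h).2.trans (by norm_num)⟩
  · intro x hx
    by_cases h0 : α x ∈ Θ
    · exact Or.inl h0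
    right
    have hx0 := (g0 x).2 h0
    have h1 : β x ∈ Θ' (L0.cls x) := by
      by_contra h
      exact hx ((g1 x).2 ⟨hx0, h⟩)
    obtain ⟨k, hk, h⟩ := Finset.mem_biUnion.1 h1
    obtain ⟨hk, y, hy, hy1⟩ := Finset.mem_filter.1 hk
    have hy0 := L0.sub x hx0 hy
    have hxy : x ∈ slab α Θ y := by rw [← c0, L0.eq x hx0 y hy]; exact L0.mem x hx0
    refine ⟨k, hk, ?_, ?_⟩ <;> rw [map_sub]
    · exact (grid2_fact hδ hδ1 (sub0 k hk) ((g0 y).1 hy0) hy1).1 x hxy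
    · exact ((grid2_mem hδ).1 h).2.trans (by norm_num)
  · intro S hS
    rcases S.eq_empty_or_nonempty with rfl | ⟨x0, hx0⟩
    · have : L.cl ∅ = ∅ := by ext R; simp [Lab.mem_cl]
      simp [this]
    refine (L.card_cl_le S (fun x => (⌊α x / δ⌋, ⌊β x / δ⌋))
      (Finset.Icc (⌊α x0 / δ⌋ - (⌈l / δ⌉₊ : ℕ)) (⌊α x0 / δ⌋ + (⌈l / δ⌉₊ : ℕ)) ×ˢ
        Finset.Icc (⌊β x0 / δ⌋ - (⌈l / δ⌉₊ : ℕ)) (⌊β x0 / δ⌋ + (⌈l / δ⌉₊ : ℕ)))
      (fun x hx _ => ?_) fun x _ hx y _ hy e => ?_).trans ?_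
    · have := hS x hx x0 hx0
      rw [map_sub, map_sub] at this
      exact Finset.mem_product.2 ⟨grid2_floor hδ this.1, grid2_floor hδ this.2⟩
    · obtain ⟨e1, e2⟩ := Prod.mk.inj e
      refine Lab.refine_eq _ _ _ _ hy hx ?_ fun _ => grid2_lab hδ (z1 _) e2
      exact Lab.refine_eq _ _ _ _ ((g1 y).1 hy).1 ((g1 x).1 hx).1 rfl fun _ => grid2_lab hδ z0 e1
    · have e : ∀ t : ℤ, (t + (⌈l / δ⌉₊ : ℕ) + 1 - (t - (⌈l / δ⌉₊ : ℕ))).toNat = 2 * ⌈l / δ⌉₊ + 1 := by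
        intro t; omega
      rw [Finset.card_product, Int.card_Icc, Int.card_Icc, e, e, sq]
      exact Nat.le_add_left _ _
  · intro x hx
    by_cases h : ∀ y ∈ L.cls x, ∀ k ∈ K, y ∉ disc α β (a k)
    · exact Or.inr h
    left
    push Not at h
    obtain ⟨y, hy, k, hk, hd⟩ := h
    have hyG := (g1 y).1 (L.sub x hx hy)
    have e : L.cls x = slab α Θ y ∩ slab β (Θ' (L0.cls y)) y := by
      rw [← L.eq x hx y hy, c1, ← c0]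
    obtain ⟨d1, d2⟩ := grid2_disc hd
    have f1 := grid2_fact hδ hδ1 (sub0 k hk) ((g0 y).1 hyG.1) d1
    have f2 := grid2_fact hδ hδ1 (Θ := Θ' (L0.cls y)) (Finset.subset_biUnion_of_mem
      (fun k => grid2_grid δ (β (a k))) (Finset.mem_filter.2 ⟨hk, y, L0.mem y hyG.1, d1⟩)) hyG.2 d2
    change Small α β δ (L.cls x) ∧ ∃ k ∈ K, L.cls x ⊆ _
    rw [e]
    refine ⟨fun u hu v hv => ⟨f1.2 u hu.1 v hv.1, f2.2 u hu.2 v hv.2⟩, k, hk, fun u hu => ⟨?_, ?_⟩⟩ <;>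
      rw [map_sub]
    exacts [f1.1 u hu.1, f2.1 u hu.2]

end Pool.Agent.Cyl
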