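import Pool.Agent.P.MP_8a0bcd_co.Defs

/-! Partitions of almost all of space into open convex polyhedra. -/

set_option autoImplicit false

namespace Pool.Agent.Cyl

open Set
open scoped Classical

/-- Space. -/
abbrev E : Type := Fin 3 → ℝ

/-- Linear functionals. -/
abbrev Fn : Type := E →ₗ[ℝ] ℝ

theorem Fn.cont (l : Fn) : Continuous l := l.continuous_of_finiteDimensional

/-- An intersection of at most `m` open half spaces. -/
def Poly (m : ℕ) (S : Set E) : Prop :=
  ∃ T : Finset (Fn × ℝ), T.card ≤ m ∧ S = {x | ∀ h ∈ T, h.2 < h.1 x}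

theorem Poly.mono {m m' : ℕ} {S : Set E} (h : Poly m S) (hm : m ≤ m') : Poly m' S :=
  let ⟨T, a, b⟩ := h
  ⟨T, a.trans hm, b⟩

theorem Poly.isOpen {m : ℕ} {S : Set E} (h : Poly m S) : IsOpen S := by
  obtain ⟨T, -, rfl⟩ := h
  have : {x : E | ∀ h ∈ T, h.2 < h.1 x} = ⋂ h ∈ T, {x | h.2 < h.1 x} := by ext; simp
  rw [this]
  exact isOpen_biInter_finset fun h _ => isOpen_lt continuous_const (Fn.cont h.1)

theorem Poly.convex {m : ℕ} {S : Set E} (h : Poly m S) : Convex ℝ S := by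
  obtain ⟨T, -, rfl⟩ := h
  have : {x : E | ∀ h ∈ T, h.2 < h.1 x} = ⋂ h ∈ T, {x | h.2 < h.1 x} := by ext; simp
  rw [this]
  exact convex_iInter₂ fun h _ => convex_halfSpace_gt h.1.isLinear _

theorem poly_univ : Poly 0 univ := ⟨∅, by simp, by simp⟩

theorem Poly.inter {m m' : ℕ} {S S' : Set E} (h : Poly m S) (h' : Poly m' S') :
    Poly (m + m') (S ∩ S') := by
  obtain ⟨T, a, rfl⟩ := h
  obtain ⟨T', a', rfl⟩ := h'
  refine ⟨T ∪ T', (Finset.card_union_le _ _).trans (add_le_add a a'), ?_⟩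
  ext x
  simp only [mem_inter_iff, mem_ofPred_eq, Finset.mem_union, or_imp, forall_and]

theorem Poly.iInter {J : Type} [Fintype J] {m : ℕ} {S : J → Set E} (h : ∀ j, Poly m (S j)) :
    Poly (Fintype.card J * m) (⋂ j, S j) := by
  choose T a b using h
  refine ⟨Finset.univ.biUnion T, Finset.card_biUnion_le_card_mul _ _ _ fun j _ => a j, ?_⟩
  ext x
  simp only [mem_iInter, b, mem_ofPred_eq, Finset.mem_biUnion, Finset.mem_univ, true_and]
  exact ⟨fun h p ⟨j, hj⟩ => h j p hj, fun h j p hj => h p ⟨j, hj⟩⟩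

/-- Covered by finitely many planes. -/
def Thin (S : Set E) : Prop :=
  ∃ T : Finset (Fn × ℝ), (∀ h ∈ T, h.1 ≠ 0) ∧ ∀ x ∈ S, ∃ h ∈ T, h.1 x = h.2

theorem Thin.mono {S S' : Set E} (h : Thin S) (hS : S' ⊆ S) : Thin S' :=
  let ⟨T, a, b⟩ := h
  ⟨T, a, fun x hx => b x (hS hx)⟩

theorem thin_empty : Thin ∅ := ⟨∅, by simp, by simp⟩

theorem Thin.union {S S' : Set E} (h : Thin S) (h' : Thin S') : Thin (S ∪ S') := by
  obtain ⟨T, a, b⟩ := h
  obtain ⟨T', a', b'⟩ := h'
  refine ⟨T ∪ T', fun p hp => (Finset.mem_union.1 hp).elim (a p) (a' p), ?_⟩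
  rintro x (hx | hx)
  · obtain ⟨p, c, d⟩ := b x hx
    exact ⟨p, Finset.mem_union_left _ c, d⟩
  · obtain ⟨p, c, d⟩ := b' x hx
    exact ⟨p, Finset.mem_union_right _ c, d⟩

theorem Thin.biUnion {J : Type} {I : Set J} (hI : I.Finite) {S : J → Set E}
    (h : ∀ j ∈ I, Thin (S j)) : Thin (⋃ j ∈ I, S j) := by
  induction I, hI using Set.Finite.induction_on with
  | empty => simpa using thin_empty
  | insert _ _ ih =>
    rw [biUnion_insert]
    exact (h _ (mem_insert _ _)).union (ih fun j hj => h j (mem_insert_of_mem _ hj))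

theorem thin_walls {l : Fn} {Θ : Finset ℝ} (h : Θ.Nonempty → l ≠ 0) : Thin {x | l x ∈ Θ} := by
  refine ⟨Θ.image fun θ => (l, θ), fun p hp => ?_, fun x hx => ⟨_, Finset.mem_image_of_mem _ hx, rfl⟩⟩
  obtain ⟨θ, a, rfl⟩ := Finset.mem_image.1 hp
  exact h ⟨θ, a⟩

theorem Thin.dense {S : Set E} (h : Thin S) : Dense Sᶜ := by
  obtain ⟨T, a, b⟩ := h
  have h1 : ∀ p ∈ T, Dense {x : E | p.1 x ≠ p.2} := by
    intro p hp
    obtain ⟨v, hv⟩ : ∃ v, p.1 v ≠ 0 := by
      by_contra h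
      push Not at h
      exact a p hp (LinearMap.ext h)
    intro x
    by_cases hx : p.1 x = p.2
    swap
    · exact subset_closure hx
    have c : Filter.Tendsto (fun t : ℝ => x + t • v) (nhdsWithin 0 (Ioi 0)) (nhds x) := by
      have : Continuous fun t : ℝ => x + t • v := by fun_prop
      simpa using (this.tendsto 0).mono_left nhdsWithin_le_nhds
    refine mem_closure_of_tendsto c (eventually_nhdsWithin_of_forall fun t ht => ?_)
    simp only [mem_ofPred_eq, map_add, map_smul, smul_eq_mul, hx, ne_eq, add_eq_left]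
    exact mul_ne_zero (ne_of_gt ht) hv
  have h2 : Dense (⋂ p ∈ (T : Set (Fn × ℝ)), {x : E | p.1 x ≠ p.2}) :=
    dense_biInter_of_isOpen
      (fun p _ => isOpen_ne_fun (Fn.cont p.1) continuous_const) T.countable_toSet h1
  refine h2.mono fun x hx hS => ?_
  obtain ⟨p, c, d⟩ := b x hS
  exact mem_iInter₂.1 hx p c d

/-- The points on the same side as `x` of all the planes `l = θ`, `θ ∈ Θ`. -/
def slab (l : Fn) (Θ : Finset ℝ) (x : E) : Set E :=
  {y | ∀ θ ∈ Θ, (θ < l x → θ < l y) ∧ (l x < θ → l y < θ)}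

/-- The position of `x` among the planes `l = θ`, `θ ∈ Θ`. -/
noncomputable def lab (l : Fn) (Θ : Finset ℝ) (x : E) : Finset ℝ := Θ.filter (· ≤ l x)

theorem mem_slab_self (l : Fn) (Θ : Finset ℝ) (x : E) : x ∈ slab l Θ x := fun _ _ => ⟨id, id⟩

theorem slab_notMem {l : Fn} {Θ : Finset ℝ} {x y : E} (hx : l x ∉ Θ) (hy : y ∈ slab l Θ x) :
    l y ∉ Θ := fun h => by
  rcases lt_trichotomy (l y) (l x) with a | a | a
  · exact lt_irrefl _ ((hy _ h).1 a)
  · exact hx (a ▸ h)
  · exact lt_irrefl _ ((hy _ h).2 a)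

theorem slab_eq {l : Fn} {Θ : Finset ℝ} {x y : E} (hx : l x ∉ Θ) (hy : y ∈ slab l Θ x) :
    slab l Θ y = slab l Θ x := by
  have key : ∀ θ ∈ Θ, (θ < l y ↔ θ < l x) ∧ (l y < θ ↔ l x < θ) := by
    intro θ h
    have a := hy θ h
    have b : θ ≠ l x := fun e => hx (e ▸ h)
    rcases b.lt_or_gt with c | c
    · exact ⟨iff_of_true (a.1 c) c, iff_of_false (a.1 c).not_gt c.not_gt⟩
    · exact ⟨iff_of_false (a.2 c).not_gt c.not_gt, iff_of_true (a.2 c) c⟩
  ext z
  exact forall₂_congr fun θ h => by rw [(key θ h).1, (key θ h).2]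

theorem mem_slab_of_lab {l : Fn} {Θ : Finset ℝ} {x y : E} (hy : l y ∉ Θ)
    (h : lab l Θ y = lab l Θ x) : y ∈ slab l Θ x := by
  intro θ hθ
  have a : θ ≤ l y ↔ θ ≤ l x := by
    have := Finset.ext_iff.1 h θ
    simpa [lab, hθ] using this
  exact ⟨fun b => (a.2 b.le).lt_of_ne fun e => hy (e ▸ hθ), fun b => not_le.1 fun c => (a.1 c).not_gt b⟩

theorem poly_slab (l : Fn) (Θ : Finset ℝ) (x : E) : Poly 2 (slab l Θ x) := by
  have key : ∀ (l : Fn) (t : ℝ) (Θ : Finset ℝ), Poly 1 {y | ∀ θ ∈ Θ, θ < t → θ < l y} := by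
    intro l t Θ
    rcases (Θ.filter (· < t)).eq_empty_or_nonempty with h | h
    · refine ⟨∅, by simp, ?_⟩
      ext y
      simp only [mem_ofPred_eq, Finset.notMem_empty, false_imp_iff, implies_true, iff_true]
      exact fun θ a b => absurd b (Finset.filter_eq_empty_iff.1 h a)
    · refine ⟨{(l, (Θ.filter (· < t)).max' h)}, by simp, ?_⟩
      ext y
      simp [Finset.max'_lt_iff]
  have := (key l (l x) Θ).inter (key (-l) (-l x) (Θ.image fun θ => -θ))
  convert this using 1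
  ext y
  simp [slab, forall_and]

/-- A finite partition of the complement of a thin set into open polyhedra. -/
structure Lab where
  /-- the good points -/
  G : Set E
  /-- the class of a point -/
  cls : E → Set E
  mem : ∀ x ∈ G, x ∈ cls x
  sub : ∀ x ∈ G, cls x ⊆ G
  eq : ∀ x ∈ G, ∀ y ∈ cls x, cls y = cls x
  poly : ∀ x ∈ G, ∃ m, Poly m (cls x)
  thin : Thin Gᶜ
  fin : (cls '' G).Finite

namespace Lab

/-- All classes are cut out by at most `m` half spaces. -/
def PolyB (L : Lab) (m : ℕ) : Prop := ∀ x ∈ L.G, Poly m (L.cls x)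

/-- The classes that meet `S`. -/
noncomputable def cl (L : Lab) (S : Set E) : Finset (Set E) :=
  (L.fin.subset (image_mono (inter_subset_right (s := S)))).toFinset

theorem mem_cl {L : Lab} {S R : Set E} : R ∈ L.cl S ↔ ∃ x ∈ S, x ∈ L.G ∧ L.cls x = R := by
  simp [cl, and_assoc]

theorem cls_mem_cl {L : Lab} {S : Set E} {x : E} (h : x ∈ S) (h' : x ∈ L.G) : L.cls x ∈ L.cl S :=
  mem_cl.2 ⟨x, h, h', rfl⟩

theorem cl_mono (L : Lab) {S S' : Set E} (h : S ⊆ S') : L.cl S ⊆ L.cl S' := fun _ hR =>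
  let ⟨x, a, b⟩ := mem_cl.1 hR
  mem_cl.2 ⟨x, h a, b⟩

theorem isOpen (L : Lab) {x : E} (h : x ∈ L.G) : IsOpen (L.cls x) :=
  let ⟨_, a⟩ := L.poly x h
  a.isOpen

theorem convex (L : Lab) {x : E} (h : x ∈ L.G) : Convex ℝ (L.cls x) :=
  let ⟨_, a⟩ := L.poly x h
  a.convex

theorem disjoint (L : Lab) {x y : E} (hx : x ∈ L.G) (hy : y ∈ L.G) (h : L.cls x ≠ L.cls y) :
    Disjoint (L.cls x) (L.cls y) :=
  disjoint_left.2 fun z a b => h ((L.eq x hx z a).symm.trans (L.eq y hy z b))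

/-- A good point in the closure of a class lies in the class. -/
theorem mem_of_closure (L : Lab) {x y : E} (hx : x ∈ L.G) (hy : y ∈ L.G)
    (h : y ∈ closure (L.cls x)) : y ∈ L.cls x := by
  obtain ⟨z, a, b⟩ := mem_closure_iff.1 h _ (L.isOpen hy) (L.mem y hy)
  rw [← L.eq x hx z b, L.eq y hy z a]
  exact L.mem y hy

/-- A connected set of good points lies in one class. -/
theorem conn (L : Lab) {S : Set E} (hS : IsPreconnected S) (h : S ⊆ L.G) {x y : E} (hx : x ∈ S)
    (hy : y ∈ S) : L.cls y = L.cls x :=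
  L.eq x (h hx) y (hS.subset_of_closure_inter_subset (L.isOpen (h hx)) ⟨x, hx, L.mem x (h hx)⟩
    (fun _ a => L.mem_of_closure (h hx) (h a.2) a.1) hy)

/-- Counting classes through a labelling of the points. -/
theorem card_cl_le {A : Type} (L : Lab) (S : Set E) (f : E → A) (B : Finset A)
    (h1 : ∀ x ∈ S, x ∈ L.G → f x ∈ B)
    (h2 : ∀ x ∈ S, x ∈ L.G → ∀ y ∈ S, y ∈ L.G → f x = f y → L.cls x = L.cls y) :
    (L.cl S).card ≤ B.card := by
  choose! g a b c using fun R (h : R ∈ L.cl S) => mem_cl.1 h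
  refine Finset.card_le_card_of_injOn (fun R => f (g R)) (fun R h => h1 _ (a R h) (b R h))
    fun R h R' h' e => ?_
  rw [← c R h, ← c R' h']
  exact h2 _ (a R h) (b R h) _ (a R' h') (b R' h') e

/-- Counting classes piece by piece. -/
theorem card_cl_le_sum {A : Type} (L : Lab) (S : Set E) (B : Finset A) (P : A → Set E)
    (h : ∀ x ∈ S, x ∈ L.G → ∃ a ∈ B, x ∈ P a) : (L.cl S).card ≤ ∑ a ∈ B, (L.cl (P a)).card := by
  refine (Finset.card_le_card fun R hR => ?_).trans Finset.card_biUnion_le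
  obtain ⟨x, a, b, rfl⟩ := mem_cl.1 hR
  obtain ⟨i, c, d⟩ := h x a b
  exact Finset.mem_biUnion.2 ⟨i, c, cls_mem_cl d b⟩

/-- The partition with one class. -/
def triv : Lab where
  G := univ
  cls _ := univ
  mem _ _ := trivial
  sub _ _ := Subset.rfl
  eq _ _ _ _ := rfl
  poly _ _ := ⟨0, poly_univ⟩
  thin := by simpa using thin_empty
  fin := (finite_singleton univ).subset (by rintro _ ⟨x, -, rfl⟩; rfl)

theorem triv_poly : triv.PolyB 0 := fun _ _ => poly_univ

section refine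

variable {J : Type} [Fintype J] (L : Lab) (l : Set E → J → Fn) (Θ : Set E → J → Finset ℝ)
  (h : ∀ R j, (Θ R j).Nonempty → l R j ≠ 0)

/-- Cut every class `R` by the planes `l R j = θ`, `θ ∈ Θ R j`. -/
def refine : Lab where
  G := {x | x ∈ L.G ∧ ∀ j, l (L.cls x) j x ∉ Θ (L.cls x) j}
  cls x := L.cls x ∩ ⋂ j, slab (l (L.cls x) j) (Θ (L.cls x) j) x
  mem x hx := ⟨L.mem x hx.1, mem_iInter.2 fun _ => mem_slab_self _ _ _⟩
  sub x hx y hy := ⟨L.sub x hx.1 hy.1, fun j => by
    rw [L.eq x hx.1 y hy.1]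
    exact slab_notMem (hx.2 j) (mem_iInter.1 hy.2 j)⟩
  eq x hx y hy := by
    rw [L.eq x hx.1 y hy.1]
    congr 1
    exact iInter_congr fun j => slab_eq (hx.2 j) (mem_iInter.1 hy.2 j)
  poly x hx :=
    let ⟨_, a⟩ := L.poly x hx.1
    ⟨_, a.inter (Poly.iInter fun _ => poly_slab _ _ _)⟩
  thin := by
    refine (L.thin.union (Thin.biUnion L.fin fun R _ => Thin.biUnion (finite_univ (α := J))
      fun j _ => thin_walls (h R j))).mono fun x hx => ?_
    by_cases a : x ∈ L.G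
    · obtain ⟨j, b⟩ : ∃ j, l (L.cls x) j x ∈ Θ (L.cls x) j := by
        by_contra c
        exact hx ⟨a, fun j d => c ⟨j, d⟩⟩
      exact Or.inr (mem_iUnion₂.2 ⟨_, mem_image_of_mem _ a, mem_iUnion₂.2 ⟨j, trivial, b⟩⟩)
    · exact Or.inl a
  fin := by
    have : ((fun x => (⟨L.cls x, fun j => lab (l (L.cls x) j) (Θ (L.cls x) j) x⟩ :
        Set E × (J → Finset ℝ))) '' L.G).Finite := by
      refine (L.fin.biUnion fun R _ => (finite_singleton R).prod
        (Finite.pi' fun j => (Θ R j).powerset.finite_toSet)).subset ?_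
      rintro _ ⟨x, a, rfl⟩
      exact mem_iUnion₂.2 ⟨_, mem_image_of_mem _ a, rfl, fun j =>
        Finset.mem_powerset.2 (Finset.filter_subset _ _)⟩
    refine Finite.of_finite_image (f := fun R => (⟨L.cls (Classical.epsilon (· ∈ R)), fun j =>
      lab (l (L.cls (Classical.epsilon (· ∈ R))) j) (Θ (L.cls (Classical.epsilon (· ∈ R))) j)
        (Classical.epsilon (· ∈ R))⟩ : Set E × (J → Finset ℝ))) (this.subset ?_) ?_
    · rintro _ ⟨_, ⟨x, a, rfl⟩, rfl⟩
      have b := Classical.epsilon_spec (p := (· ∈ L.cls x ∩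
        ⋂ j, slab (l (L.cls x) j) (Θ (L.cls x) j) x))
        ⟨x, L.mem x a.1, mem_iInter.2 fun _ => mem_slab_self _ _ _⟩
      exact ⟨_, L.sub x a.1 b.1, rfl⟩
    · rintro _ ⟨x, a, rfl⟩ _ ⟨y, a', rfl⟩ e
      have b := Classical.epsilon_spec (p := (· ∈ L.cls x ∩
        ⋂ j, slab (l (L.cls x) j) (Θ (L.cls x) j) x))
        ⟨x, L.mem x a.1, mem_iInter.2 fun _ => mem_slab_self _ _ _⟩
      have b' := Classical.epsilon_spec (p := (· ∈ L.cls y ∩
        ⋂ j, slab (l (L.cls y) j) (Θ (L.cls y) j) y))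
        ⟨y, L.mem y a'.1, mem_iInter.2 fun _ => mem_slab_self _ _ _⟩
      simp only [Prod.mk.injEq] at e
      generalize Classical.epsilon (· ∈ L.cls x ∩
        ⋂ j, slab (l (L.cls x) j) (Θ (L.cls x) j) x) = u at b e
      generalize Classical.epsilon (· ∈ L.cls y ∩
        ⋂ j, slab (l (L.cls y) j) (Θ (L.cls y) j) y) = v at b' e
      rw [L.eq x a.1 u b.1, L.eq y a'.1 v b'.1] at e
      obtain ⟨e1, e2⟩ := e
      have a2 := a'.2
      simp only
      rw [← e1] at e2 b' a2 ⊢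
      congr 1
      refine iInter_congr fun j => ?_
      have c := mem_iInter.1 b.2 j
      have c' := mem_iInter.1 b'.2 j
      rw [← slab_eq (a.2 j) c, ← slab_eq (a2 j) c']
      exact slab_eq (slab_notMem (a2 j) c') (mem_slab_of_lab (slab_notMem (a.2 j) c) (congrFun e2 j))

theorem mem_refine {x : E} :
    x ∈ (L.refine l Θ h).G ↔ x ∈ L.G ∧ ∀ j, l (L.cls x) j x ∉ Θ (L.cls x) j := Iff.rfl

theorem refine_cls (x : E) : (L.refine l Θ h).cls x =
    L.cls x ∩ ⋂ j, slab (l (L.cls x) j) (Θ (L.cls x) j) x := rfl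

theorem refine_poly {m : ℕ} (hm : L.PolyB m) : (L.refine l Θ h).PolyB (m + Fintype.card J * 2) :=
  fun x hx => (hm x hx.1).inter (Poly.iInter fun _ => poly_slab _ _ _)

/-- Points of one old class with the same positions lie in the same new class. -/
theorem refine_eq {x y : E} (hx : x ∈ (L.refine l Θ h).G) (hy : y ∈ (L.refine l Θ h).G)
    (e : L.cls y = L.cls x) (e' : ∀ j, lab (l (L.cls x) j) (Θ (L.cls x) j) y =
      lab (l (L.cls x) j) (Θ (L.cls x) j) x) : (L.refine l Θ h).cls y = (L.refine l Θ h).cls x :=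
  (L.refine l Θ h).eq x hx y ⟨e ▸ L.mem y hy.1, mem_iInter.2 fun j =>
    mem_slab_of_lab (e ▸ hy.2 j) (e' j)⟩

/-- The new classes inside an old class are counted by the positions. -/
theorem refine_card {R : Set E} (hR : R ∈ L.cl univ) (B : Finset (J → Finset ℝ))
    (hB : ∀ x ∈ R, (fun j => lab (l R j) (Θ R j) x) ∈ B) :
    ((L.refine l Θ h).cl R).card ≤ B.card := by
  obtain ⟨z, -, a, rfl⟩ := mem_cl.1 hR
  refine card_cl_le _ _ _ B (fun x b _ => hB x b) fun x b b' y c c' e => ?_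
  have d := L.eq z a x b
  have d' := L.eq z a y c
  refine refine_eq L l Θ h c' b' (d.trans d'.symm) fun j => ?_
  rw [d']
  exact congrFun e j

theorem refine_card_sum (S : Set E) :
    ((L.refine l Θ h).cl S).card ≤ ∑ R ∈ L.cl S, ((L.refine l Θ h).cl R).card :=
  card_cl_le_sum _ _ _ id fun x a b => ⟨_, cls_mem_cl a b.1, L.mem x b.1⟩

end refine

section prod

variable {ι : Type} [Fintype ι] (L : ι → Lab)

/-- The common refinement. -/
def prod : Lab where
  G := ⋂ i, (L i).G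
  cls x := ⋂ i, (L i).cls x
  mem x hx := mem_iInter.2 fun i => (L i).mem x (mem_iInter.1 hx i)
  sub x hx := iInter_mono fun i => (L i).sub x (mem_iInter.1 hx i)
  eq x hx y hy := iInter_congr fun i => (L i).eq x (mem_iInter.1 hx i) y (mem_iInter.1 hy i)
  poly x hx := by
    choose m a using fun i => (L i).poly x (mem_iInter.1 hx i)
    exact ⟨_, Poly.iInter fun i => (a i).mono (Finset.le_sup (f := m) (Finset.mem_univ i))⟩
  thin := by
    rw [compl_iInter, ← biUnion_univ]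
    exact Thin.biUnion finite_univ fun i _ => (L i).thin
  fin := by
    refine ((Finite.pi' fun i => (L i).fin).image fun f => ⋂ i, f i).subset ?_
    rintro _ ⟨x, a, rfl⟩
    exact ⟨fun i => (L i).cls x, fun i => mem_image_of_mem _ (mem_iInter.1 a i), rfl⟩

theorem mem_prod {x : E} : x ∈ (prod L).G ↔ ∀ i, x ∈ (L i).G := mem_iInter

theorem prod_cls (x : E) : (prod L).cls x = ⋂ i, (L i).cls x := rfl

theorem prod_poly {m : ℕ} (hm : ∀ i, (L i).PolyB m) : (prod L).PolyB (Fintype.card ι * m) :=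
  fun x hx => Poly.iInter fun i => hm i x (mem_iInter.1 hx i)

theorem prod_card (S : Set E) : ((prod L).cl S).card ≤ ∏ i, ((L i).cl S).card := by
  rw [← Fintype.card_piFinset]
  refine card_cl_le _ _ (fun x i => (L i).cls x) _ (fun x a b => Fintype.mem_piFinset.2 fun i =>
    cls_mem_cl a ((mem_prod L).1 b i)) fun x _ _ y _ _ e => ?_
  exact iInter_congr fun i => congrFun e i

end prod

end Lab

end Pool.Agent.Cyl
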