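import Pool.Agent.P.MP_8a0bcd_co.Comp

/-! Every cell meets boundedly many pockets. -/

set_option autoImplicit false

namespace Pool.Agent.Cyl

open Set
open scoped Classical

theorem low_exists (g : MvPolynomial (Fin 3) ℝ) (hg : g ≠ 0) {O : Set E} (hO : IsOpen O)
    (hne : O.Nonempty) : ∃ x ∈ O, MvPolynomial.eval x g ≠ 0 := by
  by_contra hc
  push Not at hc
  obtain ⟨x, hx⟩ := hne
  obtain ⟨ε, hε, hb⟩ := Metric.isOpen_iff.1 hO x hx
  apply hg
  refine MvPolynomial.funext_set (fun i => Ioo (x i - ε) (x i + ε))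
    (fun i => Set.Ioo_infinite (by linarith)) fun y hy => ?_
  rw [map_zero]
  refine hc y (hb ?_)
  rw [ball_pi _ hε]
  intro i hi
  show y i ∈ Metric.ball (x i) ε
  rw [Real.ball_eq_Ioo]
  exact hy i hi

theorem low_sub {s : ℕ} (p : Fin s → MvPolynomial (Fin 3) ℝ) (Φ : Set (Fin s → SignType)) {x : E}
    (hx : (fun i => SignType.sign (MvPolynomial.eval x (p i))) ∈ Φ)
    (h0 : MvPolynomial.eval x (∏ i ∈ Finset.univ.filter fun i => p i ≠ 0, p i) ≠ 0) :
    connectedComponentIn
      {y : E | MvPolynomial.eval y (∏ i ∈ Finset.univ.filter fun i => p i ≠ 0, p i) ≠ 0} x ⊆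
      {y | (fun i => SignType.sign (MvPolynomial.eval y (p i))) ∈ Φ} := by
  intro y hy
  have : (fun i => SignType.sign (MvPolynomial.eval y (p i))) =
      fun i => SignType.sign (MvPolynomial.eval x (p i)) := by
    funext i
    by_cases hi : p i = 0
    · simp [hi]
    · refine (isPreconnected_connectedComponentIn).constant
        (f := fun z : E => SignType.sign (MvPolynomial.eval z (p i))) ?_ hy
        (mem_connectedComponentIn h0)
      intro z hz
      have hz' := connectedComponentIn_subset _ _ hz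
      simp only [mem_ofPred_eq, map_prod, Finset.prod_ne_zero_iff] at hz'
      have hzi := hz' i (by simpa using hi)
      exact ((continuousAt_sign_of_ne_zero hzi).comp
        (f := fun z : E => MvPolynomial.eval z (p i))
        (MvPolynomial.continuous_eval (p i)).continuousAt).continuousWithinAt
  simpa [this] using hx

theorem card_pockets_le {s b N : ℕ} {X : Set E} (h : Decomp s b N X) {A : Type} (I : Finset A)
    (O : A → Set E) (hO : ∀ i ∈ I, IsOpen (O i) ∧ (O i).Nonempty ∧ O i ⊆ X)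
    (hS : ∀ S : Set E, IsPreconnected S → S ⊆ closure X → ∀ i ∈ I, (S ∩ O i).Nonempty →
      Bornology.IsBounded S ∧ ∀ j ∈ I, (S ∩ O j).Nonempty → i = j) :
    I.card ≤ N * (3 * (s * b) + 1) ^ 3 := by
  obtain ⟨cell, hc, -, hsub, hun⟩ := h
  choose p Φ hdeg hcell using hc
  set f : Fin N → MvPolynomial (Fin 3) ℝ :=
    fun j => ∏ i ∈ Finset.univ.filter fun i => p j i ≠ 0, p j i with hf
  have hf0 : ∀ j, f j ≠ 0 := fun j =>
    Finset.prod_ne_zero_iff.2 fun i hi => (Finset.mem_filter.1 hi).2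
  have hfd : ∀ j, (f j).totalDegree ≤ s * b := by
    intro j
    refine (MvPolynomial.totalDegree_finsetProd _ _).trans ?_
    refine (Finset.sum_le_card_nsmul _ _ b fun i _ => hdeg j i).trans ?_
    rw [smul_eq_mul]
    refine Nat.mul_le_mul_right _ ?_
    simpa using Finset.card_filter_le (Finset.univ : Finset (Fin s)) fun i => p j i ≠ 0
  have hex : ∀ i, i ∈ I → ∃ x : E, ∃ j, x ∈ O i ∧ x ∈ cell j ∧ MvPolynomial.eval x (f j) ≠ 0 := by
    intro i hi
    obtain ⟨x, hx, hx0⟩ := low_exists (∏ j, f j) (Finset.prod_ne_zero_iff.2 fun j _ => hf0 j)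
      (hO i hi).1 (hO i hi).2.1
    have hxX : x ∈ ⋃ j, cell j := hun ▸ subset_closure ((hO i hi).2.2 hx)
    obtain ⟨j, hj⟩ := mem_iUnion.1 hxX
    rw [map_prod, Finset.prod_ne_zero_iff] at hx0
    exact ⟨x, j, hx, hj, hx0 j (Finset.mem_univ _)⟩
  rcases I.eq_empty_or_nonempty with rfl | ⟨i0, hi0⟩
  · simp
  have : Nonempty (Fin N) := by
    obtain ⟨_, j, _⟩ := hex i0 hi0
    exact ⟨j⟩
  choose! x j hxO hxc hx0 using hex
  have hD : ∀ i ∈ I, connectedComponentIn {y : E | MvPolynomial.eval y (f (j i)) ≠ 0} (x i) ⊆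
      closure X := by
    intro i hi
    refine Subset.trans ?_ (hsub (j i))
    have h1 := hxc i hi
    rw [hcell] at h1 ⊢
    exact low_sub (p (j i)) (Φ (j i)) h1 (hx0 i hi)
  have hK := fun i hi => hS _ isPreconnected_connectedComponentIn (hD i hi) i hi
    ⟨x i, mem_connectedComponentIn (hx0 i hi), hxO i hi⟩
  have hmain := Finset.card_le_mul_card_image_of_maps_to (f := j) (s := I) (t := Finset.univ)
    (fun _ _ => Finset.mem_univ _) ((3 * (s * b) + 1) ^ 3) fun k _ => by
      have hinj : InjOn x (I.filter fun i => j i = k : Finset A) := by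
        intro i hi i' hi' he
        have h1 := (Finset.mem_filter.1 hi).1
        have h2 := (Finset.mem_filter.1 hi').1
        exact (hK i h1).2 i' h2 ⟨x i, mem_connectedComponentIn (hx0 i h1), he ▸ hxO i' h2⟩
      rw [← Finset.card_image_of_injOn hinj]
      refine card_bounded_components (f k) (s * b) (hfd k) _ ?_ ?_ ?_
      · intro y hy
        obtain ⟨i, hi, rfl⟩ := Finset.mem_image.1 hy
        obtain ⟨h1, rfl⟩ := Finset.mem_filter.1 hi
        exact hx0 i h1
      · intro y hy
        obtain ⟨i, hi, rfl⟩ := Finset.mem_image.1 hy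
        obtain ⟨h1, rfl⟩ := Finset.mem_filter.1 hi
        exact (hK i h1).1
      · intro y hy z hz hyz
        obtain ⟨i, hi, rfl⟩ := Finset.mem_image.1 hy
        obtain ⟨i', hi', rfl⟩ := Finset.mem_image.1 hz
        obtain ⟨h1, rfl⟩ := Finset.mem_filter.1 hi
        have h2 := (Finset.mem_filter.1 hi').1
        rw [(hK i h1).2 i' h2 ⟨x i', hyz, hxO i' h2⟩]
  rw [mul_comm]
  simpa using hmain

end Pool.Agent.Cyl
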