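import Pool.Agent.P.MP_8a0bcd_co.Core
import Pool.Agent.P.MP_8a0bcd_co.Grid
import Pool.Agent.P.MP_8a0bcd_co.Low

/-! The order of growth for boundedly many directions. -/

set_option autoImplicit false

namespace Pool.Agent.Cyl

open Set
open scoped Classical

theorem main (c : ℕ) (hc : 2 ≤ c) : ∃ s₀ b₀ : ℕ, ∀ s, s₀ ≤ s → ∀ b, b₀ ≤ b → ∃ C n₀ : ℕ,
    ∀ n, n₀ ≤ n → (n : ℕ∞) ^ 2 ≤ C * fc c s b n ∧ fc c s b n ≤ C * (n : ℕ∞) ^ 2 := by
  obtain ⟨m, C, hcore⟩ := core c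
  obtain ⟨s₀, b₀, hdec⟩ := decomp_of_lab m (2 * c + 1)
  refine ⟨s₀, b₀, fun s hs b hb => ⟨16 * (3 * (s * b) + 1) ^ 3 + 4 * C, 6, fun n hn => ⟨?_, ?_⟩⟩⟩
  · obtain ⟨F, I, O, h1, h2, h3⟩ := exists_pockets hc hn
    refine le_trans ?_ (mul_le_mul_right (le_iSup (fun F : Family c n => minCells s b F.free) F) _)
    unfold minCells
    have hC : ((16 * (3 * (s * b) + 1) ^ 3 + 4 * C : ℕ) : ℕ∞) ≠ 0 := by
      rw [Nat.cast_ne_zero]
      positivity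
    rw [ENat.mul_iInf_of_ne hC]
    refine le_iInf fun N => ?_
    rw [ENat.mul_iInf_of_ne hC]
    refine le_iInf fun hN => ?_
    have := card_pockets_le hN I O h2 h3
    have h4 : n ^ 2 ≤ (16 * (3 * (s * b) + 1) ^ 3 + 4 * C) * N := by nlinarith [Nat.zero_le (C * N)]
    exact_mod_cast h4
  · refine iSup_le fun F => ?_
    obtain ⟨h1, L, h2, h3, h4⟩ := hcore n F
    refine le_trans (iInf₂_le (L.cl univ).card (hdec s hs b hb _ L h1 h2 h4)) ?_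
    have h5 : (n + 1) ^ 2 ≤ 4 * n ^ 2 := by nlinarith
    have h6 : (L.cl univ).card ≤ (16 * (3 * (s * b) + 1) ^ 3 + 4 * C) * n ^ 2 := by
      nlinarith [Nat.zero_le (16 * (3 * (s * b) + 1) ^ 3 * n ^ 2), Nat.mul_le_mul_left C h5]
    exact_mod_cast h6

end Pool.Agent.Cyl
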