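import Pool.Agent.P.MP_8a0bcd_co.St

/-! Points of the moment curve avoid great circles. -/

set_option autoImplicit false

namespace Pool.Agent.Cyl

open Set
open scoped Classical

/-- The point `(1, j, j ^ 2)`. -/
def mom (j : ℕ) : E := ![1, (j : ℝ), (j : ℝ) ^ 2]

theorem mom_div {x y η : ℝ} (hx : 1 ≤ |x|) (h : |x * y| ≤ η) : |y| ≤ η := by
  rw [abs_mul] at h
  nlinarith [abs_nonneg y]

theorem mom_three {u0 u1 u2 a b c K η : ℝ} (hK : 1 ≤ K) (hη : η * K ^ 2 = 1 / 100)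
    (a0 : 0 ≤ a) (aK : a ≤ K) (b0 : 0 ≤ b) (bK : b ≤ K)
    (ab : 1 ≤ |a - b|) (ac : 1 ≤ |a - c|) (bc : 1 ≤ |b - c|)
    (qa : |u0 + u1 * a + u2 * a ^ 2| ≤ η) (qb : |u0 + u1 * b + u2 * b ^ 2| ≤ η)
    (qc : |u0 + u1 * c + u2 * c ^ 2| ≤ η) : u0 * u0 + u1 * u1 + u2 * u2 < 1 := by
  have hη0 : 0 ≤ η := (abs_nonneg _).trans qa
  have d1 : |u1 + u2 * (a + b)| ≤ 2 * η := by
    refine mom_div ab ?_
    rw [show (a - b) * (u1 + u2 * (a + b)) =
      (u0 + u1 * a + u2 * a ^ 2) - (u0 + u1 * b + u2 * b ^ 2) by ring]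
    exact (abs_sub _ _).trans (by linarith)
  have d2 : |u1 + u2 * (a + c)| ≤ 2 * η := by
    refine mom_div ac ?_
    rw [show (a - c) * (u1 + u2 * (a + c)) =
      (u0 + u1 * a + u2 * a ^ 2) - (u0 + u1 * c + u2 * c ^ 2) by ring]
    exact (abs_sub _ _).trans (by linarith)
  have e2 : |u2| ≤ 4 * η := by
    refine mom_div bc ?_
    rw [show (b - c) * u2 = (u1 + u2 * (a + b)) - (u1 + u2 * (a + c)) by ring]
    exact (abs_sub _ _).trans (by linarith)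
  have hηK : η ≤ η * K := le_mul_of_one_le_right hη0 hK
  have hηK2 : η * K ≤ η * K ^ 2 := by
    rw [sq, ← mul_assoc]
    exact le_mul_of_one_le_right (by positivity) hK
  have e1 : |u1| ≤ 10 * (η * K) := by
    have h1 : |u2 * (a + b)| ≤ 4 * η * (2 * K) := by
      rw [abs_mul]
      exact mul_le_mul e2 (by rw [abs_of_nonneg (by linarith)]; linarith) (abs_nonneg _)
        (by positivity)
    have h2 := abs_sub (u1 + u2 * (a + b)) (u2 * (a + b))
    rw [add_sub_cancel_right] at h2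
    linarith
  have e0 : |u0| ≤ 15 * (η * K ^ 2) := by
    have h1 : |u1 * a| ≤ 10 * (η * K) * K := by
      rw [abs_mul]
      exact mul_le_mul e1 (by rwa [abs_of_nonneg a0]) (abs_nonneg _) (by positivity)
    have h2 : |u2 * a ^ 2| ≤ 4 * η * K ^ 2 := by
      rw [abs_mul]
      exact mul_le_mul e2 (by rw [abs_of_nonneg (by positivity)]; gcongr) (abs_nonneg _)
        (by positivity)
    have h3 := abs_sub (u0 + u1 * a + u2 * a ^ 2) (u2 * a ^ 2)
    have h4 := abs_sub (u0 + u1 * a) (u1 * a)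
    rw [add_sub_cancel_right] at h3 h4
    nlinarith
  have f0 : |u0| ≤ 1 / 2 := by linarith
  have f1 : |u1| ≤ 1 / 2 := by linarith
  have f2 : |u2| ≤ 1 / 2 := by linarith
  rw [← abs_mul_abs_self u0, ← abs_mul_abs_self u1, ← abs_mul_abs_self u2]
  nlinarith [abs_nonneg u0, abs_nonneg u1, abs_nonneg u2]

theorem mom_sep {i j : ℕ} (h : i ≠ j) : (1 : ℝ) ≤ |(i : ℝ) - j| := by
  have : (1 : ℤ) ≤ |(i : ℤ) - j| := Int.one_le_abs (by omega)
  exact_mod_cast this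

theorem mom_dot (u : E) (j : ℕ) : u ⬝ᵥ mom j = u 0 + u 1 * j + u 2 * (j : ℝ) ^ 2 := by
  simp [mom, dotProduct, Fin.sum_univ_three]

theorem exists_mom (M : ℕ) : ∃ θ : ℝ, 0 < θ ∧ ∀ (I : Type) [Fintype I] (u : I → E),
    Fintype.card I ≤ M → (∀ i, u i ⬝ᵥ u i = 1) →
      ∃ j : Fin (2 * M + 1), ∀ i, θ ^ 2 * (mom j ⬝ᵥ mom j) ≤ (u i ⬝ᵥ mom j) ^ 2 := by
  set K : ℝ := 2 * M + 1 with hKdef
  have hK : 1 ≤ K := by
    have : (0 : ℝ) ≤ M := Nat.cast_nonneg M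
    linarith
  have hK0 : 0 < K := by linarith
  set η : ℝ := 1 / (100 * K ^ 2) with hηdef
  have hη : η * K ^ 2 = 1 / 100 := by rw [hηdef]; field_simp
  have hη0 : 0 < η := by positivity
  have hj : ∀ j : Fin (2 * M + 1), ((j : ℕ) : ℝ) ≤ K := fun j => by
    have : ((j : ℕ) : ℝ) ≤ ((2 * M + 1 : ℕ) : ℝ) := by exact_mod_cast j.2.le
    rw [hKdef]
    push_cast at this
    exact this
  refine ⟨η / (2 * K ^ 2), by positivity, fun I _ u hI hu => ?_⟩
  let bad : I → Finset (Fin (2 * M + 1)) := fun i =>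
    Finset.univ.filter fun j => |u i ⬝ᵥ mom j| ≤ η
  have hbad : ∀ i, (bad i).card ≤ 2 := by
    intro i
    by_contra hc
    obtain ⟨a, ha, b, hb, c, hc, ab, ac, bc⟩ := Finset.two_lt_card.1 (not_le.1 hc)
    simp only [bad, Finset.mem_filter, Finset.mem_univ, true_and, mom_dot] at ha hb hc
    have := mom_three hK hη (Nat.cast_nonneg _) (hj a) (Nat.cast_nonneg _) (hj b)
      (mom_sep (Fin.val_ne_of_ne ab)) (mom_sep (Fin.val_ne_of_ne ac))
      (mom_sep (Fin.val_ne_of_ne bc)) ha hb hc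
    have h1 := hu i
    simp only [dotProduct, Fin.sum_univ_three] at h1
    linarith
  have hcard : (Finset.univ.biUnion bad).card < (Finset.univ : Finset (Fin (2 * M + 1))).card := by
    have := Finset.card_biUnion_le_card_mul Finset.univ bad 2 fun i _ => hbad i
    rw [Finset.card_univ] at this
    rw [Finset.card_univ, Fintype.card_fin]
    omega
  obtain ⟨j, -, hjb⟩ := Finset.exists_mem_notMem_of_card_lt_card hcard
  refine ⟨j, fun i => ?_⟩
  have h1 : η < |u i ⬝ᵥ mom j| := by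
    by_contra hc
    exact hjb (Finset.mem_biUnion.2 ⟨i, Finset.mem_univ _,
      Finset.mem_filter.2 ⟨Finset.mem_univ _, not_lt.1 hc⟩⟩)
  have h2 : mom j ⬝ᵥ mom j ≤ 4 * K ^ 4 := by
    rw [mom_dot]
    have a0 : (0 : ℝ) ≤ (j : ℕ) := Nat.cast_nonneg _
    have a1 : ((j : ℕ) : ℝ) ^ 2 ≤ K ^ 2 := by have := hj j; gcongr
    have a2 : ((j : ℕ) : ℝ) ^ 4 ≤ K ^ 4 := by have := hj j; gcongr
    have a3 : K ^ 2 ≤ K ^ 4 := pow_le_pow_right₀ hK (by norm_num)
    have a4 : 1 ≤ K ^ 4 := one_le_pow₀ hK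
    simp only [mom, Matrix.cons_val_zero, Matrix.cons_val_one, Matrix.cons_val]
    nlinarith
  have h3 : η ^ 2 ≤ (u i ⬝ᵥ mom j) ^ 2 := by
    rw [← sq_abs (u i ⬝ᵥ mom j)]
    gcongr
  calc (η / (2 * K ^ 2)) ^ 2 * (mom j ⬝ᵥ mom j) ≤ (η / (2 * K ^ 2)) ^ 2 * (4 * K ^ 4) := by
        gcongr
    _ = η ^ 2 := by field_simp; ring
    _ ≤ _ := h3

end Pool.Agent.Cyl
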