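import Pool.Agent.P.MP_8a0bcd_co.St

/-! Quantifier elimination, the real-variable step. -/

set_option autoImplicit false

namespace Pool.Agent.Cyl

open Set
open scoped Classical

open Polynomial

theorem qea_stretch {b x y : ℝ} (hx : b < x) (hy : b < y) :
    ∃ g : ℝ ≃o ℝ, (∀ s, s ≤ b → g s = s) ∧ g x = y := by
  obtain ⟨c, hc, hcx⟩ : ∃ c : ℝ, 0 < c ∧ (x - b) * c = y - b :=
    ⟨(y - b) / (x - b), div_pos (by linarith) (by linarith),
      mul_div_cancel₀ _ (by linarith : 0 < x - b).ne'⟩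
  have hm : StrictMono fun s : ℝ => if s ≤ b then s else b + (s - b) * c := by
    intro s s' hs
    dsimp only
    split_ifs with h1 h2 h2
    · exact hs
    · have : 0 < (s' - b) * c := mul_pos (by linarith) hc
      linarith
    · linarith
    · nlinarith
  have hsur : Function.Surjective fun s : ℝ => if s ≤ b then s else b + (s - b) * c := by
    intro z
    by_cases hz : z ≤ b
    · exact ⟨z, if_pos hz⟩
    · have h1 : 0 < (z - b) / c := div_pos (by linarith) hc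
      refine ⟨b + (z - b) / c, ?_⟩
      dsimp only
      rw [if_neg (by linarith)]
      field_simp
      ring
  refine ⟨hm.orderIsoOfSurjective _ hsur, fun s hs => ?_, ?_⟩
  · rw [StrictMono.coe_orderIsoOfSurjective]
    exact if_pos hs
  · rw [StrictMono.coe_orderIsoOfSurjective]
    rw [if_neg (by linarith), hcx]
    ring

/-- A strictly increasing map on a finite set extends to an order automorphism of the line. -/
theorem exists_orderIso_extend (F : Finset ℝ) (m : ℝ → ℝ) (hm : StrictMonoOn m F) :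
    ∃ ψ : ℝ ≃o ℝ, ∀ t ∈ F, ψ t = m t := by
  induction F using Finset.induction_on_max with
  | empty => exact ⟨OrderIso.refl ℝ, by simp⟩
  | insert t s hts ih =>
    obtain ⟨ψ, hψ⟩ := ih (hm.mono (by simp))
    have hlt : ∀ x ∈ s, m x < min (ψ t) (m t) := fun x hx =>
      lt_min (by rw [← hψ x hx]; exact ψ.strictMono (hts x hx))
        (hm (by simp [hx]) (by simp) (hts x hx))
    obtain ⟨b, hb, hb'⟩ : ∃ b, b < min (ψ t) (m t) ∧ ∀ x ∈ s, m x ≤ b := by
      rcases s.eq_empty_or_nonempty with rfl | hne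
      · exact ⟨min (ψ t) (m t) - 1, by linarith, by simp⟩
      · obtain ⟨x, hx, hx'⟩ := s.exists_max_image m hne
        exact ⟨m x, hlt x hx, hx'⟩
    obtain ⟨g, hg, hg'⟩ := qea_stretch (lt_min_iff.1 hb).1 (lt_min_iff.1 hb).2
    refine ⟨ψ.trans g, fun x hx => ?_⟩
    rcases Finset.mem_insert.1 hx with rfl | hx
    · exact hg'
    · rw [OrderIso.trans_apply, hψ x hx, hg _ (hb' x hx)]

/-- The open gap of `Z` around `t`. -/
def qeaO (Z : Finset ℝ) (t : ℝ) : Set ℝ := {s | ∀ z ∈ Z, (z < t → z < s) ∧ (t < z → s < z)}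

/-- The closed gap of `Z` around `t`. -/
def qeaC (Z : Finset ℝ) (t : ℝ) : Set ℝ := {s | ∀ z ∈ Z, (z < t → z ≤ s) ∧ (t < z → s ≤ z)}

/-- The function is unbounded in both directions. -/
def qeaU (q : ℝ → ℝ) : Prop :=
  ∀ a, (∃ s, a < s ∧ |q a| < |q s|) ∧ ∃ s, s < a ∧ |q a| < |q s|

theorem qea_self (Z : Finset ℝ) (t : ℝ) : t ∈ qeaO Z t := fun _ _ => ⟨id, id⟩

theorem qea_sub {Z : Finset ℝ} {t s : ℝ} (h : s ∈ qeaO Z t) : s ∈ qeaC Z t :=
  fun z hz => ⟨fun h1 => ((h z hz).1 h1).le, fun h1 => ((h z hz).2 h1).le⟩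

theorem qea_ord (Z : Finset ℝ) (t : ℝ) : (qeaO Z t).OrdConnected :=
  ⟨fun _ ha _ hb _ hx z hz =>
    ⟨fun h => ((ha z hz).1 h).trans_le hx.1, fun h => hx.2.trans_lt ((hb z hz).2 h)⟩⟩

theorem qea_not {Z : Finset ℝ} {t s : ℝ} (ht : t ∉ Z) (h : s ∈ qeaO Z t) : s ∉ Z := by
  intro hs
  rcases lt_trichotomy s t with h1 | rfl | h1
  · exact lt_irrefl _ ((h s hs).1 h1)
  · exact ht hs
  · exact lt_irrefl _ ((h s hs).2 h1)

theorem qea_trans {Z : Finset ℝ} {t s r : ℝ} (h : s ∈ qeaO Z t) (h' : r ∈ qeaO Z s) :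
    r ∈ qeaO Z t :=
  fun z hz => ⟨fun h1 => (h' z hz).1 ((h z hz).1 h1), fun h1 => (h' z hz).2 ((h z hz).2 h1)⟩

theorem qea_pos {f : ℝ → ℝ} (hf : Continuous f) {S : Set ℝ} (hS : S.OrdConnected)
    (h : ∀ x ∈ S, f x ≠ 0) {a b : ℝ} (ha : a ∈ S) (hb : b ∈ S) (hp : 0 < f a) : 0 < f b := by
  by_contra hc
  obtain ⟨x, hx, h0⟩ := hS.isPreconnected.intermediate_value hb ha hf.continuousOn
    ⟨not_lt.1 hc, hp.le⟩
  exact h x hx h0

theorem qea_sign {f : ℝ → ℝ} (hf : Continuous f) {S : Set ℝ} (hS : S.OrdConnected)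
    (h : ∀ x ∈ S, f x ≠ 0) {a b : ℝ} (ha : a ∈ S) (hb : b ∈ S) :
    SignType.sign (f a) = SignType.sign (f b) := by
  rcases lt_or_gt_of_ne (h a ha) with h1 | h1
  · have h2 : f b < 0 := lt_of_le_of_ne
      (not_lt.1 fun h2 => lt_asymm h1 (qea_pos hf hS h hb ha h2)) (h b hb)
    rw [sign_neg h1, sign_neg h2]
  · rw [sign_pos h1, sign_pos (qea_pos hf hS h ha hb h1)]

theorem qea_up {Z : Finset ℝ} {p q : ℝ → ℝ} (hq : Continuous q) (hU : qeaU q)
    (hZ : ∀ z ∈ Z, 0 < p z → 0 < q z) {t : ℝ} (hpm : StrictMonoOn p (qeaC Z t))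
    (hqm : StrictMonoOn q (qeaC Z t)) (h : 0 ≤ p t) : ∃ s ∈ qeaO Z t, 0 < q s := by
  have htC := qea_sub (qea_self Z t)
  rcases (Z.filter fun z => t < z).eq_empty_or_nonempty with he | hne
  · obtain ⟨s, hs, hs'⟩ := (hU t).1
    have hsO : s ∈ qeaO Z t := fun z hz => ⟨fun h1 => h1.trans hs, fun h1 =>
      absurd (Finset.mem_filter.2 ⟨hz, h1⟩) (by rw [he]; exact Finset.notMem_empty z)⟩
    refine ⟨s, hsO, ?_⟩
    have := hqm htC (qea_sub hsO) hs
    by_contra hc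
    rw [abs_of_nonpos (not_lt.1 hc)] at hs'
    have := neg_abs_le (q t)
    linarith
  · obtain ⟨b, hb, hb'⟩ := (Z.filter fun z => t < z).exists_min_image id hne
    obtain ⟨hbZ, htb⟩ := Finset.mem_filter.1 hb
    have hle : ∀ z ∈ Z, t < z → b ≤ z := fun z hz h1 => hb' z (Finset.mem_filter.2 ⟨hz, h1⟩)
    have hbC : b ∈ qeaC Z t := fun z hz => ⟨fun h1 => (h1.trans htb).le, hle z hz⟩
    have h1 : 0 < q b := hZ b hbZ (h.trans_lt (hpm htC hbC htb))
    have h2 : ∀ᶠ s in nhdsWithin b (Iio b), 0 < q s :=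
      nhdsWithin_le_nhds (hq.continuousAt.eventually (lt_mem_nhds h1))
    obtain ⟨s, hs, hs'⟩ := (h2.and (Ioo_mem_nhdsLT htb)).exists
    exact ⟨s, fun z hz => ⟨fun h3 => h3.trans hs'.1, fun h3 => hs'.2.trans_le (hle z hz h3)⟩, hs⟩

theorem qea_down {Z : Finset ℝ} {p q : ℝ → ℝ} (hq : Continuous q) (hU : qeaU q)
    (hZ : ∀ z ∈ Z, p z < 0 → q z < 0) {t : ℝ} (hpm : StrictMonoOn p (qeaC Z t))
    (hqm : StrictMonoOn q (qeaC Z t)) (h : p t ≤ 0) : ∃ s ∈ qeaO Z t, q s < 0 := by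
  have htC := qea_sub (qea_self Z t)
  rcases (Z.filter fun z => z < t).eq_empty_or_nonempty with he | hne
  · obtain ⟨s, hs, hs'⟩ := (hU t).2
    have hsO : s ∈ qeaO Z t := fun z hz => ⟨fun h1 =>
      absurd (Finset.mem_filter.2 ⟨hz, h1⟩) (by rw [he]; exact Finset.notMem_empty z),
      fun h1 => hs.trans h1⟩
    refine ⟨s, hsO, ?_⟩
    have := hqm (qea_sub hsO) htC hs
    by_contra hc
    rw [abs_of_nonneg (not_lt.1 hc)] at hs'
    have := le_abs_self (q t)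
    linarith
  · obtain ⟨b, hb, hb'⟩ := (Z.filter fun z => z < t).exists_max_image id hne
    obtain ⟨hbZ, htb⟩ := Finset.mem_filter.1 hb
    have hle : ∀ z ∈ Z, z < t → z ≤ b := fun z hz h1 => hb' z (Finset.mem_filter.2 ⟨hz, h1⟩)
    have hbC : b ∈ qeaC Z t := fun z hz => ⟨hle z hz, fun h1 => (htb.trans h1).le⟩
    have h1 : q b < 0 := hZ b hbZ ((hpm hbC htC htb).trans_le h)
    have h2 : ∀ᶠ s in nhdsWithin b (Ioi b), q s < 0 :=
      nhdsWithin_le_nhds (hq.continuousAt.eventually (gt_mem_nhds h1))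
    obtain ⟨s, hs, hs'⟩ := (h2.and (Ioo_mem_nhdsGT htb)).exists
    exact ⟨s, fun z hz => ⟨fun h3 => (hle z hz h3).trans_lt hs'.1, fun h3 => hs'.2.trans h3⟩, hs⟩

/-- If `q` has no root in the gap then its sign there is the sign of `p`. -/
theorem qea_key {Z : Finset ℝ} {p q : ℝ → ℝ} (hq : Continuous q) (hU : qeaU q)
    (hZ : ∀ z ∈ Z, SignType.sign (p z) = SignType.sign (q z)) {t : ℝ}
    (hpm : StrictMonoOn p (qeaC Z t)) (hqm : StrictMonoOn q (qeaC Z t))
    (h : ∀ s ∈ qeaO Z t, q s ≠ 0) :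
    ∀ s ∈ qeaO Z t, SignType.sign (p t) = SignType.sign (q s) := by
  intro s hs
  have up := qea_up hq hU (fun z hz h1 => sign_eq_one_iff.1 (hZ z hz ▸ sign_pos h1)) hpm hqm
  have dn := qea_down hq hU (fun z hz h1 => sign_eq_neg_one_iff.1 (hZ z hz ▸ sign_neg h1)) hpm hqm
  rcases lt_trichotomy (p t) 0 with h1 | h1 | h1
  · obtain ⟨r, hr, hr'⟩ := dn h1.le
    rw [sign_neg h1, ← qea_sign hq (qea_ord Z t) h hr hs, sign_neg hr']
  · obtain ⟨r, hr, hr'⟩ := dn h1.le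
    obtain ⟨r1, hr1, hr1'⟩ := up h1.ge
    exact absurd (qea_pos hq (qea_ord Z t) h hr1 hr hr1') (lt_asymm hr')
  · obtain ⟨r, hr, hr'⟩ := up h1.le
    rw [sign_pos h1, ← qea_sign hq (qea_ord Z t) h hr hs, sign_pos hr']

theorem qea_key' {Z : Finset ℝ} {p q : ℝ → ℝ} (hq : Continuous q) (hU : qeaU q)
    (hZ : ∀ z ∈ Z, SignType.sign (p z) = SignType.sign (q z)) {t : ℝ}
    (hm : (StrictMonoOn p (qeaC Z t) ∧ StrictMonoOn q (qeaC Z t)) ∨
      (StrictAntiOn p (qeaC Z t) ∧ StrictAntiOn q (qeaC Z t)))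
    (h : ∀ s ∈ qeaO Z t, q s ≠ 0) :
    ∀ s ∈ qeaO Z t, SignType.sign (p t) = SignType.sign (q s) := by
  rcases hm with ⟨h1, h2⟩ | ⟨h1, h2⟩
  · exact qea_key hq hU hZ h1 h2 h
  · intro s hs
    have := qea_key (p := fun x => -p x) (q := fun x => -q x) hq.neg
      (by simpa only [qeaU, abs_neg] using hU)
      (fun z hz => by rw [Left.sign_neg, Left.sign_neg, hZ z hz]) h1.neg h2.neg
      (fun s hs => neg_ne_zero.2 (h s hs)) s hs
    rwa [Left.sign_neg, Left.sign_neg, neg_inj] at this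

theorem qea_core {Z R : Finset ℝ} {p q : ℝ → ℝ} (hp : Continuous p) (hq : Continuous q)
    (hUp : qeaU p) (hUq : qeaU q) (hR : ∀ r, p r = 0 ↔ r ∈ R)
    (hZ : ∀ z ∈ Z, SignType.sign (p z) = SignType.sign (q z))
    (hm : ∀ t, t ∉ Z → (StrictMonoOn p (qeaC Z t) ∧ StrictMonoOn q (qeaC Z t)) ∨
      (StrictAntiOn p (qeaC Z t) ∧ StrictAntiOn q (qeaC Z t))) :
    ∃ ψ : ℝ ≃o ℝ, (∀ z ∈ Z, ψ z = z) ∧ ∀ t, SignType.sign (p t) = SignType.sign (q (ψ t)) := by
  have hex : ∀ r, ∃ s, (r ∈ Z → s = r) ∧ s ∈ qeaO Z r ∧ (r ∉ Z → p r = 0 → q s = 0) := by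
    intro r
    by_cases hr : r ∈ Z
    · exact ⟨r, fun _ => rfl, qea_self Z r, fun h => absurd hr h⟩
    by_cases h0 : ∃ s ∈ qeaO Z r, q s = 0
    · obtain ⟨s, hs, hs'⟩ := h0
      exact ⟨s, fun h => absurd h hr, hs, fun _ _ => hs'⟩
    · push Not at h0
      refine ⟨r, fun _ => rfl, qea_self Z r, fun _ h1 => ?_⟩
      have := qea_key' hq hUq hZ (hm r hr) h0 r (qea_self Z r)
      rw [h1, sign_zero] at this
      exact sign_eq_zero_iff.1 this.symm
  choose m m1 m2 m3 using hex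
  have hmono : StrictMonoOn m ((Z ∪ R : Finset ℝ) : Set ℝ) := by
    intro a ha b hb hab
    by_cases haZ : a ∈ Z
    · rw [m1 a haZ]
      exact (m2 b a haZ).1 hab
    by_cases hbZ : b ∈ Z
    · rw [m1 b hbZ]
      exact (m2 a b hbZ).2 hab
    have ha0 : p a = 0 := (hR a).2 ((Finset.mem_union.1 ha).resolve_left haZ)
    have hb0 : p b = 0 := (hR b).2 ((Finset.mem_union.1 hb).resolve_left hbZ)
    by_cases hz : ∃ z ∈ Z, a < z ∧ z < b
    · obtain ⟨z, hz, h1, h2⟩ := hz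
      exact ((m2 a z hz).2 h1).trans ((m2 b z hz).1 h2)
    · push Not at hz
      have hbC : b ∈ qeaC Z a := fun z h => ⟨fun h1 => (h1.trans hab).le, hz z h⟩
      have haC := qea_sub (qea_self Z a)
      rcases hm a haZ with ⟨h1, -⟩ | ⟨h1, -⟩
      · exact absurd (h1 haC hbC hab) (by rw [ha0, hb0]; exact lt_irrefl _)
      · exact absurd (h1 haC hbC hab) (by rw [ha0, hb0]; exact lt_irrefl _)
  obtain ⟨ψ, hψ⟩ := exists_orderIso_extend _ m hmono
  have hfix : ∀ z ∈ Z, ψ z = z := fun z hz => by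
    rw [hψ z (Finset.mem_union_left _ hz), m1 z hz]
  refine ⟨ψ, hfix, fun t => ?_⟩
  by_cases ht : t ∈ Z
  · rw [hfix t ht, hZ t ht]
  have hO : ψ t ∈ qeaO Z t := fun z hz =>
    ⟨fun h => by rw [← hfix z hz]; exact ψ.strictMono h,
      fun h => by rw [← hfix z hz]; exact ψ.strictMono h⟩
  by_cases h0 : ∃ r ∈ qeaO Z t, p r = 0
  · obtain ⟨r, hr, hr0⟩ := h0
    have hψr : ψ r = m r := hψ r (Finset.mem_union_right _ ((hR r).1 hr0))
    have hq0 : q (ψ r) = 0 := by rw [hψr]; exact m3 r (qea_not ht hr) hr0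
    have hrC := qea_sub hr
    have hrC' : ψ r ∈ qeaC Z t := by rw [hψr]; exact qea_sub (qea_trans hr (m2 r))
    have htC := qea_sub (qea_self Z t)
    have htC' := qea_sub hO
    rcases lt_trichotomy t r with h | rfl | h
    · rcases hm t ht with ⟨h1, h2⟩ | ⟨h1, h2⟩
      · rw [sign_neg (hr0 ▸ h1 htC hrC h), sign_neg (hq0 ▸ h2 htC' hrC' (ψ.strictMono h))]
      · rw [sign_pos (hr0 ▸ h1 htC hrC h), sign_pos (hq0 ▸ h2 htC' hrC' (ψ.strictMono h))]
    · rw [hr0, hq0]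
    · rcases hm t ht with ⟨h1, h2⟩ | ⟨h1, h2⟩
      · rw [sign_pos (hr0 ▸ h1 hrC htC h), sign_pos (hq0 ▸ h2 hrC' htC' (ψ.strictMono h))]
      · rw [sign_neg (hr0 ▸ h1 hrC htC h), sign_neg (hq0 ▸ h2 hrC' htC' (ψ.strictMono h))]
  · push Not at h0
    refine qea_key' hq hUq hZ (hm t ht) (fun s hs hs0 => ?_) _ hO
    have := qea_key' hp hUp (fun z hz => (hZ z hz).symm)
      ((hm s (qea_not ht hs)).imp And.symm And.symm) (fun r hr => h0 r (qea_trans hs hr)) s
      (qea_self Z s)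
    rw [hs0, sign_zero] at this
    exact h0 s hs (sign_eq_zero_iff.1 this.symm)

theorem qea_unb (Q : ℝ[X]) (hQ : derivative Q ≠ 0) (φ : ℝ ≃o ℝ) :
    qeaU fun t => Q.eval (φ t) := by
  have hd : 0 < Q.degree := by
    by_contra hc
    rw [eq_C_of_degree_le_zero (not_lt.1 hc), derivative_C] at hQ
    exact hQ rfl
  intro a
  have h1 := Q.tendsto_abv_atTop abs hd (Filter.tendsto_abs_atTop_atTop.comp φ.tendsto_atTop)
  have h2 := Q.tendsto_abv_atTop abs hd (Filter.tendsto_abs_atBot_atTop.comp φ.tendsto_atBot)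
  exact ⟨((Filter.eventually_gt_atTop a).and (h1.eventually_gt_atTop _)).exists,
    ((Filter.eventually_lt_atBot a).and (h2.eventually_gt_atTop _)).exists⟩

theorem qea_mvt (P : ℝ[X]) {a b : ℝ} (hab : a < b) :
    ∃ c ∈ Ioo a b, P.eval b - P.eval a = (derivative P).eval c * (b - a) := by
  obtain ⟨c, hc, h⟩ := exists_hasDerivAt_eq_slope (fun x => P.eval x)
    (fun x => (derivative P).eval x) hab P.continuous.continuousOn fun x _ => P.hasDerivAt x
  exact ⟨c, hc, by rw [h, div_mul_cancel₀ _ (sub_pos.2 hab).ne']⟩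

/-- Sign tables: adding a polynomial whose derivative is in the table. -/
theorem qe_real {I : Type} [Finite I] (u v : I → ℝ[X]) (i0 : I) (P Q : ℝ[X]) (φ : ℝ ≃o ℝ)
    (hu : ∀ i, u i ≠ 0) (hP : derivative P = u i0) (hQ : derivative Q = v i0)
    (huv : ∀ i t, SignType.sign ((u i).eval t) = SignType.sign ((v i).eval (φ t)))
    (hPQ : ∀ i t, (u i).eval t = 0 → SignType.sign (P.eval t) = SignType.sign (Q.eval (φ t))) :
    ∃ ψ : ℝ ≃o ℝ, (∀ i t, SignType.sign ((u i).eval t) = SignType.sign ((v i).eval (ψ t))) ∧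
      ∀ t, SignType.sign (P.eval t) = SignType.sign (Q.eval (ψ t)) := by
  have := Fintype.ofFinite I
  obtain ⟨Z, hZ⟩ : ∃ Z : Finset ℝ, ∀ t, t ∈ Z ↔ ∃ i, (u i).eval t = 0 :=
    ⟨Finset.univ.biUnion fun i => (u i).roots.toFinset, fun t => by simp [hu]⟩
  have hP0 : derivative P ≠ 0 := hP ▸ hu i0
  have hP1 : P ≠ 0 := fun h => hP0 (by rw [h, derivative_zero])
  have hQ0 : derivative Q ≠ 0 := by
    intro h
    refine hu i0 (Polynomial.funext fun t => ?_)
    have := huv i0 t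
    rw [← hQ, h, eval_zero, sign_zero] at this
    rw [sign_eq_zero_iff.1 this, eval_zero]
  have hconst : ∀ i t s, t ∉ Z → s ∈ qeaO Z t →
      SignType.sign ((u i).eval t) = SignType.sign ((u i).eval s) := fun i t s ht hs =>
    qea_sign (u i).continuous (qea_ord Z t)
      (fun x hx h => qea_not ht hx ((hZ x).2 ⟨i, h⟩)) (qea_self Z t) hs
  have hslope : ∀ t, t ∉ Z → ∀ a ∈ qeaC Z t, ∀ b ∈ qeaC Z t, a < b →
      SignType.sign (P.eval b - P.eval a) = SignType.sign ((u i0).eval t) ∧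
      SignType.sign (Q.eval (φ b) - Q.eval (φ a)) = SignType.sign ((u i0).eval t) := by
    intro t ht a ha b hb hab
    have hI : ∀ c, a < c → c < b → c ∈ qeaO Z t := fun c h1 h2 z hz =>
      ⟨fun h => ((ha z hz).1 h).trans_lt h1, fun h => h2.trans_le ((hb z hz).2 h)⟩
    obtain ⟨c, hc, h1⟩ := qea_mvt P hab
    obtain ⟨e, he, h2⟩ := qea_mvt Q (φ.strictMono hab)
    obtain ⟨e, rfl⟩ := φ.surjective e
    rw [h1, h2, sign_mul, sign_mul, sign_pos (sub_pos.2 hab),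
      sign_pos (sub_pos.2 (φ.strictMono hab)), mul_one, mul_one, hP, hQ, ← huv]
    exact ⟨(hconst i0 t c ht (hI c hc.1 hc.2)).symm,
      (hconst i0 t e ht (hI e (φ.lt_iff_lt.1 he.1) (φ.lt_iff_lt.1 he.2))).symm⟩
  obtain ⟨ψ, h1, h2⟩ := qea_core (Z := Z) (R := P.roots.toFinset) (p := fun t => P.eval t)
    (q := fun t => Q.eval (φ t)) P.continuous (Q.continuous.comp φ.continuous)
    (qea_unb P hP0 (OrderIso.refl ℝ)) (qea_unb Q hQ0 φ) (fun r => by simp [hP1])
    (fun z hz => by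
      obtain ⟨i, hi⟩ := (hZ z).1 hz
      exact hPQ i z hi)
    (fun t ht => by
      have hne : (u i0).eval t ≠ 0 := fun h => ht ((hZ t).2 ⟨i0, h⟩)
      rcases lt_or_gt_of_ne hne with h | h
      · exact Or.inr ⟨fun a ha b hb hab => by
            have := (hslope t ht a ha b hb hab).1
            rwa [sign_neg h, sign_eq_neg_one_iff, sub_neg] at this,
          fun a ha b hb hab => by
            have := (hslope t ht a ha b hb hab).2
            rwa [sign_neg h, sign_eq_neg_one_iff, sub_neg] at this⟩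
      · exact Or.inl ⟨fun a ha b hb hab => by
            have := (hslope t ht a ha b hb hab).1
            rwa [sign_pos h, sign_eq_one_iff, sub_pos] at this,
          fun a ha b hb hab => by
            have := (hslope t ht a ha b hb hab).2
            rwa [sign_pos h, sign_eq_one_iff, sub_pos] at this⟩)
  refine ⟨ψ.trans φ, fun i t => ?_, h2⟩
  rw [OrderIso.trans_apply, ← huv]
  by_cases ht : t ∈ Z
  · rw [h1 t ht]
  · exact hconst i t _ ht fun z hz =>
      ⟨fun h => by rw [← h1 z hz]; exact ψ.strictMono h,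
        fun h => by rw [← h1 z hz]; exact ψ.strictMono h⟩

end Pool.Agent.Cyl
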