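import Pool.Agent.P.MP_8a0bcd_co.QEA

/-! Quantifier elimination (Tarski, Seidenberg; proof of Cohen and Hoermander). -/

set_option autoImplicit false

namespace Pool.Agent.Cyl

open Set
open scoped Classical

open Polynomial

/-- Induction on finite families: a member may be replaced by members of smaller degree. -/
theorem qeb_ind {A : Type} [CommRing A] {Good : Finset A[X] → Prop}
    (step : ∀ T : Finset A[X], (∀ p ∈ T, ∀ N : Finset A[X], (∀ q ∈ N, q.degree < p.degree) →
      Good (T.erase p ∪ N)) → Good T) (T : Finset A[X]) : Good T := by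
  have hwf : WellFounded fun S T : Finset A[X] =>
      Multiset.IsDershowitzMannaLT (S.val.map degree) (T.val.map degree) :=
    InvImage.wf (fun S : Finset A[X] => S.val.map degree) Multiset.wellFounded_isDershowitzMannaLT
  induction T using hwf.induction with
  | _ T ih =>
    refine step T fun p hp N hN => ih _ ?_
    refine ⟨(T.erase p).val.map degree, (N \ T.erase p).val.map degree, {p.degree}, by simp, ?_,
      ?_, ?_⟩
    · rw [← Multiset.map_add]
      congr 1
      rw [← Finset.union_sdiff_self_eq_union, ← Finset.disjUnion_eq_union _ _ Finset.disjoint_sdiff]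
      rfl
    · have h1 : T.val = p ::ₘ (T.erase p).val := by
        rw [Finset.erase_val, Multiset.cons_erase hp]
      rw [h1, Multiset.map_cons, add_comm, Multiset.singleton_add]
    · intro y hy
      obtain ⟨q, hq, rfl⟩ := Multiset.mem_map.1 hy
      exact ⟨p.degree, Multiset.mem_singleton_self _, hN q (Finset.mem_sdiff.1 hq).1⟩

/-- Pseudo-division. -/
theorem qeb_pseudo {A : Type} [CommRing A] [IsDomain A] {q : A[X]} (hq : q ≠ 0) (p : A[X]) :
    ∃ (e : ℕ) (s r : A[X]), C q.leadingCoeff ^ e * p = s * q + r ∧ r.degree < q.degree := by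
  induction p using degree_lt_wf.induction with
  | _ p ih =>
    by_cases h : p.degree < q.degree
    · exact ⟨0, 0, p, by simp, h⟩
    have hle : q.degree ≤ p.degree := not_lt.1 h
    have hp : p ≠ 0 := by
      rintro rfl
      rw [degree_zero, le_bot_iff, degree_eq_bot] at hle
      exact hq hle
    have hnat : q.natDegree ≤ p.natDegree := natDegree_le_natDegree hle
    have hlq : q.leadingCoeff ≠ 0 := leadingCoeff_ne_zero.2 hq
    have hlp : p.leadingCoeff ≠ 0 := leadingCoeff_ne_zero.2 hp
    have hd1 : (C q.leadingCoeff * p).degree = p.degree := degree_C_mul hlq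
    have hd2 : (C p.leadingCoeff * X ^ (p.natDegree - q.natDegree) * q).degree = p.degree := by
      rw [degree_mul, degree_C_mul_X_pow _ hlp, degree_eq_natDegree hq, degree_eq_natDegree hp,
        ← Nat.cast_add, Nat.sub_add_cancel hnat]
    have hlt : (C q.leadingCoeff * p
        - C p.leadingCoeff * X ^ (p.natDegree - q.natDegree) * q).degree < p.degree := by
      rw [← hd1]
      refine degree_sub_lt_left (hd1.trans hd2.symm) (mul_ne_zero (C_ne_zero.2 hlq) hp) ?_
      rw [leadingCoeff_mul, leadingCoeff_mul, leadingCoeff_C, leadingCoeff_C_mul_X_pow, mul_comm]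
    obtain ⟨e, s, r, he, hr⟩ := ih _ hlt
    refine ⟨e + 1, s + C q.leadingCoeff ^ e * (C p.leadingCoeff * X ^ (p.natDegree - q.natDegree)),
      r, ?_, hr⟩
    linear_combination he

/-- Pseudo-division with an even exponent. -/
theorem qeb_even {A : Type} [CommRing A] [IsDomain A] {p : A[X]} (hp : p ≠ 0) (q : A[X]) :
    ∃ (e : ℕ) (s r : A[X]), (q.degree ≤ p.degree → r.degree < p.degree) ∧
      (q ≠ 0 → C q.leadingCoeff ^ (2 * e) * p = s * q + r) := by
  by_cases hq : q = 0
  · exact ⟨0, 0, 0, fun _ => by rw [degree_zero]; exact bot_lt_iff_ne_bot.2 (degree_ne_bot.2 hp),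
      fun h => absurd hq h⟩
  obtain ⟨e, s, r, he, hr⟩ := qeb_pseudo hq p
  refine ⟨e, C q.leadingCoeff ^ e * s, C q.leadingCoeff ^ e * r, fun hle => ?_, fun _ => ?_⟩
  · rw [← C_pow, degree_C_mul (pow_ne_zero _ (leadingCoeff_ne_zero.2 hq))]
    exact hr.trans_le hle
  · linear_combination C q.leadingCoeff ^ e * he

theorem qeb_root {A : Type} [CommRing A] {p q s r : A[X]} {e : ℕ} (f : A →+* ℝ)
    (h : C q.leadingCoeff ^ (2 * e) * p = s * q + r) (hl : f q.leadingCoeff ≠ 0) {t : ℝ}
    (ht : (q.map f).eval t = 0) :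
    SignType.sign ((p.map f).eval t) = SignType.sign ((r.map f).eval t) := by
  have h1 := congrArg (fun z : A[X] => (z.map f).eval t) h
  simp only [Polynomial.map_mul, Polynomial.map_add, Polynomial.map_pow, map_C, eval_mul, eval_add,
    eval_pow, eval_C, ht, mul_zero, zero_add] at h1
  have h2 : 0 < f q.leadingCoeff ^ (2 * e) := Even.pow_pos (even_two_mul e) hl
  rw [← h1, sign_mul, sign_pos h2, one_mul]

theorem qeb_erase {A : Type} [CommRing A] {q : A[X]} (f : A →+* ℝ) (hl : f q.leadingCoeff = 0) :
    q.map f = q.eraseLead.map f := by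
  conv_lhs => rw [← eraseLead_add_monomial_natDegree_leadingCoeff q]
  rw [Polynomial.map_add, Polynomial.map_monomial, hl, monomial_zero_right, add_zero]

theorem qeb_ne {A : Type} [CommRing A] {q : A[X]} (f : A →+* ℝ) (hl : f q.leadingCoeff ≠ 0) :
    q.map f ≠ 0 := by
  intro h
  apply hl
  have h1 := congrArg (fun z : ℝ[X] => z.coeff q.natDegree) h
  simpa using h1

/-- The sign table of a finite family of polynomials is determined by the signs of finitely many
elements of the coefficient ring. -/
theorem qe_core {A : Type} [CommRing A] [IsDomain A] [CharZero A] (T : Finset A[X]) :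
    ∃ T' : Finset A, ∀ f g : A →+* ℝ, (∀ a ∈ T', SignType.sign (f a) = SignType.sign (g a)) →
      ∃ φ : ℝ ≃o ℝ, ∀ p ∈ T, ∀ t,
        SignType.sign ((p.map f).eval t) = SignType.sign ((p.map g).eval (φ t)) := by
  induction T using qeb_ind with
  | step T ih =>
    -- families with one leading term erased
    have h1 : ∀ q : A[X], ∃ T1 : Finset A, q ∈ T → ∀ f g : A →+* ℝ,
        (∀ a ∈ T1, SignType.sign (f a) = SignType.sign (g a)) →
        f q.leadingCoeff = 0 → g q.leadingCoeff = 0 → ∃ φ : ℝ ≃o ℝ, ∀ p ∈ T, ∀ t,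
          SignType.sign ((p.map f).eval t) = SignType.sign ((p.map g).eval (φ t)) := by
      intro q
      by_cases hqT : q ∈ T
      swap
      · exact ⟨∅, fun h => absurd h hqT⟩
      by_cases hq : q = 0
      · obtain ⟨T1, hT1⟩ := ih q hqT ∅ (by simp)
        refine ⟨T1, fun _ f g hfg _ _ => ?_⟩
        obtain ⟨φ, hφ⟩ := hT1 f g hfg
        refine ⟨φ, fun p hp t => ?_⟩
        by_cases hpq : p = q
        · rw [hpq, hq]
          simp
        · exact hφ p (Finset.mem_union_left _ (Finset.mem_erase.2 ⟨hpq, hp⟩)) t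
      · obtain ⟨T1, hT1⟩ := ih q hqT {q.eraseLead} (by
          intro r hr
          rw [Finset.mem_singleton.1 hr]
          exact degree_eraseLead_lt hq)
        refine ⟨T1, fun _ f g hfg hf hg => ?_⟩
        obtain ⟨φ, hφ⟩ := hT1 f g hfg
        refine ⟨φ, fun p hp t => ?_⟩
        by_cases hpq : p = q
        · rw [hpq, qeb_erase f hf, qeb_erase g hg]
          exact hφ _ (Finset.mem_union_right _ (Finset.mem_singleton_self _)) t
        · exact hφ p (Finset.mem_union_left _ (Finset.mem_erase.2 ⟨hpq, hp⟩)) t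
    choose T1 hT1 using h1
    -- the main family
    have h2 : ∃ T2 : Finset A, ∀ f g : A →+* ℝ,
        (∀ a ∈ T2, SignType.sign (f a) = SignType.sign (g a)) →
        (∀ q ∈ T, SignType.sign (f q.leadingCoeff) = SignType.sign (g q.leadingCoeff)) →
        (∀ q ∈ T, f q.leadingCoeff ≠ 0) → (∀ q ∈ T, g q.leadingCoeff ≠ 0) →
        ∃ φ : ℝ ≃o ℝ, ∀ p ∈ T, ∀ t,
          SignType.sign ((p.map f).eval t) = SignType.sign ((p.map g).eval (φ t)) := by
      by_cases h0 : ∀ q ∈ T, q.natDegree = 0
      · refine ⟨∅, fun f g _ hl _ _ => ⟨OrderIso.refl ℝ, fun p hp t => ?_⟩⟩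
        have hpC : p = C p.leadingCoeff := by
          rw [leadingCoeff, h0 p hp]
          exact eq_C_of_natDegree_eq_zero (h0 p hp)
        rw [hpC]
        simp only [map_C, eval_C]
        exact hl p hp
      · obtain ⟨q0, hq0⟩ := not_forall.1 h0
        obtain ⟨hq0T, hq0d⟩ := Classical.not_imp.1 hq0
        obtain ⟨p, hpT, hpm⟩ := Finset.exists_max_image T degree ⟨q0, hq0T⟩
        have hpd : p.natDegree ≠ 0 := fun h =>
          hq0d (Nat.eq_zero_of_le_zero (h ▸ natDegree_le_natDegree (hpm q0 hq0T)))
        have hp : p ≠ 0 := by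
          rintro rfl
          exact hpd natDegree_zero
        choose e s r hr hid using qeb_even hp
        set U : Finset A[X] := insert (derivative p) (T.erase p) with hU
        have hUd : ∀ q ∈ U, q.degree ≤ p.degree := by
          intro q hq
          rcases Finset.mem_insert.1 hq with rfl | hq
          · exact (degree_derivative_lt hp).le
          · exact hpm q (Finset.mem_of_mem_erase hq)
        obtain ⟨T2, hT2⟩ := ih p hpT (insert (derivative p) (U.image r)) (by
          intro q hq
          rcases Finset.mem_insert.1 hq with rfl | hq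
          · exact degree_derivative_lt hp
          · obtain ⟨q', hq', rfl⟩ := Finset.mem_image.1 hq
            exact hr q' (hUd q' hq'))
        refine ⟨T2, fun f g hfg _ hf hg => ?_⟩
        obtain ⟨φ, hφ⟩ := hT2 f g hfg
        have hUl : ∀ k : A →+* ℝ, (∀ q ∈ T, k q.leadingCoeff ≠ 0) →
            ∀ q ∈ U, k q.leadingCoeff ≠ 0 := by
          intro k hk q hq
          rcases Finset.mem_insert.1 hq with rfl | hq
          · rw [leadingCoeff_derivative, map_mul, map_natCast]
            exact mul_ne_zero (hk p hpT) (Nat.cast_ne_zero.2 hpd)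
          · exact hk q (Finset.mem_of_mem_erase hq)
        have hUφ : ∀ q ∈ U, ∀ t,
            SignType.sign ((q.map f).eval t) = SignType.sign ((q.map g).eval (φ t)) := by
          intro q hq t
          rcases Finset.mem_insert.1 hq with rfl | hq
          · exact hφ _ (Finset.mem_union_right _ (Finset.mem_insert_self _ _)) t
          · exact hφ q (Finset.mem_union_left _ hq) t
        obtain ⟨ψ, hψ1, hψ2⟩ := qe_real (I := U) (fun i => i.1.map f) (fun i => i.1.map g)
          ⟨derivative p, Finset.mem_insert_self _ _⟩ (p.map f) (p.map g) φ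
          (fun i => qeb_ne f (hUl f hf i.1 i.2)) (derivative_map p f) (derivative_map p g)
          (fun i t => hUφ i.1 i.2 t) (by
            rintro ⟨q, hq⟩ t ht
            have hq0 : q ≠ 0 := by
              rintro rfl
              exact hUl f hf 0 hq (by simp)
            have ht' : (q.map g).eval (φ t) = 0 := by
              have h3 := hUφ q hq t
              have ht0 : (q.map f).eval t = 0 := ht
              rw [ht0, sign_zero] at h3
              exact sign_eq_zero_iff.1 h3.symm
            rw [qeb_root f (hid q hq0) (hUl f hf q hq) ht,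
              qeb_root g (hid q hq0) (hUl g hg q hq) ht']
            exact hφ _ (Finset.mem_union_right _ (Finset.mem_insert_of_mem
              (Finset.mem_image_of_mem r hq))) t)
        refine ⟨ψ, fun q hq t => ?_⟩
        by_cases hqp : q = p
        · rw [hqp]
          exact hψ2 t
        · exact hψ1 ⟨q, Finset.mem_insert_of_mem (Finset.mem_erase.2 ⟨hqp, hq⟩)⟩ t
    obtain ⟨T2, hT2⟩ := h2
    refine ⟨T.image leadingCoeff ∪ (T.biUnion T1 ∪ T2), fun f g hfg => ?_⟩
    have hl : ∀ q ∈ T, SignType.sign (f q.leadingCoeff) = SignType.sign (g q.leadingCoeff) :=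
      fun q hq => hfg _ (Finset.mem_union_left _ (Finset.mem_image_of_mem _ hq))
    have hiff : ∀ q ∈ T, f q.leadingCoeff = 0 ↔ g q.leadingCoeff = 0 := fun q hq => by
      rw [← sign_eq_zero_iff, hl q hq, sign_eq_zero_iff]
    by_cases hz : ∃ q ∈ T, f q.leadingCoeff = 0
    · obtain ⟨q, hq, hq0⟩ := hz
      exact hT1 q hq f g (fun a ha => hfg a (Finset.mem_union_right _ (Finset.mem_union_left _
        (Finset.mem_biUnion.2 ⟨q, hq, ha⟩)))) hq0 ((hiff q hq).1 hq0)
    · have hf : ∀ q ∈ T, f q.leadingCoeff ≠ 0 := fun q hq h => hz ⟨q, hq, h⟩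
      exact hT2 f g (fun a ha => hfg a (Finset.mem_union_right _ (Finset.mem_union_right _ ha))) hl
        hf fun q hq h => hf q hq ((hiff q hq).2 h)

/-- Elimination of one existential quantifier. -/
theorem SA.exists_real {σ : Type} {P : (Option σ → ℝ) → Prop} (h : SA P) :
    SA fun x : σ → ℝ => ∃ t : ℝ, P fun o => o.elim t x := by
  obtain ⟨T, hT⟩ := h
  obtain ⟨T', hT'⟩ := qe_core (T.image (MvPolynomial.optionEquivLeft ℝ σ))
  refine ⟨T', fun x y hxy ⟨t, ht⟩ => ?_⟩
  obtain ⟨φ, hφ⟩ := hT' (MvPolynomial.eval x) (MvPolynomial.eval y) hxy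
  refine ⟨φ t, hT _ _ (fun p hp => ?_) ht⟩
  rw [MvPolynomial.optionEquivLeft_elim_eval, MvPolynomial.optionEquivLeft_elim_eval]
  exact hφ _ (Finset.mem_image_of_mem _ hp) t

end Pool.Agent.Cyl
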