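import Pool.Agent.P.MP_8a0bcd_co.Lab

/-! Shared definitions: semialgebraic predicates, quadrics, frames, planar partitions. -/

set_option autoImplicit false

namespace Pool.Agent.Cyl

open Set
open scoped Classical

/-- The predicate `P` depends only on the signs of finitely many polynomials. -/
def SA {σ : Type} (P : (σ → ℝ) → Prop) : Prop :=
  ∃ T : Finset (MvPolynomial σ ℝ), ∀ x y : σ → ℝ,
    (∀ p ∈ T, SignType.sign (MvPolynomial.eval x p) = SignType.sign (MvPolynomial.eval y p)) →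
      P x → P y

/-- Polynomial functions of degree at most two. -/
def Quad (g : E → ℝ) : Prop :=
  ∃ (q : Fin 3 → Fin 3 → ℝ) (l : Fin 3 → ℝ) (c : ℝ),
    ∀ x, g x = ∑ i, ∑ j, q i j * x i * x j + ∑ i, l i * x i + c

/-- The unit disc around `a` in the coordinates `α`, `β`. -/
def disc (α β : Fn) (a : E) : Set E := {y | α (y - a) ^ 2 + β (y - a) ^ 2 ≤ 1}

/-- The square of half side `ρ` around `a` in the coordinates `α`, `β`. -/
def tube (α β : Fn) (a : E) (ρ : ℝ) : Set E := {y | |α (y - a)| ≤ ρ ∧ |β (y - a)| ≤ ρ}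

/-- `S` has diameter at most `l` in the coordinates `α`, `β`. -/
def Small (α β : Fn) (l : ℝ) (S : Set E) : Prop :=
  ∀ x ∈ S, ∀ y ∈ S, |α (x - y)| ≤ l ∧ |β (x - y)| ≤ l

/-- The coordinates `α`, `β` are independent. -/
def Onto (α β : Fn) : Prop := ∀ s t : ℝ, ∃ z, α z = s ∧ β z = t

/-- Orthonormal frames of the planes orthogonal to the directions `i : ι`, one frame for each
auxiliary direction `w : W`. -/
structure Geo (ι W : Type) (l θ : ℝ) where
  /-- the coordinate that vanishes on `w` -/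
  τ : W → ι → Fn
  /-- the coordinate along the projection of `w` -/
  σ : W → ι → Fn
  /-- squared distance to the axis -/
  Q : ι → E → ℝ
  form : ∀ w i z, τ w i z ^ 2 + σ w i z ^ 2 = Q i z
  onto : ∀ w i, Onto (τ w i) (σ w i)
  ker : ∀ w i j z, i ≠ j → τ w i z = 0 → τ w j z = 0 → ∀ k, τ w k z = 0
  line : ∀ w i j z, i ≠ j → τ w i z = 0 → τ w j z = 0 → ∀ k, Q k z ≤ l ^ 2 * Q i z
  slope : ∀ w i j z, i ≠ j → |σ w j z| ≤ l * (|τ w j z| + |τ w i z| + |σ w i z|)
  axis : ∀ w i, ∃ γ : Fn, ∀ j, i ≠ j → ∃ κ : ℝ, κ ≠ 0 ∧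
    ∀ z, |τ w j z - κ * γ z| ≤ |τ w i z| + |σ w i z|
  pick : ∀ z : ι → E, (∀ i, Q i (z i) = 1) → ∃ w, ∀ i, θ ≤ |σ w i (z i)|

/-- On `R` the discs of `J` decide membership in the union of the discs of `K`, and all of them
are seen from `R` almost in the direction `z` or `-z`. -/
def Nice {κ : Type} (α β : Fn) (K : Finset κ) (a : κ → E) (ε : ℝ) (R : Set E) (J : Finset κ)
    (z : E) : Prop :=
  (∀ k ∈ J, ∃ s : ℝ, (s = 1 ∨ s = -1) ∧
    ∀ y ∈ R, |α (y - a k - s • z)| ≤ ε ∧ |β (y - a k - s • z)| ≤ ε) ∧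
  ((∀ y ∈ R, ∃ k ∈ K, y ∈ disc α β (a k)) ∨
    ∀ y ∈ R, ∀ k ∈ K, y ∈ disc α β (a k) → ∃ k' ∈ J, y ∈ disc α β (a k'))

/-- A partition adapted to a family of unit discs, without the direction data. -/
structure Col {κ : Type} (α β : Fn) (K : Finset κ) (a : κ → E) (l : ℝ) (m C : ℕ) where
  /-- the partition -/
  L : Lab
  /-- the walls `α = θ` -/
  Θ : Finset ℝ
  poly : L.PolyB m
  card : Θ.card ≤ C * K.card
  near : ∀ θ ∈ Θ, ∃ k ∈ K, |θ - α (a k)| ≤ 3
  off : ∀ x ∈ L.G, α x ∉ Θ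
  bad : ∀ x, x ∉ L.G → α x ∈ Θ ∨ ∃ k ∈ K, x ∈ tube α β (a k) 3
  loc : ∀ S, Small α β l S → (L.cl S).card ≤ C

/-- A partition adapted to a family of unit discs. -/
structure Pl {κ : Type} (α β : Fn) (K : Finset κ) (a : κ → E) (ε l : ℝ) (m C : ℕ)
    extends Col α β K a l m C where
  /-- the discs that matter on a class -/
  J : Set E → Finset κ
  /-- the common direction on a class -/
  z : Set E → E
  sub : ∀ R, J R ⊆ K
  unit : ∀ R, α (z R) ^ 2 + β (z R) ^ 2 = 1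
  nice : ∀ x ∈ L.G, Nice α β K a ε (L.cls x) (J (L.cls x)) (z (L.cls x))

end Pool.Agent.Cyl
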